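import Pool.Agent.K4H63.TY.Ell2

/-!
# The unit ball of the operators on an `ℓ_p`-sum is amplifiable
-/

set_option autoImplicit false
open Finset Filter Topology Polynomial
open scoped ENNReal

namespace Pool.Agent.K4H63.TY

variable {P : ℝ≥0∞} [hP : Fact (1 ≤ P)] {X : Type*} [NormedAddCommGroup X] [NormedSpace ℂ X]

/-- The diagonal operator with the entry `R` in the first `N` places. -/
noncomputable def dg (P : ℝ≥0∞) [Fact (1 ≤ P)] {X : Type*} [NormedAddCommGroup X]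
    [NormedSpace ℂ X] (N : ℕ) (R : X →L[ℂ] X) :
    lp (fun _ : ℕ => X) P →L[ℂ] lp (fun _ : ℕ => X) P :=
  ∑ i ∈ range N, (sg P i).comp (R.comp (ev P i))

lemma dg_apply (N : ℕ) (R : X →L[ℂ] X) (x : lp (fun _ : ℕ => X) P) :
    dg P N R x = ∑ i ∈ range N, sg P i (R (ev P i x)) := by
  unfold dg
  rw [_root_.sum_apply]
  rfl

lemma ev_dg (N i : ℕ) (R : X →L[ℂ] X) (x : lp (fun _ : ℕ => X) P) :
    ev P i (dg P N R x) = if i < N then R (ev P i x) else 0 := by
  rw [dg_apply, map_sum]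
  simp only [ev_sg]
  rw [sum_ite_eq]
  simp only [mem_range]

lemma norm_dg (hp : 0 < P.toReal) (N : ℕ) {R : X →L[ℂ] X} (hR : ‖R‖ ≤ 1) : ‖dg P N R‖ ≤ 1 := by
  refine ContinuousLinearMap.opNorm_le_bound _ zero_le_one fun x => ?_
  rw [one_mul, dg_apply]
  apply rpow_le_imp (norm_nonneg _) (norm_nonneg _) hp
  rw [norm_sum_sg (P := P) hp (range N) (fun i => i) (fun _ _ _ _ h => h)
    (fun i => R (ev P i x))]
  refine le_trans (sum_le_sum fun i _ => ?_)
    (sum_ev_le (P := P) hp (range N) (fun i => i) (fun _ _ _ _ h => h) x)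
  exact Real.rpow_le_rpow (norm_nonneg _) ((R.le_opNorm _).trans
    (mul_le_of_le_one_left (norm_nonneg _) hR)) hp.le

lemma tr_dg (N : ℕ) (R : X →L[ℂ] X) : tr P X N * dg P N R = dg P N R := by
  ext1 x
  rw [mul_apply_eq_comp]
  refine ev_ext fun i => ?_
  rw [ev_tr, ev_dg]
  split_ifs <;> rfl

lemma dg_tr (N : ℕ) (R : X →L[ℂ] X) : dg P N R * tr P X N = dg P N R := by
  ext1 x
  rw [mul_apply_eq_comp]
  refine ev_ext fun i => ?_
  rw [ev_dg, ev_dg, ev_tr]
  split_ifs <;> rfl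

lemma finrank_dg (N : ℕ) {R : X →L[ℂ] X}
    (hR : FiniteDimensional ℂ (LinearMap.range (R : X →ₗ[ℂ] X))) :
    FiniteDimensional ℂ (LinearMap.range
      ((dg P N R : lp (fun _ : ℕ => X) P →L[ℂ] lp (fun _ : ℕ => X) P) :
        lp (fun _ : ℕ => X) P →ₗ[ℂ] lp (fun _ : ℕ => X) P)) := by
  classical
  have hfin : ∀ i, FiniteDimensional ℂ ((LinearMap.range (R : X →ₗ[ℂ] X)).map
      ((sg P i : X →L[ℂ] lp (fun _ : ℕ => X) P) : X →ₗ[ℂ] lp (fun _ : ℕ => X) P)) :=
    fun i => inferInstance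
  have hfin2 : FiniteDimensional ℂ (((range N).sup fun i => (LinearMap.range (R : X →ₗ[ℂ] X)).map
      ((sg P i : X →L[ℂ] lp (fun _ : ℕ => X) P) : X →ₗ[ℂ] lp (fun _ : ℕ => X) P)) :
        Submodule ℂ (lp (fun _ : ℕ => X) P)) :=
    Submodule.finiteDimensional_finset_sup _ _
  refine Submodule.finiteDimensional_of_le (S₂ := (range N).sup fun i =>
    (LinearMap.range (R : X →ₗ[ℂ] X)).map
      ((sg P i : X →L[ℂ] lp (fun _ : ℕ => X) P) : X →ₗ[ℂ] lp (fun _ : ℕ => X) P)) ?_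
  rintro _ ⟨x, rfl⟩
  show dg P N R x ∈ _
  rw [dg_apply]
  refine Submodule.sum_mem _ fun i hi => ?_
  have hle : (LinearMap.range (R : X →ₗ[ℂ] X)).map
      ((sg P i : X →L[ℂ] lp (fun _ : ℕ => X) P) : X →ₗ[ℂ] lp (fun _ : ℕ => X) P) ≤
      (range N).sup fun i => (LinearMap.range (R : X →ₗ[ℂ] X)).map
        ((sg P i : X →L[ℂ] lp (fun _ : ℕ => X) P) : X →ₗ[ℂ] lp (fun _ : ℕ => X) P) :=
    Finset.le_sup (f := fun i => (LinearMap.range (R : X →ₗ[ℂ] X)).map
      ((sg P i : X →L[ℂ] lp (fun _ : ℕ => X) P) : X →ₗ[ℂ] lp (fun _ : ℕ => X) P)) hi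
  exact hle ⟨R (ev P i x), ⟨ev P i x, rfl⟩, rfl⟩

/-- Finite-dimensional subspaces have bases with continuous coordinates. -/
lemma exists_basis {E : Type*} [NormedAddCommGroup E] [NormedSpace ℂ E] (G : Submodule ℂ E)
    [FiniteDimensional ℂ G] : ∃ (N : ℕ) (b : Fin N → E) (k : Fin N → StrongDual ℂ E),
      (∀ i, b i ∈ G) ∧ (∀ i j, k i (b j) = if i = j then 1 else 0) ∧
        ∀ x ∈ G, x = ∑ i, k i x • b i := by
  classical
  set B := Module.finBasis ℂ G with hB
  have h1 : ∀ i, ∃ g : StrongDual ℂ E, ∀ x : G, g x = B.coord i x := by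
    intro i
    obtain ⟨g, hg, -⟩ := exists_extension_norm_eq G
      (LinearMap.toContinuousLinearMap (B.coord i))
    exact ⟨g, hg⟩
  choose k hk using h1
  refine ⟨_, fun i => (B i : E), k, fun i => (B i).2, fun i j => ?_, fun x hx => ?_⟩
  · rw [hk, Module.Basis.coord_apply, Module.Basis.repr_self, Finsupp.single_apply]
    simp only [eq_comm]
  · have h2 := congrArg (fun z : G => (z : E)) (B.sum_repr ⟨x, hx⟩)
    simp only [Submodule.coe_sum, Submodule.coe_smul] at h2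
    rw [← h2]
    refine sum_congr rfl fun i _ => ?_
    congr 1
    rw [h2]
    exact (hk i ⟨x, hx⟩).symm

/-- Compressions by contractions which are close to the identity. -/
lemma compr {E : Type*} [NormedAddCommGroup E] [NormedSpace ℂ E] {T R : E →L[ℂ] E}
    (hT : ‖T‖ ≤ 1) (hR : ‖R‖ ≤ 1) {x : E} {ε : ℝ} (h1 : ‖R x - x‖ ≤ ε)
    (h2 : ‖R (T x) - T x‖ ≤ ε) : ‖(R * T * R) x - T x‖ ≤ 2 * ε := by
  have e : (R * T * R) x - T x = R (T (R x - x)) + (R (T x) - T x) := by
    rw [mul_apply_eq_comp, mul_apply_eq_comp, map_sub, map_sub]; abel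
  rw [e, two_mul]
  refine (norm_add_le _ _).trans (add_le_add ?_ h2)
  refine (R.le_opNorm _).trans ((mul_le_of_le_one_left (norm_nonneg _) hR).trans ?_)
  refine (T.le_opNorm _).trans ((mul_le_of_le_one_left (norm_nonneg _) hT).trans h1)

lemma compr' {E : Type*} [NormedAddCommGroup E] [NormedSpace ℂ E] {T R : E →L[ℂ] E}
    (hT : ‖T‖ ≤ 1) (hR : ‖R‖ ≤ 1) {y : StrongDual ℂ E} {ε : ℝ} (hε : 0 ≤ ε)
    (h1 : ‖y.comp R - y‖ ≤ ε) (h2 : ‖(y.comp T).comp R - y.comp T‖ ≤ ε) :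
    ‖y.comp (R * T * R) - y.comp T‖ ≤ 2 * ε := by
  have e : y.comp (R * T * R) - y.comp T = ((y.comp R - y).comp T).comp R +
      ((y.comp T).comp R - y.comp T) := by
    ext z
    simp only [ContinuousLinearMap.comp_apply, _root_.sub_apply, _root_.add_apply,
      mul_apply_eq_comp]
    ring
  rw [e, two_mul]
  refine (norm_add_le _ _).trans (add_le_add ?_ h2)
  refine (ContinuousLinearMap.opNorm_comp_le _ _).trans
    ((mul_le_of_le_one_right (norm_nonneg _) hR).trans ?_)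
  exact (ContinuousLinearMap.opNorm_comp_le _ _).trans
    ((mul_le_of_le_one_right (norm_nonneg _) hT).trans h1)

/-- Finite rank contractions of diagonal form close to the identity. -/
lemma exists_dg (hX : Refl X) (hM : MAP X) (hP1 : 1 < P.toReal) (hPt : P ≠ ∞)
    (A : Finset (lp (fun _ : ℕ => X) P)) (A' : Finset (StrongDual ℂ (lp (fun _ : ℕ => X) P)))
    {ε : ℝ} (hε : 0 < ε) : ∃ (N : ℕ) (R : X →L[ℂ] X),
      FiniteDimensional ℂ (LinearMap.range (R : X →ₗ[ℂ] X)) ∧ ‖R‖ ≤ 1 ∧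
      (∀ x ∈ A, ‖tr P X N x - x‖ ≤ ε ∧ ‖dg P N R x - x‖ ≤ ε) ∧
      ∀ y ∈ A', ‖y.comp (tr P X N) - y‖ ≤ ε ∧ ‖y.comp (dg P N R) - y‖ ≤ ε := by
  classical
  have hp : 0 < P.toReal := by linarith
  have h1 : ∀ᶠ N in atTop, ∀ x ∈ A, ‖(1 - tr P X N) x‖ < ε / 2 := by
    rw [eventually_all_finset]
    intro x _
    have h2 := ((tr_tendsto hPt x).const_sub x).norm
    rw [sub_self, norm_zero] at h2
    exact h2.eventually (gt_mem_nhds (by positivity))
  have h2 : ∀ᶠ N in atTop, ∀ y ∈ A', ‖y.comp (1 - tr P X N)‖ < ε / 2 := by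
    rw [eventually_all_finset]
    intro y _
    exact (tr_dual_tendsto hP1 hPt y).eventually (gt_mem_nhds (by positivity))
  obtain ⟨N, hN1, hN2⟩ := (h1.and h2).exists
  obtain ⟨R, hR1, hR2, hR3, hR4⟩ := map2 hX hM
    (A.biUnion fun x => (range N).image fun i => ev P i x)
    (A'.biUnion fun y => (range N).image fun i => y.comp (sg P i))
    (show 0 < ε / 2 / (N + 1) by positivity)
  have hNε : N * (ε / 2 / (N + 1)) ≤ ε / 2 := by
    rw [mul_div_assoc', div_le_iff₀ (by positivity)]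
    nlinarith
  refine ⟨N, R, hR1, hR2, fun x hx => ?_, fun y hy => ?_⟩
  · have b1 : ‖tr P X N x - x‖ ≤ ε / 2 := by
      have e : tr P X N x - x = -((1 - tr P X N) x) := by
        rw [_root_.sub_apply, one_apply_eq_self]; abel
      rw [e, norm_neg]
      exact (hN1 x hx).le
    refine ⟨by linarith, ?_⟩
    have e : dg P N R x - x = ∑ i ∈ range N, sg P i (R (ev P i x) - ev P i x) +
        (tr P X N x - x) := by
      rw [dg_apply, tr_apply]
      simp only [map_sub, sum_sub_distrib]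
      abel
    rw [e]
    have b2 : ‖∑ i ∈ range N, sg P i (R (ev P i x) - ev P i x)‖ ≤ N * (ε / 2 / (N + 1)) := by
      refine (norm_sum_le _ _).trans
        ((sum_le_sum (g := fun _ => ε / 2 / ((N : ℝ) + 1)) fun i hi => ?_).trans ?_)
      · rw [sg_apply, lp.norm_single (zero_lt_one.trans_le hP.out)]
        exact hR3 _ (mem_biUnion.2 ⟨x, hx, mem_image_of_mem _ hi⟩)
      · rw [sum_const, card_range, nsmul_eq_mul]
    refine (norm_add_le _ _).trans ?_
    linarith
  · have b1 : ‖y.comp (tr P X N) - y‖ ≤ ε / 2 := by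
      have e : y.comp (tr P X N) - y = -(y.comp (1 - tr P X N)) := by
        ext z
        simp only [_root_.sub_apply, ContinuousLinearMap.comp_apply, _root_.neg_apply,
          one_apply_eq_self, map_sub]
        ring
      rw [e, norm_neg]
      exact (hN2 y hy).le
    refine ⟨by linarith, ?_⟩
    have e : y.comp (dg P N R) - y = ∑ i ∈ range N,
        ((y.comp (sg P i)).comp R - y.comp (sg P i)).comp (ev P i) +
        (y.comp (tr P X N) - y) := by
      ext z
      simp only [_root_.sub_apply, ContinuousLinearMap.comp_apply, _root_.add_apply,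
        _root_.sum_apply, dg_apply, tr_apply, map_sum, sum_sub_distrib]
      ring
    rw [e]
    have hev : ∀ i, ‖(ev P i : lp (fun _ : ℕ => X) P →L[ℂ] X)‖ ≤ 1 := by
      intro i
      refine ContinuousLinearMap.opNorm_le_bound _ zero_le_one fun z => ?_
      rw [one_mul, ev_apply]
      exact lp.norm_apply_le_norm (zero_lt_one.trans_le hP.out).ne' z i
    have b2 : ‖∑ i ∈ range N,
        ((y.comp (sg P i)).comp R - y.comp (sg P i)).comp (ev P i)‖ ≤
          N * (ε / 2 / (N + 1)) := by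
      refine (norm_sum_le _ _).trans
        ((sum_le_sum (g := fun _ => ε / 2 / ((N : ℝ) + 1)) fun i hi => ?_).trans ?_)
      · refine (ContinuousLinearMap.opNorm_comp_le _ _).trans
          ((mul_le_of_le_one_right (norm_nonneg _) (hev i)).trans ?_)
        exact hR4 _ (mem_biUnion.2 ⟨y, hy, mem_image_of_mem _ hi⟩)
      · rw [sum_const, card_range, nsmul_eq_mul]
    refine (norm_add_le _ _).trans ?_
    linarith

/-- **The unit ball of the operators on an `ℓ_p`-sum is amplifiable.** -/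
theorem amp_ball (hX : Refl X) (hM : MAP X) (hP1 : 1 < P.toReal) (hPt : P ≠ ∞) :
    Amp P.toReal {T : lp (fun _ : ℕ => X) P →L[ℂ] lp (fun _ : ℕ => X) P | ‖T‖ ≤ 1} := by
  classical
  have hp : 0 < P.toReal := by linarith
  intro T hT A A' ε hε
  replace hT : ‖T‖ ≤ 1 := hT
  set M : ℝ := ∑ x ∈ A, ‖x‖ + ∑ y ∈ A', ‖y‖ + 1 with hMd
  have hM1 : 0 ≤ ∑ x ∈ A, ‖x‖ := sum_nonneg fun _ _ => norm_nonneg _
  have hM2 : 0 ≤ ∑ y ∈ A', ‖y‖ := sum_nonneg fun _ _ => norm_nonneg _
  have hM0 : 0 < M := by rw [hMd]; linarith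
  have hMA : ∀ x ∈ A, ‖x‖ ≤ M := by
    intro x hx
    have h1 := single_le_sum (f := fun x : lp (fun _ : ℕ => X) P => ‖x‖)
      (fun _ _ => norm_nonneg _) hx
    rw [hMd]
    linarith
  have hMA' : ∀ y ∈ A', ‖y‖ ≤ M := by
    intro y hy
    have h1 := single_le_sum (f := fun y : StrongDual ℂ (lp (fun _ : ℕ => X) P) => ‖y‖)
      (fun _ _ => norm_nonneg _) hy
    rw [hMd]
    linarith
  set τ : ℝ := min (1 / 2) (ε / (4 * M)) with hτ
  have hτ0 : 0 < τ := lt_min (by norm_num) (by positivity)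
  have hτ1 : τ ≤ 1 / 2 := min_le_left _ _
  have hτM : τ * M ≤ ε / 4 := by
    have : τ ≤ ε / (4 * M) := min_le_right _ _
    rw [le_div_iff₀ (by positivity)] at this
    linarith
  obtain ⟨N, R, hR1, hR2, hR3, hR4⟩ := exists_dg (P := P) hX hM hP1 hPt
    (A ∪ A.image fun x => T x) (A' ∪ A'.image fun y => y.comp T)
    (show 0 < ε / 4 by positivity)
  set Q := tr P X N with hQ
  set D := dg P N R with hD
  have hD1 : ‖D‖ ≤ 1 := norm_dg hp N hR2
  have hQD : Q * D = D := tr_dg N R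
  have hDQ : D * Q = D := dg_tr N R
  have hQQ : Q * Q = Q := (copies_ell (P := P) (X := X) hp (le_refl N) 0).PP
  have hfd := finrank_dg (P := P) N hR1
  obtain ⟨n, b, k0, hbG, hkb0, hexp⟩ := exists_basis (LinearMap.range
      ((D : lp (fun _ : ℕ => X) P →L[ℂ] lp (fun _ : ℕ => X) P) :
        lp (fun _ : ℕ => X) P →ₗ[ℂ] lp (fun _ : ℕ => X) P))
  have hQb : ∀ z, Q (D z) = D z := fun z => by
    have := congrArg (fun S : lp (fun _ : ℕ => X) P →L[ℂ] lp (fun _ : ℕ => X) P => S z) hQD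
    simpa only [mul_apply_eq_comp] using this
  have hQbi : ∀ i, Q (b i) = b i := by
    intro i
    obtain ⟨z, hz⟩ := hbG i
    rw [← hz]
    exact hQb z
  set k : Fin n → StrongDual ℂ (lp (fun _ : ℕ => X) P) := fun i => (k0 i).comp Q with hk
  have hkb : ∀ i j, k i (b j) = if i = j then 1 else 0 := by
    intro i j
    simp only [hk, ContinuousLinearMap.comp_apply, hQbi]
    exact hkb0 i j
  set B0 : lp (fun _ : ℕ => X) P →L[ℂ] lp (fun _ : ℕ => X) P :=
    (((1 - τ : ℝ)) : ℂ) • (D * T * D) with hB0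
  have hB0n : ‖B0‖ ≤ 1 - τ := by
    rw [hB0, norm_smul, Complex.norm_real, Real.norm_of_nonneg (by linarith)]
    refine mul_le_of_le_one_right (by linarith) ?_
    calc ‖D * T * D‖ ≤ ‖D * T‖ * ‖D‖ := norm_mul_le _ _
      _ ≤ (‖D‖ * ‖T‖) * ‖D‖ := mul_le_mul_of_nonneg_right (norm_mul_le _ _) (norm_nonneg _)
      _ ≤ (1 * 1) * 1 := mul_le_mul (mul_le_mul hD1 hT (norm_nonneg _) zero_le_one) hD1
          (norm_nonneg _) (by norm_num)
      _ = 1 := by norm_num
  have hB0x : ∀ x, B0 x = D ((((1 - τ : ℝ)) : ℂ) • T (D x)) := by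
    intro x
    rw [hB0, _root_.smul_apply, mul_apply_eq_comp, mul_apply_eq_comp, map_smul]
  have hB0e : ∀ x, B0 x = ∑ i, k i (B0 x) • b i := by
    intro x
    have h1 := hexp (B0 x) ⟨(((1 - τ : ℝ)) : ℂ) • T (D x), (hB0x x).symm⟩
    have h2 : ∀ i, k i (B0 x) = k0 i (B0 x) := by
      intro i
      simp only [hk, ContinuousLinearMap.comp_apply]
      congr 1
      rw [hB0x]
      exact hQb _
    simp only [h2]
    exact h1
  obtain ⟨t, χ, ht0, htn, hχ, hs⟩ := exists_sep_pert b k hkb B0 hB0e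
    (show 0 < τ / 2 by positivity)
  set D1 : lp (fun _ : ℕ => X) P →L[ℂ] lp (fun _ : ℕ => X) P :=
    ∑ i, ((t i : ℝ) : ℂ) • (k i).smulRight (b i) with hD1'
  have hQD1 : Q * D1 = D1 := by
    ext1 x
    rw [mul_apply_eq_comp, hD1']
    simp only [_root_.sum_apply, _root_.smul_apply, ContinuousLinearMap.smulRight_apply, map_sum,
      map_smul, hQbi]
  have hD1Q : D1 * Q = D1 := by
    ext1 x
    rw [mul_apply_eq_comp, hD1']
    simp only [_root_.sum_apply, _root_.smul_apply, ContinuousLinearMap.smulRight_apply]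
    refine sum_congr rfl fun i _ => ?_
    congr 2
    simp only [hk, ContinuousLinearMap.comp_apply]
    congr 1
    have := congrArg (fun S : lp (fun _ : ℕ => X) P →L[ℂ] lp (fun _ : ℕ => X) P => S x) hQQ
    simpa only [mul_apply_eq_comp] using this
  have hQB0 : Q * B0 = B0 := by
    rw [hB0, mul_smul_comm, ← mul_assoc, ← mul_assoc, hQD]
  have hB0Q : B0 * Q = B0 := by
    rw [hB0, smul_mul_assoc, mul_assoc, hDQ]
  have hBn : ‖B0 + D1‖ ≤ 1 - τ / 2 := by
    refine (norm_add_le _ _).trans ?_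
    linarith
  have hτn : ‖((((1 - τ : ℝ)) : ℂ) - 1)‖ = τ := by
    have e1 : (((1 - τ : ℝ)) : ℂ) - 1 = ((-τ : ℝ) : ℂ) := by push_cast; ring
    rw [e1, Complex.norm_real, norm_neg, Real.norm_of_nonneg hτ0.le]
  have hcn : ‖D * T * D‖ ≤ 1 := by
    calc ‖D * T * D‖ ≤ ‖D * T‖ * ‖D‖ := norm_mul_le _ _
      _ ≤ (‖D‖ * ‖T‖) * ‖D‖ := mul_le_mul_of_nonneg_right (norm_mul_le _ _) (norm_nonneg _)
      _ ≤ (1 * 1) * 1 := mul_le_mul (mul_le_mul hD1 hT (norm_nonneg _) zero_le_one) hD1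
          (norm_nonneg _) (by norm_num)
      _ = 1 := by norm_num
  refine ⟨Q, B0 + D1, 1 - τ / 2, χ, ?_, norm_tr hp N, hQQ, ?_, ?_, by linarith, hBn, hχ, hs,
    ?_, ?_, ?_⟩
  · show ‖B0 + D1‖ ≤ 1
    linarith
  · rw [mul_add, hQB0, hQD1]
  · rw [add_mul, hB0Q, hD1Q]
  · intro x hx
    refine ⟨(hR3 x (mem_union_left _ hx)).1.trans (by linarith), ?_⟩
    have h1 := compr hT hD1 (hR3 x (mem_union_left _ hx)).2
      (hR3 (T x) (mem_union_right _ (mem_image_of_mem _ hx))).2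
    have e : (B0 + D1) x - T x = ((((1 - τ : ℝ)) : ℂ) - 1) • (D * T * D) x + D1 x +
        ((D * T * D) x - T x) := by
      rw [_root_.add_apply, hB0, _root_.smul_apply, sub_smul, one_smul]
      abel
    rw [e]
    refine (norm_add₃_le).trans ?_
    rw [norm_smul, hτn]
    have b1 : ‖(D * T * D) x‖ ≤ M := ((D * T * D).le_opNorm x).trans
      ((mul_le_of_le_one_left (norm_nonneg _) hcn).trans (hMA x hx))
    have b2 : ‖D1 x‖ ≤ τ / 2 * M := (D1.le_opNorm x).trans
      (mul_le_mul htn (hMA x hx) (norm_nonneg _) (by positivity))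
    have b3 : τ * ‖(D * T * D) x‖ ≤ τ * M := mul_le_mul_of_nonneg_left b1 hτ0.le
    linarith
  · intro y hy
    refine ⟨(hR4 y (mem_union_left _ hy)).1.trans (by linarith), ?_⟩
    have h1 := compr' hT hD1 (by positivity) (hR4 y (mem_union_left _ hy)).2
      (hR4 (y.comp T) (mem_union_right _ (mem_image_of_mem _ hy))).2
    have e : y.comp (B0 + D1) - y.comp T = ((((1 - τ : ℝ)) : ℂ) - 1) • y.comp (D * T * D) +
        y.comp D1 + (y.comp (D * T * D) - y.comp T) := by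
      ext z
      simp only [hB0, ContinuousLinearMap.comp_apply, _root_.add_apply, _root_.sub_apply,
        _root_.smul_apply, map_add, map_smul, smul_eq_mul]
      ring
    rw [e]
    refine (norm_add₃_le).trans ?_
    rw [norm_smul, hτn]
    have b1 : ‖y.comp (D * T * D)‖ ≤ M := (ContinuousLinearMap.opNorm_comp_le _ _).trans
      ((mul_le_of_le_one_right (norm_nonneg _) hcn).trans (hMA' y hy))
    have b2 : ‖y.comp D1‖ ≤ M * (τ / 2) := (ContinuousLinearMap.opNorm_comp_le _ _).trans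
      (mul_le_mul (hMA' y hy) htn (norm_nonneg _) hM0.le)
    have b3 : τ * ‖y.comp (D * T * D)‖ ≤ τ * M := mul_le_mul_of_nonneg_left b1 hτ0.le
    linarith
  · intro m X' Y' ε' hε'
    obtain ⟨K, hNK, hcop, hfar⟩ := exists_copies (P := P) (X := X) hP1 hPt N m X' Y' hε'
    refine ⟨_, _, hcop, hfar, fun w hw => ?_⟩
    show ‖amp m (B0 + D1) (fun a => (w a : ℂ)) _ _‖ ≤ 1
    have h1 := hcop.norm_amp hp hBn (w := fun a => (w a : ℂ)) (s := 1 - (1 - τ / 2)) (fun a => by
      rw [Complex.norm_real, Real.norm_of_nonneg (hw a).1]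
      exact (hw a).2)
    linarith

end Pool.Agent.K4H63.TY
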