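import Mathlib

/-!
# Basic definitions and lemmas on commutants, block matrices and complete metrizability

Adapted (mostly verbatim) from the starting library `Pool.Agent.Y280` (files `HMat`, `HOp`, `CM`,
`HTyp`, `HLp`, `HStep3`), in order not to import the parts of that library which are special to
`ℓ_p`.
-/

set_option autoImplicit false
open Finset Filter Topology Polynomial TopologicalSpace

namespace Pool.Agent.K4H63.TY

section ring

variable {R : Type*} [Ring R] [Algebra ℂ R]

lemma comm_pow {A B : R} (h : A * (A * B - B * A) = (A * B - B * A) * A) (n : ℕ) :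
    A ^ n * B - B * A ^ n = (n : ℂ) • (A ^ (n - 1) * (A * B - B * A)) := by
  induction n with
  | zero => simp
  | succ n ih =>
    have e1 : A ^ (n + 1) * B - B * A ^ (n + 1) =
        A * (A ^ n * B - B * A ^ n) + (A * B - B * A) * A ^ n := by
      rw [pow_succ']
      noncomm_ring
    have e2 : (A * B - B * A) * A ^ n = A ^ n * (A * B - B * A) :=
      ((show Commute A (A * B - B * A) from h).pow_left n).eq.symm
    rw [e1, ih, e2, Nat.add_sub_cancel, mul_smul_comm, ← mul_assoc]
    rcases Nat.eq_zero_or_pos n with h0 | h0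
    · subst h0; simp
    · have e3 : A * A ^ (n - 1) = A ^ n := by
        rw [← pow_succ', Nat.sub_add_cancel h0]
      rw [e3]
      push_cast
      rw [add_smul, one_smul]

lemma comm_poly {A B : R} (h : A * (A * B - B * A) = (A * B - B * A) * A) (f : ℂ[X]) :
    aeval A f * B - B * aeval A f = aeval A (derivative f) * (A * B - B * A) := by
  induction f using Polynomial.induction_on' with
  | add f g hf hg =>
    rw [map_add, map_add, map_add, add_mul, mul_add, add_mul, ← hf, ← hg]
    abel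
  | monomial n a =>
    rw [aeval_monomial, derivative_monomial, aeval_monomial, map_mul, map_natCast]
    have h1 := comm_pow h n
    have e1 : algebraMap ℂ R a * A ^ n * B - B * (algebraMap ℂ R a * A ^ n) =
        algebraMap ℂ R a * (A ^ n * B - B * A ^ n) := by
      have e0 : B * (algebraMap ℂ R a * A ^ n) = algebraMap ℂ R a * (B * A ^ n) := by
        rw [← mul_assoc, ← Algebra.commutes a B, mul_assoc]
      rw [e0, mul_sub, mul_assoc]
    rw [e1, h1]
    have e2 : ((n : ℂ) • (A ^ (n - 1) * (A * B - B * A)) : R) =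
        (n : R) * (A ^ (n - 1) * (A * B - B * A)) := by
      rw [Nat.cast_smul_eq_nsmul, nsmul_eq_mul]
    rw [e2]
    simp only [mul_assoc]

/-- The derivation of a diagonalisable element is semisimple. -/
lemma ad_sq {A B : R} {χ : ℂ[X]} (hχ : aeval A χ = 0) (hs : χ.Separable)
    (h : A * (A * B - B * A) = (A * B - B * A) * A) : A * B - B * A = 0 := by
  have h1 := comm_poly h χ
  rw [hχ, zero_mul, mul_zero, sub_zero] at h1
  obtain ⟨a, b, hab⟩ := hs
  have h2 : aeval A b * aeval A (derivative χ) = 1 := by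
    have h3 := congrArg (aeval A) hab
    rw [map_add, map_mul, map_mul, hχ, mul_zero, zero_add, map_one] at h3
    exact h3
  calc A * B - B * A = aeval A b * aeval A (derivative χ) * (A * B - B * A) := by
        rw [h2, one_mul]
    _ = aeval A b * (aeval A (derivative χ) * (A * B - B * A)) := mul_assoc _ _ _
    _ = 0 := by rw [← h1, mul_zero]

/-- The blocks of an element which commutes with `A ⊗ 1 + 1 ⊗ J`. -/
lemma block_struct {A : R} {χ : ℂ[X]} (hχ : aeval A χ = 0) (hs : χ.Separable) (n : ℕ)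
    (w : ℕ → ℂ) (Bk : ℕ → ℕ → R)
    (hrel : ∀ a ≤ n, ∀ b ≤ n, A * Bk a b - Bk a b * A =
      (if b < n then w b • Bk a (b + 1) else 0) - (if 0 < a then w (a - 1) • Bk (a - 1) b else 0)) :
    ∀ a ≤ n, ∀ b ≤ n, A * Bk a b - Bk a b * A = 0 := by
  intro a
  induction a with
  | zero =>
    intro ha
    have key : ∀ c b, b + c = n → A * Bk 0 b - Bk 0 b * A = 0 := by
      intro c
      induction c with
      | zero =>
        intro b hb
        have h1 := hrel 0 ha b (by omega)
        rw [if_neg (by omega), if_neg (by omega), sub_zero] at h1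
        exact h1
      | succ c ih =>
        intro b hb
        have h1 := hrel 0 ha b (by omega)
        rw [if_pos (by omega), if_neg (by omega), sub_zero] at h1
        apply ad_sq hχ hs
        have h2 := ih (b + 1) (by omega)
        rw [h1, mul_smul_comm, smul_mul_assoc, sub_eq_zero.1 h2]
    intro b hb
    exact key (n - b) b (by omega)
  | succ a iha =>
    intro ha
    have hprev := iha (by omega)
    have key : ∀ c b, b + c = n → A * Bk (a + 1) b - Bk (a + 1) b * A = 0 := by
      intro c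
      induction c with
      | zero =>
        intro b hb
        have h1 := hrel (a + 1) ha b (by omega)
        rw [if_neg (by omega), if_pos (by omega), zero_sub, Nat.add_sub_cancel] at h1
        apply ad_sq hχ hs
        rw [h1, mul_neg, neg_mul, mul_smul_comm, smul_mul_assoc,
          sub_eq_zero.1 (hprev b (by omega))]
      | succ c ih =>
        intro b hb
        have h1 := hrel (a + 1) ha b (by omega)
        rw [if_pos (by omega), if_pos (by omega), Nat.add_sub_cancel] at h1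
        apply ad_sq hχ hs
        rw [h1, mul_sub, sub_mul, mul_smul_comm, smul_mul_assoc, mul_smul_comm, smul_mul_assoc,
          sub_eq_zero.1 (hprev b (by omega)), sub_eq_zero.1 (ih (b + 1) (by omega))]
    intro b hb
    exact key (n - b) b (by omega)

/-- The weights. -/
noncomputable def wt (m : ℕ) (δ w : ℝ) (j : ℕ) : ℂ := if j < m then (δ : ℂ) else (w : ℂ)

lemma wt_ne {m : ℕ} {δ w : ℝ} (hδ : 0 < δ) (hw : 0 < w) (j : ℕ) : wt m δ w j ≠ 0 := by
  unfold wt
  split_ifs
  · exact_mod_cast hδ.ne'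
  · exact_mod_cast hw.ne'

/-- The structure of the blocks for the weights `δ, …, δ, w`. -/
lemma block_toeplitz {A : R} {χ : ℂ[X]} (hχ : aeval A χ = 0) (hs : χ.Separable) (m : ℕ)
    {δ w : ℝ} (hδ : 0 < δ) (hw : 0 < w) (Bk : ℕ → ℕ → R)
    (hrel : ∀ a ≤ m + 1, ∀ b ≤ m + 1, A * Bk a b - Bk a b * A =
      (if b < m + 1 then wt m δ w b • Bk a (b + 1) else 0) -
        (if 0 < a then wt m δ w (a - 1) • Bk (a - 1) b else 0)) :
    A * Bk 0 0 = Bk 0 0 * A ∧ (∀ a ≤ m, Bk a a = Bk 0 0) ∧
      (∀ a ≤ m, ∀ b ≤ m, a ≠ b → ∃ a' ≤ m + 1, ∃ b' ≤ m + 1, ∃ c : ℂ, ‖c‖ ≤ δ / w ∧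
        Bk a b = c • Bk a' b') := by
  have hD := block_struct hχ hs (m + 1) (wt m δ w) Bk hrel
  have hc1 : ∀ a ≤ m, ∀ b ≤ m, wt m δ w b • Bk (a + 1) (b + 1) = wt m δ w a • Bk a b := by
    intro a ha b hb
    have h1 := hrel (a + 1) (by omega) b (by omega)
    rw [hD (a + 1) (by omega) b (by omega), if_pos (by omega), if_pos (by omega),
      Nat.add_sub_cancel] at h1
    exact sub_eq_zero.1 h1.symm
  have hc2 : ∀ b ≤ m, Bk 0 (b + 1) = 0 := by
    intro b hb
    have h1 := hrel 0 (by omega) b (by omega)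
    rw [hD 0 (by omega) b (by omega), if_pos (by omega), if_neg (by omega), sub_zero] at h1
    exact (smul_eq_zero.1 h1.symm).resolve_left (wt_ne hδ hw b)
  have hstep : ∀ a < m, ∀ b < m, Bk (a + 1) (b + 1) = Bk a b := by
    intro a ha b hb
    have h1 := hc1 a ha.le b hb.le
    have e : wt m δ w a = wt m δ w b := by
      unfold wt
      rw [if_pos ha, if_pos hb]
    rw [e] at h1
    exact smul_right_injective _ (wt_ne hδ hw b) h1
  have hup : ∀ a ≤ m, ∀ b ≤ m, a < b → Bk a b = 0 := by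
    intro a
    induction a with
    | zero =>
      intro _ b hb hab
      obtain ⟨c, rfl⟩ : ∃ c, b = c + 1 := ⟨b - 1, by omega⟩
      exact hc2 c (by omega)
    | succ a ih =>
      intro ha b hb hab
      obtain ⟨c, rfl⟩ : ∃ c, b = c + 1 := ⟨b - 1, by omega⟩
      rw [hstep a (by omega) c (by omega)]
      exact ih (by omega) c (by omega) (by omega)
  refine ⟨sub_eq_zero.1 (hD 0 (by omega) 0 (by omega)), ?_, ?_⟩
  · intro a
    induction a with
    | zero => intro _; rfl
    | succ a ih =>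
      intro ha
      rw [hstep a (by omega) a (by omega)]
      exact ih (by omega)
  · intro a ha b hb hab
    rcases Nat.lt_or_ge a b with h | h
    · refine ⟨0, by omega, 0, by omega, 0, ?_, ?_⟩
      · rw [norm_zero]; positivity
      · rw [zero_smul]; exact hup a ha b hb h
    · -- shift down to the last row
      have hsh : ∀ c, a + c ≤ m → Bk (a + c) (b + c) = Bk a b := by
        intro c
        induction c with
        | zero => intro _; rfl
        | succ c ih =>
          intro hc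
          rw [← ih (by omega)]
          exact hstep (a + c) (by omega) (b + c) (by omega)
      have h1 := hsh (m - a) (by omega)
      rw [show a + (m - a) = m by omega] at h1
      have h2 := hc1 m le_rfl (b + (m - a)) (by omega)
      rw [h1] at h2
      have e1 : wt m δ w m = (w : ℂ) := by unfold wt; rw [if_neg (lt_irrefl m)]
      have e2 : wt m δ w (b + (m - a)) = (δ : ℂ) := by unfold wt; rw [if_pos (by omega)]
      rw [e1, e2] at h2
      have hwC : (w : ℂ) ≠ 0 := by exact_mod_cast hw.ne'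
      refine ⟨m + 1, le_rfl, b + (m - a) + 1, by omega, (δ : ℂ) / w, ?_, ?_⟩
      · rw [norm_div, Complex.norm_real, Complex.norm_real, Real.norm_of_nonneg hδ.le,
          Real.norm_of_nonneg hw.le]
      · rw [div_eq_inv_mul, mul_smul, h2, smul_smul, inv_mul_cancel₀ hwC, one_smul]

end ring

section sep

/-- Near every matrix there is one with a separable annihilating polynomial. -/
lemma exists_large_sep {N : ℕ} (A : Matrix (Fin N) (Fin N) ℂ) (R : ℝ) :
    ∃ s : ℝ, R < s ∧ ((Matrix.diagonal fun i : Fin N => ((i : ℕ) : ℂ)) + (s : ℂ) • A).charpoly.Separable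
    := by
  classical
  set B : Matrix (Fin N) (Fin N) ℂ := Matrix.diagonal fun i : Fin N => ((i : ℕ) : ℂ) with hB
  set M : Matrix (Fin N) (Fin N) ℂ[X] := B.map C + (X : ℂ[X]) • A.map C with hM
  have hMs : ∀ s : ℂ, (evalRingHom s).mapMatrix M = B + s • A := by
    intro s
    ext a b
    simp only [hM, RingHom.mapMatrix_apply, Matrix.map_apply, Matrix.add_apply,
      Matrix.smul_apply, smul_eq_mul, coe_evalRingHom, eval_add, eval_mul, eval_C, eval_X]
  have hcp : ∀ s : ℂ, M.charpoly.map (evalRingHom s) = (B + s • A).charpoly := by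
    intro s
    rw [← Matrix.charpoly_map]
    congr 1
    exact hMs s
  have hres : ∀ s : ℂ, (resultant M.charpoly (derivative M.charpoly) N (N - 1)).eval s =
      resultant (B + s • A).charpoly (derivative (B + s • A).charpoly) N (N - 1) := by
    intro s
    rw [← coe_evalRingHom, ← resultant_map_map, ← derivative_map, hcp]
  have hdeg : ∀ s : ℂ, (B + s • A).charpoly.natDegree = N := by
    intro s
    rw [Matrix.charpoly_natDegree_eq_dim, Fintype.card_fin]
  have hdegd : ∀ s : ℂ, (derivative (B + s • A).charpoly).natDegree = N - 1 := by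
    intro s
    rw [natDegree_derivative, hdeg]
  have hiff : ∀ s : ℂ, (resultant M.charpoly (derivative M.charpoly) N (N - 1)).eval s ≠ 0 ↔
      (B + s • A).charpoly.Separable := by
    intro s
    rw [hres]
    have h1 := isUnit_resultant_iff_isCoprime (f := (B + s • A).charpoly)
      (g := derivative (B + s • A).charpoly) (Matrix.charpoly_monic _)
    rw [hdeg, hdegd, isUnit_iff_ne_zero] at h1
    exact h1
  have h0 : (B + (0 : ℂ) • A).charpoly.Separable := by
    rw [zero_smul, add_zero, hB, Matrix.charpoly_diagonal]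
    rw [separable_prod_X_sub_C_iff]
    intro i j hij
    have : ((i : ℕ) : ℂ) = ((j : ℕ) : ℂ) := hij
    exact Fin.ext (by exact_mod_cast this)
  have hne : resultant M.charpoly (derivative M.charpoly) N (N - 1) ≠ 0 := by
    intro h
    have := (hiff 0).2 h0
    rw [h, eval_zero] at this
    exact this rfl
  by_contra hcon
  push Not at hcon
  apply hne
  apply Polynomial.eq_zero_of_infinite_isRoot
  refine Set.infinite_of_injective_forall_mem (f := fun n : ℕ => ((R + 1 + n : ℝ) : ℂ)) ?_ ?_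
  · intro a b hab
    have h1 : (R + 1 + a : ℝ) = R + 1 + b := Complex.ofReal_injective hab
    have h2 : (a : ℝ) = b := by linarith
    exact_mod_cast h2
  · intro n
    have h1 := hcon (R + 1 + n) (by
      have : (0 : ℝ) ≤ n := Nat.cast_nonneg n
      linarith)
    by_contra h2
    exact h1 ((hiff _).1 h2)

end sep

variable {E : Type*} [NormedAddCommGroup E] [NormedSpace ℂ E]

/-- The functional `S ↦ y (S x)` has norm at most `ρ` on the commutant of `T`. -/
def HC (T : E →L[ℂ] E) (x : E) (y : StrongDual ℂ E) (ρ : ℝ) : Prop :=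
  ∀ S : E →L[ℂ] E, S * T = T * S → ‖S‖ ≤ 1 → ‖y (S x)‖ ≤ ρ

lemma HC.mono {T : E →L[ℂ] E} {x : E} {y : StrongDual ℂ E} {ρ ρ' : ℝ} (h : HC T x y ρ)
    (hr : ρ ≤ ρ') : HC T x y ρ' := fun S hS hn => (h S hS hn).trans hr

lemma norm_pair_le {S : E →L[ℂ] E} (hS : ‖S‖ ≤ 1) (x : E) (y : StrongDual ℂ E) :
    ‖y (S x)‖ ≤ ‖y‖ * ‖x‖ :=
  (y.le_opNorm _).trans (mul_le_mul_of_nonneg_left
    ((S.le_opNorm _).trans (mul_le_of_le_one_left (norm_nonneg _) hS)) (norm_nonneg _))

lemma HC.top (T : E →L[ℂ] E) (x : E) (y : StrongDual ℂ E) : HC T x y (‖y‖ * ‖x‖) :=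
  fun _ _ hn => norm_pair_le hn x y

lemma pair_diff {S : E →L[ℂ] E} (hS : ‖S‖ ≤ 1) (x x' : E) (y y' : StrongDual ℂ E) :
    ‖y' (S x') - y (S x)‖ ≤ ‖y' - y‖ * ‖x'‖ + ‖y‖ * ‖x' - x‖ := by
  have e : y' (S x') - y (S x) = (y' - y) (S x') + y (S (x' - x)) := by
    rw [_root_.sub_apply, map_sub, map_sub]; ring
  rw [e]
  exact (norm_add_le _ _).trans (add_le_add (norm_pair_le hS _ _) (norm_pair_le hS _ _))

lemma HC.lip {T : E →L[ℂ] E} {x x' : E} {y y' : StrongDual ℂ E} {ρ : ℝ} (h : HC T x y ρ) :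
    HC T x' y' (ρ + (‖y' - y‖ * ‖x'‖ + ‖y‖ * ‖x' - x‖)) := by
  intro S hS hn
  have e : y' (S x') = y (S x) + (y' (S x') - y (S x)) := by ring
  rw [e]
  exact (norm_add_le _ _).trans (add_le_add (h S hS hn) (pair_diff hn _ _ _ _))

/-- The set of the operators where the functional has norm at most `ρ`. -/
def HS {W : Type*} (Φ : W → E →L[ℂ] E) (x : E) (y : StrongDual ℂ E) (ρ : ℝ) : Set W :=
  {w | HC (Φ w) x y ρ}

/-- Choice of a small number. -/
lemma exists_small {a b : ℝ} (ha : 0 ≤ a) (hb : 0 < b) : ∃ t > 0, t * a ≤ b ∧ t ≤ b :=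
  ⟨b / (a + 1), by positivity, by
    rw [div_mul_eq_mul_div, div_le_iff₀ (by positivity)]
    nlinarith, by
    rw [div_le_iff₀ (by positivity)]
    nlinarith⟩

section

variable {W : Type*} [TopologicalSpace W]

/-- Pointwise convergence on a dense sequence, along any filter, for contractions. -/
lemma tendsto_dense {ι : Type*} {l : Filter ι} (T : ι → E →L[ℂ] E) (T0 : E →L[ℂ] E)
    (hT : ∀ i, ‖T i‖ ≤ 1) (hT0 : ‖T0‖ ≤ 1) (d : ℕ → E) (hd : DenseRange d)
    (h : ∀ k, Tendsto (fun i => T i (d k)) l (𝓝 (T0 (d k)))) (x : E) :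
    Tendsto (fun i => T i x) l (𝓝 (T0 x)) := by
  rw [Metric.tendsto_nhds]
  intro ε hε
  obtain ⟨k, hk⟩ := hd.exists_dist_lt x (show (0 : ℝ) < ε / 3 by positivity)
  rw [dist_eq_norm] at hk
  filter_upwards [(Metric.tendsto_nhds.1 (h k)) (ε / 3) (by positivity)] with i hi
  rw [dist_eq_norm] at hi ⊢
  have e : T i x - T0 x = T i (x - d k) + (T i (d k) - T0 (d k)) - T0 (x - d k) := by
    rw [map_sub, map_sub]; abel
  rw [e]
  have a1 := norm_sub_le (T i (x - d k) + (T i (d k) - T0 (d k))) (T0 (x - d k))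
  have a2 := norm_add_le (T i (x - d k)) (T i (d k) - T0 (d k))
  have a3 : ‖T i (x - d k)‖ ≤ ‖x - d k‖ :=
    ((T i).le_opNorm _).trans (mul_le_of_le_one_left (norm_nonneg _) (hT i))
  have a4 : ‖T0 (x - d k)‖ ≤ ‖x - d k‖ :=
    (T0.le_opNorm _).trans (mul_le_of_le_one_left (norm_nonneg _) hT0)
  linarith

lemma tendsto_dense_comp {ι : Type*} {l : Filter ι} (T : ι → E →L[ℂ] E) (T0 : E →L[ℂ] E)
    (hT : ∀ i, ‖T i‖ ≤ 1) (hT0 : ‖T0‖ ≤ 1) (d : ℕ → StrongDual ℂ E) (hd : DenseRange d)
    (h : ∀ k, Tendsto (fun i => (d k).comp (T i)) l (𝓝 ((d k).comp T0))) (y : StrongDual ℂ E) :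
    Tendsto (fun i => y.comp (T i)) l (𝓝 (y.comp T0)) := by
  rw [Metric.tendsto_nhds]
  intro ε hε
  obtain ⟨k, hk⟩ := hd.exists_dist_lt y (show (0 : ℝ) < ε / 3 by positivity)
  rw [dist_eq_norm] at hk
  filter_upwards [(Metric.tendsto_nhds.1 (h k)) (ε / 3) (by positivity)] with i hi
  rw [dist_eq_norm] at hi ⊢
  have e : y.comp (T i) - y.comp T0 = (y - d k).comp (T i) + ((d k).comp (T i) - (d k).comp T0) -
      (y - d k).comp T0 := by
    rw [ContinuousLinearMap.sub_comp, ContinuousLinearMap.sub_comp]; abel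
  rw [e]
  have a1 := norm_sub_le ((y - d k).comp (T i) + ((d k).comp (T i) - (d k).comp T0))
    ((y - d k).comp T0)
  have a2 := norm_add_le ((y - d k).comp (T i)) ((d k).comp (T i) - (d k).comp T0)
  have a3 : ‖(y - d k).comp (T i)‖ ≤ ‖y - d k‖ :=
    ((y - d k).opNorm_comp_le (T i)).trans (mul_le_of_le_one_right (norm_nonneg _) (hT i))
  have a4 : ‖(y - d k).comp T0‖ ≤ ‖y - d k‖ :=
    ((y - d k).opNorm_comp_le T0).trans (mul_le_of_le_one_right (norm_nonneg _) hT0)
  linarith

/-- Existence of limits of contractions which converge on a dense sequence. -/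
lemma exists_limit [CompleteSpace E] (T : ℕ → E →L[ℂ] E) (hT : ∀ i, ‖T i‖ ≤ 1) (d : ℕ → E)
    (hd : DenseRange d) (v : ℕ → E) (h : ∀ k, Tendsto (fun i => T i (d k)) atTop (𝓝 (v k))) :
    ∃ T0 : E →L[ℂ] E, ‖T0‖ ≤ 1 ∧ ∀ x, Tendsto (fun i => T i x) atTop (𝓝 (T0 x)) := by
  have hC : ∀ x, CauchySeq fun i => T i x := by
    intro x
    rw [Metric.cauchySeq_iff]
    intro ε hε
    obtain ⟨k, hk⟩ := hd.exists_dist_lt x (show (0 : ℝ) < ε / 3 by positivity)
    rw [dist_eq_norm] at hk
    obtain ⟨N, hN⟩ := (Metric.cauchySeq_iff.1 (h k).cauchySeq) (ε / 3) (by positivity)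
    refine ⟨N, fun m hm n hn => ?_⟩
    have h1 := hN m hm n hn
    rw [dist_eq_norm] at h1 ⊢
    have e : T m x - T n x = T m (x - d k) + (T m (d k) - T n (d k)) - T n (x - d k) := by
      rw [map_sub, map_sub]; abel
    rw [e]
    have a1 := norm_sub_le (T m (x - d k) + (T m (d k) - T n (d k))) (T n (x - d k))
    have a2 := norm_add_le (T m (x - d k)) (T m (d k) - T n (d k))
    have a3 : ‖T m (x - d k)‖ ≤ ‖x - d k‖ :=
      ((T m).le_opNorm _).trans (mul_le_of_le_one_left (norm_nonneg _) (hT m))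
    have a4 : ‖T n (x - d k)‖ ≤ ‖x - d k‖ :=
      ((T n).le_opNorm _).trans (mul_le_of_le_one_left (norm_nonneg _) (hT n))
    linarith
  choose F hF using fun x => cauchySeq_tendsto_of_complete (hC x)
  have hF' : Tendsto (fun i x => T i x) atTop (𝓝 F) := tendsto_pi_nhds.2 hF
  refine ⟨continuousLinearMapOfTendsto T hF', ?_, fun x => ?_⟩
  · refine ContinuousLinearMap.opNorm_le_bound _ zero_le_one fun x => ?_
    have h1 : Tendsto (fun i => ‖T i x‖) atTop (𝓝 ‖F x‖) := (hF x).norm
    have h2 : ‖F x‖ ≤ 1 * ‖x‖ := le_of_tendsto h1 (Eventually.of_forall fun i =>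
      ((T i).le_opNorm _).trans (mul_le_mul_of_nonneg_right (hT i) (norm_nonneg _)))
    exact h2
  · exact hF x

theorem cm_abs [CompleteSpace E] [SeparableSpace E] (Φ : W → E →L[ℂ] E)
    (hind : IsInducing (fun (w : W) (x : E) => Φ w x)) (hinj : Function.Injective Φ)
    (hn : ∀ w, ‖Φ w‖ ≤ 1)
    (hcl : ∀ (w : ℕ → W) (T0 : E →L[ℂ] E), (∀ x, Tendsto (fun m => Φ (w m) x) atTop (𝓝 (T0 x))) →
      ∃ w0, Φ w0 = T0) : IsCompletelyMetrizableSpace W := by
  have hE : Nonempty E := ⟨0⟩
  set d : ℕ → E := denseSeq E with hd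
  have hdd : DenseRange d := denseRange_denseSeq E
  set Ψ : W → ℕ → E := fun w k => Φ w (d k) with hΨ
  have hcx : ∀ x, Continuous fun w => Φ w x := fun x =>
    (continuous_apply x).comp hind.continuous
  have hΨc : Continuous Ψ := continuous_pi fun k => hcx (d k)
  have hΨi : IsInducing Ψ := by
    rw [isInducing_iff_nhds]
    intro w0
    apply le_antisymm
    · exact (hΨc.tendsto w0).le_comap
    · rw [hind.nhds_eq_comap w0]
      rw [← tendsto_iff_comap]
      rw [tendsto_pi_nhds]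
      intro x
      apply tendsto_dense (fun w => Φ w) (Φ w0) hn (hn w0) d hdd
      intro k
      have h1 : Tendsto Ψ (comap Ψ (𝓝 (Ψ w0))) (𝓝 (Ψ w0)) := tendsto_comap
      exact (tendsto_pi_nhds.1 h1) k
  have hΨinj : Function.Injective Ψ := by
    intro w w' h
    apply hinj
    have : (fun x => Φ w x) = fun x => Φ w' x := by
      apply hdd.equalizer (Φ w).continuous (Φ w').continuous
      exact h
    ext x
    exact congrFun this x
  have hcr : IsClosed (Set.range Ψ) := by
    rw [← isSeqClosed_iff_isClosed]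
    intro s v hs hv
    choose w hw using hs
    have h1 : ∀ k, Tendsto (fun m => Φ (w m) (d k)) atTop (𝓝 (v k)) := by
      intro k
      have := (tendsto_pi_nhds.1 hv) k
      refine this.congr fun m => ?_
      rw [← hw m]
    obtain ⟨T0, _, hT0⟩ := exists_limit (fun m => Φ (w m)) (fun m => hn _) d hdd v h1
    obtain ⟨w0, hw0⟩ := hcl w T0 hT0
    refine ⟨w0, ?_⟩
    funext k
    rw [hΨ]
    beta_reduce
    rw [hw0]
    exact tendsto_nhds_unique (hT0 (d k)) (h1 k)
  exact (IsClosedEmbedding.mk ⟨hΨi, hΨinj⟩ hcr).IsCompletelyMetrizableSpace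

theorem cm_abs_star [CompleteSpace E] [SeparableSpace E] [SeparableSpace (StrongDual ℂ E)]
    (Φ : W → E →L[ℂ] E)
    (hind : IsInducing (fun (w : W) => ((fun x : E => Φ w x),
      (fun y : StrongDual ℂ E => y.comp (Φ w))))) (hinj : Function.Injective Φ)
    (hn : ∀ w, ‖Φ w‖ ≤ 1)
    (hcl : ∀ (w : ℕ → W) (T0 : E →L[ℂ] E), (∀ x, Tendsto (fun m => Φ (w m) x) atTop (𝓝 (T0 x))) →
      ∃ w0, Φ w0 = T0) : IsCompletelyMetrizableSpace W := by
  have hE : Nonempty E := ⟨0⟩
  have hE' : Nonempty (StrongDual ℂ E) := ⟨0⟩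
  set d : ℕ → E := denseSeq E with hd
  have hdd : DenseRange d := denseRange_denseSeq E
  set d' : ℕ → StrongDual ℂ E := denseSeq (StrongDual ℂ E) with hd'
  have hdd' : DenseRange d' := denseRange_denseSeq _
  set Ψ : W → (ℕ → E) × (ℕ → StrongDual ℂ E) :=
    fun w => (fun k => Φ w (d k), fun k => (d' k).comp (Φ w)) with hΨ
  have hcx : ∀ x, Continuous fun w => Φ w x := fun x =>
    (continuous_apply x).comp (continuous_fst.comp hind.continuous)
  have hcy : ∀ y : StrongDual ℂ E, Continuous fun w => y.comp (Φ w) := fun y =>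
    (continuous_apply y).comp (continuous_snd.comp hind.continuous)
  have hΨc : Continuous Ψ :=
    (continuous_pi fun k => hcx (d k)).prodMk (continuous_pi fun k => hcy (d' k))
  have hΨi : IsInducing Ψ := by
    rw [isInducing_iff_nhds]
    intro w0
    apply le_antisymm
    · exact (hΨc.tendsto w0).le_comap
    · rw [hind.nhds_eq_comap w0]
      rw [← tendsto_iff_comap]
      have h1 : Tendsto Ψ (comap Ψ (𝓝 (Ψ w0))) (𝓝 (Ψ w0)) := tendsto_comap
      rw [Prod.tendsto_iff] at h1
      rw [Prod.tendsto_iff]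
      constructor
      · rw [tendsto_pi_nhds]
        intro x
        apply tendsto_dense (fun w => Φ w) (Φ w0) hn (hn w0) d hdd
        intro k
        exact (tendsto_pi_nhds.1 h1.1) k
      · rw [tendsto_pi_nhds]
        intro y
        apply tendsto_dense_comp (fun w => Φ w) (Φ w0) hn (hn w0) d' hdd'
        intro k
        exact (tendsto_pi_nhds.1 h1.2) k
  have hΨinj : Function.Injective Ψ := by
    intro w w' h
    apply hinj
    have : (fun x => Φ w x) = fun x => Φ w' x := by
      apply hdd.equalizer (Φ w).continuous (Φ w').continuous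
      exact congrArg Prod.fst h
    ext x
    exact congrFun this x
  have hcr : IsClosed (Set.range Ψ) := by
    rw [← isSeqClosed_iff_isClosed]
    intro s v hs hv
    choose w hw using hs
    have hv1 : Tendsto (fun m => (Ψ (w m)).1) atTop (𝓝 v.1) := by
      have := (Prod.tendsto_iff _ _).1 hv
      refine this.1.congr fun m => ?_
      rw [hw m]
    have hv2 : Tendsto (fun m => (Ψ (w m)).2) atTop (𝓝 v.2) := by
      have := (Prod.tendsto_iff _ _).1 hv
      refine this.2.congr fun m => ?_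
      rw [hw m]
    have h1 : ∀ k, Tendsto (fun m => Φ (w m) (d k)) atTop (𝓝 (v.1 k)) := fun k =>
      (tendsto_pi_nhds.1 hv1) k
    have h2 : ∀ k, Tendsto (fun m => (d' k).comp (Φ (w m))) atTop (𝓝 (v.2 k)) := fun k =>
      (tendsto_pi_nhds.1 hv2) k
    obtain ⟨T0, _, hT0⟩ := exists_limit (fun m => Φ (w m)) (fun m => hn _) d hdd v.1 h1
    obtain ⟨w0, hw0⟩ := hcl w T0 hT0
    refine ⟨w0, ?_⟩
    rw [hΨ]
    beta_reduce
    rw [hw0]
    refine Prod.ext ?_ ?_
    · funext k
      exact tendsto_nhds_unique (hT0 (d k)) (h1 k)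
    · funext k
      -- the norm limit and the pointwise limit agree
      ext x
      have a1 : Tendsto (fun m => ((d' k).comp (Φ (w m))) x) atTop (𝓝 (v.2 k x)) :=
        ((ContinuousLinearMap.apply ℂ ℂ x).continuous.tendsto _).comp (h2 k)
      have a2 : Tendsto (fun m => ((d' k).comp (Φ (w m))) x) atTop (𝓝 (((d' k).comp T0) x)) :=
        ((d' k).continuous.tendsto _).comp (hT0 x)
      exact tendsto_nhds_unique a2 a1
  exact (IsClosedEmbedding.mk ⟨hΨi, hΨinj⟩ hcr).IsCompletelyMetrizableSpace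

end

section nhd

lemma fin_min {α : Type*} (I : Finset α) (g : α → ℝ) (hg : ∀ a ∈ I, 0 < g a) :
    ∃ ε > 0, ∀ a ∈ I, ε ≤ g a := by
  classical
  induction I using Finset.induction_on with
  | empty => exact ⟨1, one_pos, fun a ha => absurd ha (notMem_empty a)⟩
  | insert b s _ ih =>
    obtain ⟨ε, hε, h⟩ := ih fun a ha => hg a (mem_insert_of_mem ha)
    refine ⟨min ε (g b), lt_min hε (hg b (mem_insert_self b s)), fun a ha => ?_⟩
    rcases mem_insert.1 ha with rfl | ha
    · exact min_le_right _ _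
    · exact (min_le_left _ _).trans (h a ha)

lemma pi_nhd {α F : Type*} [SeminormedAddCommGroup F] {U : Set (α → F)} (hU : IsOpen U) {f : α → F}
    (hf : f ∈ U) : ∃ (I : Finset α) (ε : ℝ), 0 < ε ∧ ∀ g : α → F, (∀ a ∈ I, ‖g a - f a‖ < ε) →
      g ∈ U := by
  obtain ⟨I, u, hu, hIu⟩ := isOpen_pi_iff.1 hU f hf
  have h1 : ∀ a : α, ∃ r > 0, a ∈ I → Metric.ball (f a) r ⊆ u a := by
    intro a
    by_cases ha : a ∈ I
    · obtain ⟨r, hr, hr'⟩ := Metric.isOpen_iff.1 (hu a ha).1 (f a) (hu a ha).2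
      exact ⟨r, hr, fun _ => hr'⟩
    · exact ⟨1, one_pos, fun h => absurd h ha⟩
  choose r hr hr' using h1
  obtain ⟨ε, hε, hεr⟩ := fin_min I r fun a _ => hr a
  refine ⟨I, ε, hε, fun g hg => hIu ?_⟩
  intro a ha
  apply hr' a ha
  rw [Metric.mem_ball, dist_eq_norm]
  exact (hg a ha).trans_le (hεr a ha)

end nhd

/-- The vectors which are not cyclic for the commutant are dense. -/
def GoodH (T : E →L[ℂ] E) : Prop :=
  ∀ (x₀ : E) (ε : ℝ), 0 < ε → ∃ (x : E) (y : StrongDual ℂ E), x ≠ 0 ∧ ‖x - x₀‖ < ε ∧ y ≠ 0 ∧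
    ∀ S : E →L[ℂ] E, S * T = T * S → y (S x) = 0

lemma exists_rho'' {p q : ℝ} (hpq : p.HolderConjugate q) {δ : ℝ} (hδ : 0 < δ) :
    ∃ a : ℕ, 1 / ((a : ℝ) + 1) ≤ δ ∧ (2 * (1 / ((a : ℝ) + 1))) ^ (1 / p) ≤ δ ∧
      (2 * (1 / ((a : ℝ) + 1))) ^ (1 / q) ≤ δ := by
  have hp := hpq.pos
  have hq := hpq.symm.pos
  set ρ : ℝ := min δ (min (δ ^ p / 2) (δ ^ q / 2)) with hρ
  have hρ0 : 0 < ρ := lt_min hδ (lt_min (by positivity) (by positivity))
  obtain ⟨a, ha⟩ := exists_nat_one_div_lt hρ0
  have h1 : 1 / ((a : ℝ) + 1) ≤ δ := ha.le.trans (min_le_left _ _)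
  have h2 : 1 / ((a : ℝ) + 1) ≤ δ ^ p / 2 :=
    ha.le.trans ((min_le_right _ _).trans (min_le_left _ _))
  have h3 : 1 / ((a : ℝ) + 1) ≤ δ ^ q / 2 :=
    ha.le.trans ((min_le_right _ _).trans (min_le_right _ _))
  refine ⟨a, h1, ?_, ?_⟩
  · have h4 := Real.rpow_le_rpow (by positivity) (show 2 * (1 / ((a : ℝ) + 1)) ≤ δ ^ p by linarith)
      (show 0 ≤ 1 / p by positivity)
    rwa [← Real.rpow_mul hδ.le, mul_one_div_cancel hp.ne', Real.rpow_one] at h4
  · have h4 := Real.rpow_le_rpow (by positivity) (show 2 * (1 / ((a : ℝ) + 1)) ≤ δ ^ q by linarith)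
      (show 0 ≤ 1 / q by positivity)
    rwa [← Real.rpow_mul hδ.le, mul_one_div_cancel hq.ne', Real.rpow_one] at h4

/-- Arbitrarily close to every vector there is a vector which lies in a nontrivial closed
hyperinvariant subspace of `T`. -/
def DenselyHyperinvariant (T : E →L[ℂ] E) : Prop :=
  ∀ (x₀ : E) (ε : ℝ), 0 < ε → ∃ M : Submodule ℂ E, IsClosed (M : Set E) ∧ M ≠ ⊥ ∧ M ≠ ⊤ ∧
    (∀ S : E →L[ℂ] E, S * T = T * S → ∀ v ∈ M, S v ∈ M) ∧ ∃ x ∈ M, ‖x - x₀‖ < ε

lemma hyp_of_goodH {T : E →L[ℂ] E} (h : GoodH T) : DenselyHyperinvariant T := by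
  intro x₀ ε hε
  obtain ⟨x, y, hx, hxx, hy, hxy⟩ := h x₀ ε hε
  -- the orbit of the commutant
  set M0 : Submodule ℂ E :=
    { carrier := {z | ∃ S : E →L[ℂ] E, S * T = T * S ∧ z = S x}
      add_mem' := by
        rintro _ _ ⟨S, hS, rfl⟩ ⟨S', hS', rfl⟩
        exact ⟨S + S', by rw [add_mul, mul_add, hS, hS'], rfl⟩
      zero_mem' := ⟨0, by simp, rfl⟩
      smul_mem' := by
        rintro c _ ⟨S, hS, rfl⟩
        exact ⟨c • S, by rw [smul_mul_assoc, mul_smul_comm, hS], rfl⟩ } with hM0
  have hSM : ∀ S : E →L[ℂ] E, S * T = T * S → ∀ v ∈ M0, S v ∈ M0 := by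
    rintro S hS _ ⟨S', hS', rfl⟩
    refine ⟨S * S', ?_, rfl⟩
    rw [mul_assoc, hS', ← mul_assoc, hS, mul_assoc]
  have hxM : x ∈ M0.topologicalClosure := by
    apply M0.le_topologicalClosure
    exact ⟨1, by rw [one_mul, mul_one], rfl⟩
  refine ⟨M0.topologicalClosure, M0.isClosed_topologicalClosure, ?_, ?_, ?_, x, hxM, hxx⟩
  · intro hb
    rw [hb, Submodule.mem_bot] at hxM
    exact hx hxM
  · intro ht
    apply hy
    ext v
    have hv : v ∈ M0.topologicalClosure := by rw [ht]; trivial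
    have h2 : (M0.topologicalClosure : Set E) ⊆ {v | y v = 0} := by
      have hcl : IsClosed {v | y v = 0} := isClosed_eq y.continuous continuous_const
      apply closure_minimal _ hcl
      rintro _ ⟨S, hS, rfl⟩
      exact hxy S hS
    simpa using h2 hv
  · intro S hS v hv
    have hmaps : Set.MapsTo S (closure (M0 : Set E)) (closure (M0 : Set E)) :=
      Set.MapsTo.closure (fun v hv => hSM S hS v hv) S.continuous
    exact hmaps hv

end Pool.Agent.K4H63.TY
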