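import Pool.Agent.K4H63.TY.Nuc

/-!
# Copies of a block and the amplified operator
-/

set_option autoImplicit false
open Filter Topology Finset Polynomial

namespace Pool.Agent.K4H63.TY

variable {E : Type*} [NormedAddCommGroup E] [NormedSpace ℂ E]

/-- `ι a`, `π a`, `a ≤ n`, are copies of the projection `P` in `ℓ_p`-position. -/
structure Copies (p : ℝ) (n : ℕ) (P : E →L[ℂ] E) (ι π : ℕ → E →L[ℂ] E) : Prop where
  ι0 : ι 0 = P
  π0 : π 0 = P
  PP : P * P = P
  πι : ∀ a ≤ n, ∀ b ≤ n, π a * ι b = if a = b then P else 0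
  Pπ : ∀ a ≤ n, P * π a = π a
  ιP : ∀ a ≤ n, ι a * P = ι a
  nι : ∀ z : ℕ → E, ‖∑ a ∈ range (n + 1), ι a (z a)‖ ^ p ≤ ∑ a ∈ range (n + 1), ‖z a‖ ^ p
  nπ : ∀ x, ∑ a ∈ range (n + 1), ‖π a x‖ ^ p ≤ ‖x‖ ^ p

/-- The operator `B ⊗ 1 + 1 ⊗ J`, `J` the weighted shift. -/
noncomputable def amp (n : ℕ) (B : E →L[ℂ] E) (w : ℕ → ℂ) (ι π : ℕ → E →L[ℂ] E) : E →L[ℂ] E :=
  ∑ a ∈ range (n + 1), ι a * B * π a + ∑ a ∈ range n, w a • (ι (a + 1) * π a)

section copies

variable {p : ℝ} {n : ℕ} {P B : E →L[ℂ] E} {ι π : ℕ → E →L[ℂ] E}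

lemma Copies.norm_ι (h : Copies p n P ι π) (hp : 0 < p) {a : ℕ} (ha : a ≤ n) : ‖ι a‖ ≤ 1 := by
  refine ContinuousLinearMap.opNorm_le_bound _ zero_le_one fun x => ?_
  rw [one_mul]
  have h1 := h.nι (fun b => if b = a then x else 0)
  have e1 : ∑ b ∈ range (n + 1), ι b (if b = a then x else 0) = ι a x := by
    rw [sum_eq_single a]
    · rw [if_pos rfl]
    · intro b _ hb
      rw [if_neg hb, map_zero]
    · intro h'
      exact absurd (mem_range.2 (by omega)) h'
  have e2 : ∑ b ∈ range (n + 1), ‖(if b = a then x else 0 : E)‖ ^ p = ‖x‖ ^ p := by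
    rw [sum_eq_single a]
    · rw [if_pos rfl]
    · intro b _ hb
      rw [if_neg hb, norm_zero, Real.zero_rpow hp.ne']
    · intro h'
      exact absurd (mem_range.2 (by omega)) h'
  rw [e1, e2] at h1
  exact (Real.rpow_le_rpow_iff (norm_nonneg _) (norm_nonneg _) hp).1 h1

lemma Copies.norm_πx (h : Copies p n P ι π) (hp : 0 < p) {a : ℕ} (ha : a ≤ n) (x : E) :
    ‖π a x‖ ≤ ‖x‖ := by
  have h1 : ‖π a x‖ ^ p ≤ ∑ b ∈ range (n + 1), ‖π b x‖ ^ p :=
    single_le_sum (f := fun b => ‖π b x‖ ^ p) (fun b _ => Real.rpow_nonneg (norm_nonneg _) _)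
      (mem_range.2 (by omega))
  exact (Real.rpow_le_rpow_iff (norm_nonneg _) (norm_nonneg _) hp).1 (h1.trans (h.nπ x))

lemma Copies.norm_π (h : Copies p n P ι π) (hp : 0 < p) {a : ℕ} (ha : a ≤ n) : ‖π a‖ ≤ 1 := by
  refine ContinuousLinearMap.opNorm_le_bound _ zero_le_one fun x => ?_
  rw [one_mul]
  exact h.norm_πx hp ha x

lemma Copies.mono (h : Copies p n P ι π) (hp : 0 < p) {m : ℕ} (hm : m ≤ n) :
    Copies p m P ι π := by
  refine ⟨h.ι0, h.π0, h.PP, fun a ha b hb => h.πι a (ha.trans hm) b (hb.trans hm),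
    fun a ha => h.Pπ a (ha.trans hm), fun a ha => h.ιP a (ha.trans hm), fun z => ?_, fun x => ?_⟩
  · have h1 := h.nι (fun a => if a ≤ m then z a else 0)
    have hs : range (m + 1) ⊆ range (n + 1) := range_subset_range.2 (by omega)
    have e1 : ∑ a ∈ range (n + 1), ι a (if a ≤ m then z a else 0) =
        ∑ a ∈ range (m + 1), ι a (z a) := by
      rw [← sum_subset hs]
      · refine sum_congr rfl fun a ha => ?_
        rw [if_pos (by have := mem_range.1 ha; omega)]
      · intro a _ ha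
        rw [if_neg (by intro h'; exact ha (mem_range.2 (by omega))), map_zero]
    have e2 : ∑ a ∈ range (n + 1), ‖(if a ≤ m then z a else 0 : E)‖ ^ p =
        ∑ a ∈ range (m + 1), ‖z a‖ ^ p := by
      rw [← sum_subset hs]
      · refine sum_congr rfl fun a ha => ?_
        rw [if_pos (by have := mem_range.1 ha; omega)]
      · intro a _ ha
        rw [if_neg (by intro h'; exact ha (mem_range.2 (by omega))), norm_zero,
          Real.zero_rpow hp.ne']
    rw [e1, e2] at h1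
    exact h1
  · refine (sum_le_sum_of_subset_of_nonneg (range_subset_range.2 (by omega)) fun a _ _ =>
      Real.rpow_nonneg (norm_nonneg _) _).trans (h.nπ x)

/-- The rows of the amplified operator. -/
lemma Copies.π_amp (h : Copies p n P ι π) (hB : P * B = B) (w : ℕ → ℂ) {a : ℕ} (ha : a ≤ n) :
    π a * amp n B w ι π = B * π a + (if 0 < a then w (a - 1) • π (a - 1) else 0) := by
  unfold amp
  rw [mul_add, mul_sum, mul_sum]
  congr 1
  · rw [sum_eq_single a]
    · rw [← mul_assoc, ← mul_assoc, h.πι a ha a ha, if_pos rfl, hB]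
    · intro b hb hba
      rw [← mul_assoc, ← mul_assoc, h.πι a ha b (by have := mem_range.1 hb; omega),
        if_neg (Ne.symm hba), zero_mul, zero_mul]
    · intro h'
      exact absurd (mem_range.2 (by omega)) h'
  · split_ifs with h0
    · rw [sum_eq_single (a - 1)]
      · rw [mul_smul_comm, ← mul_assoc, h.πι a ha (a - 1 + 1) (by omega),
          if_pos (by omega), h.Pπ (a - 1) (by omega)]
      · intro b hb hba
        rw [mul_smul_comm, ← mul_assoc, h.πι a ha (b + 1) (by have := mem_range.1 hb; omega),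
          if_neg (by omega), zero_mul, smul_zero]
      · intro h'
        exact absurd (mem_range.2 (by omega)) h'
    · refine sum_eq_zero fun b hb => ?_
      rw [mul_smul_comm, ← mul_assoc, h.πι a ha (b + 1) (by have := mem_range.1 hb; omega),
        if_neg (by omega), zero_mul, smul_zero]

/-- The columns of the amplified operator. -/
lemma Copies.amp_ι (h : Copies p n P ι π) (hB : B * P = B) (w : ℕ → ℂ) {b : ℕ} (hb : b ≤ n) :
    amp n B w ι π * ι b = ι b * B + (if b < n then w b • ι (b + 1) else 0) := by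
  unfold amp
  rw [add_mul, sum_mul, sum_mul]
  congr 1
  · rw [sum_eq_single b]
    · rw [mul_assoc, mul_assoc, h.πι b hb b hb, if_pos rfl, hB]
    · intro a ha hab
      rw [mul_assoc, h.πι a (by have := mem_range.1 ha; omega) b hb, if_neg hab, mul_zero]
    · intro h'
      exact absurd (mem_range.2 (by omega)) h'
  · split_ifs with h0
    · rw [sum_eq_single b]
      · rw [smul_mul_assoc, mul_assoc, h.πι b hb b hb, if_pos rfl, h.ιP (b + 1) (by omega)]
      · intro a ha hab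
        rw [smul_mul_assoc, mul_assoc, h.πι a (by have := mem_range.1 ha; omega) b hb,
          if_neg hab, mul_zero, smul_zero]
      · intro h'
        exact absurd (mem_range.2 (by omega)) h'
    · refine sum_eq_zero fun a ha => ?_
      have := mem_range.1 ha
      rw [smul_mul_assoc, mul_assoc, h.πι a (by omega) b hb, if_neg (by omega), mul_zero,
        smul_zero]

/-- The relation of the blocks of an operator of the commutant. -/
lemma Copies.rel (h : Copies p n P ι π) (hB1 : P * B = B) (hB2 : B * P = B) (w : ℕ → ℂ)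
    {S : E →L[ℂ] E} (hS : S * amp n B w ι π = amp n B w ι π * S) :
    ∀ a ≤ n, ∀ b ≤ n, B * (π a * S * ι b) - (π a * S * ι b) * B =
      (if b < n then w b • (π a * S * ι (b + 1)) else 0) -
        (if 0 < a then w (a - 1) • (π (a - 1) * S * ι b) else 0) := by
  intro a ha b hb
  have h1 : π a * amp n B w ι π * S * ι b = π a * S * (amp n B w ι π * ι b) := by
    rw [mul_assoc (π a), ← hS]
    simp only [mul_assoc]
  rw [h.π_amp hB1 w ha, h.amp_ι hB2 w hb] at h1
  rw [add_mul, add_mul, mul_add] at h1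
  have e1 : (if 0 < a then w (a - 1) • π (a - 1) else 0) * S * ι b =
      (if 0 < a then w (a - 1) • (π (a - 1) * S * ι b) else 0) := by
    split_ifs
    · rw [smul_mul_assoc, smul_mul_assoc]
    · rw [zero_mul, zero_mul]
  have e2 : π a * S * (if b < n then w b • ι (b + 1) else 0) =
      (if b < n then w b • (π a * S * ι (b + 1)) else 0) := by
    split_ifs
    · rw [mul_smul_comm]
    · rw [mul_zero]
  rw [e1, e2] at h1
  have e3 : B * π a * S * ι b = B * (π a * S * ι b) := by simp only [mul_assoc]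
  have e4 : π a * S * (ι b * B) = π a * S * ι b * B := by simp only [mul_assoc]
  rw [e3, e4] at h1
  rw [sub_eq_sub_iff_add_eq_add, h1]
  abel

end copies

section pairing

variable {p : ℝ} {m : ℕ} {P B : E →L[ℂ] E} {ι π : ℕ → E →L[ℂ] E}

/-- **The pairing on the amplified block.** -/
theorem Copies.pairing (h : Copies p (m + 1) P ι π) (hp : 0 < p) (hB1 : P * B = B)
    (hB2 : B * P = B) {χ : ℂ[X]} (hχ : aeval B χ = 0) (hs : χ.Separable) {δ w : ℝ} (hδ : 0 < δ)
    (hw : 0 < w) (xs : ℕ → E) (ys : ℕ → StrongDual ℂ E) {ε : ℝ}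
    (hε : ∀ S : E →L[ℂ] E, S * B = B * S → ‖S‖ ≤ 1 →
      ‖∑ a ∈ range (m + 1), ys a (S (xs a))‖ ≤ ε) {S : E →L[ℂ] E}
    (hS : S * amp (m + 1) B (wt m δ w) ι π = amp (m + 1) B (wt m δ w) ι π * S) (hS1 : ‖S‖ ≤ 1) :
    ‖(∑ a ∈ range (m + 1), (ys a).comp (π a)) (S (∑ b ∈ range (m + 1), ι b (xs b)))‖ ≤
      ε + δ / w * ((∑ a ∈ range (m + 1), ‖ys a‖) * ∑ b ∈ range (m + 1), ‖xs b‖) := by
  classical
  obtain ⟨h1, h2, h3⟩ := block_toeplitz hχ hs m hδ hw (fun a b => π a * S * ι b)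
    (h.rel hB1 hB2 (wt m δ w) hS)
  beta_reduce at h1 h2 h3
  have hn : ∀ a ≤ m + 1, ∀ b ≤ m + 1, ‖π a * S * ι b‖ ≤ 1 := by
    intro a ha b hb
    calc ‖π a * S * ι b‖ ≤ ‖π a * S‖ * ‖ι b‖ := norm_mul_le _ _
      _ ≤ (‖π a‖ * ‖S‖) * ‖ι b‖ := mul_le_mul_of_nonneg_right (norm_mul_le _ _) (norm_nonneg _)
      _ ≤ (1 * 1) * 1 := by
          refine mul_le_mul (mul_le_mul (h.norm_π hp ha) hS1 (norm_nonneg _) zero_le_one)
            (h.norm_ι hp hb) (norm_nonneg _) (by norm_num)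
      _ = 1 := by norm_num
  have e1 : (∑ a ∈ range (m + 1), (ys a).comp (π a)) (S (∑ b ∈ range (m + 1), ι b (xs b))) =
      ∑ a ∈ range (m + 1), ∑ b ∈ range (m + 1), ys a ((π a * S * ι b) (xs b)) := by
    rw [_root_.sum_apply]
    refine sum_congr rfl fun a _ => ?_
    rw [ContinuousLinearMap.comp_apply, map_sum, map_sum, map_sum]
    rfl
  have e2 : ∑ a ∈ range (m + 1), ∑ b ∈ range (m + 1), ys a ((π a * S * ι b) (xs b)) =
      ∑ a ∈ range (m + 1), ys a ((π 0 * S * ι 0) (xs a)) +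
        ∑ a ∈ range (m + 1), ∑ b ∈ range (m + 1), (if a = b then 0 else
          ys a ((π a * S * ι b) (xs b))) := by
    rw [← sum_add_distrib]
    refine sum_congr rfl fun a ha => ?_
    have e3 : ∑ b ∈ range (m + 1), ys a ((π a * S * ι b) (xs b)) =
        ∑ b ∈ range (m + 1), ((if a = b then ys a ((π a * S * ι b) (xs b)) else 0) +
          (if a = b then 0 else ys a ((π a * S * ι b) (xs b)))) := by
      refine sum_congr rfl fun b _ => ?_
      split_ifs
      · rw [add_zero]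
      · rw [zero_add]
    rw [e3, sum_add_distrib, sum_ite_eq, if_pos ha]
    congr 1
    have := h2 a (by have := mem_range.1 ha; omega)
    rw [this]
  rw [e1, e2]
  refine (norm_add_le _ _).trans (add_le_add (hε _ h1.symm (hn 0 (by omega) 0 (by omega))) ?_)
  rw [sum_mul_sum, mul_sum]
  refine (norm_sum_le _ _).trans (sum_le_sum fun a ha => ?_)
  rw [mul_sum]
  refine (norm_sum_le _ _).trans (sum_le_sum fun b hb => ?_)
  have hδw : 0 ≤ δ / w := by positivity
  split_ifs with hab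
  · rw [norm_zero]; positivity
  · obtain ⟨a', ha', b', hb', c, hc, hcc⟩ := h3 a (by have := mem_range.1 ha; omega) b
      (by have := mem_range.1 hb; omega) hab
    rw [hcc, _root_.smul_apply, map_smul, norm_smul]
    refine mul_le_mul hc ?_ (norm_nonneg _) hδw
    exact norm_pair_le (hn a' ha' b' hb') _ _

end pairing

section near

variable {p : ℝ} {m : ℕ} {P B : E →L[ℂ] E} {ι π : ℕ → E →L[ℂ] E}

lemma amp_sub (h : Copies p (m + 1) P ι π) (hB1 : P * B = B) (hB2 : B * P = B) (w : ℕ → ℂ) :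
    amp (m + 1) B w ι π - B = ∑ a ∈ range (m + 1), ι (a + 1) * B * π (a + 1) +
      ∑ a ∈ range m, w (a + 1) • (ι (a + 1 + 1) * π (a + 1)) + w 0 • (ι 1 * π 0) := by
  unfold amp
  rw [sum_range_succ' (fun a => ι a * B * π a) (m + 1),
    sum_range_succ' (fun a => w a • (ι (a + 1) * π a)) m]
  have e : ι 0 * B * π 0 = B := by rw [h.ι0, h.π0, hB1, hB2]
  rw [e]
  abel

lemma near_x (h : Copies p (m + 1) P ι π) (hp : 0 < p) (hB1 : P * B = B) (hB2 : B * P = B)
    (hB : ‖B‖ ≤ 1) {w : ℕ → ℂ} (hw : ∀ a, ‖w a‖ ≤ 1) {δ ε : ℝ} (hδ : ‖w 0‖ ≤ δ) {x : E}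
    (hx : ∀ a ≤ m + 1, a ≠ 0 → ‖π a x‖ ≤ ε) :
    ‖amp (m + 1) B w ι π x - B x‖ ≤ 2 * (m + 1) * ε + δ * ‖x‖ := by
  have hε : 0 ≤ ε := (norm_nonneg _).trans (hx 1 (by omega) one_ne_zero)
  have e : amp (m + 1) B w ι π x - B x = (amp (m + 1) B w ι π - B) x := rfl
  rw [e, amp_sub h hB1 hB2]
  simp only [_root_.add_apply, _root_.sum_apply, _root_.smul_apply, mul_apply_eq_comp]
  have b1 : ‖∑ a ∈ range (m + 1), ι (a + 1) (B (π (a + 1) x))‖ ≤ (m + 1) * ε := by
    refine (norm_sum_le _ _).trans ((sum_le_sum (g := fun _ => ε) fun a ha => ?_).trans ?_)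
    · have ha' : a + 1 ≤ m + 1 := by have := mem_range.1 ha; omega
      refine ((ι (a + 1)).le_opNorm _).trans ?_
      refine (mul_le_of_le_one_left (norm_nonneg _) (h.norm_ι hp ha')).trans ?_
      refine (B.le_opNorm _).trans ((mul_le_of_le_one_left (norm_nonneg _) hB).trans ?_)
      exact hx _ ha' (by omega)
    · rw [sum_const, card_range, nsmul_eq_mul]; push_cast; exact le_rfl
  have b2 : ‖∑ a ∈ range m, w (a + 1) • ι (a + 1 + 1) (π (a + 1) x)‖ ≤ m * ε := by
    refine (norm_sum_le _ _).trans ((sum_le_sum (g := fun _ => ε) fun a ha => ?_).trans ?_)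
    · have ha' : a + 1 + 1 ≤ m + 1 := by have := mem_range.1 ha; omega
      rw [norm_smul]
      refine (mul_le_of_le_one_left (norm_nonneg _) (hw _)).trans ?_
      refine ((ι (a + 1 + 1)).le_opNorm _).trans ?_
      refine (mul_le_of_le_one_left (norm_nonneg _) (h.norm_ι hp ha')).trans ?_
      exact hx _ (by omega) (by omega)
    · rw [sum_const, card_range, nsmul_eq_mul]
  have b3 : ‖w 0 • ι 1 (π 0 x)‖ ≤ δ * ‖x‖ := by
    rw [norm_smul]
    refine mul_le_mul hδ ?_ (norm_nonneg _) ((norm_nonneg _).trans hδ)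
    refine ((ι 1).le_opNorm _).trans ?_
    refine (mul_le_of_le_one_left (norm_nonneg _) (h.norm_ι hp (by omega))).trans ?_
    exact h.norm_πx hp (by omega) x
  refine (norm_add₃_le).trans ?_
  nlinarith

lemma near_y (h : Copies p (m + 1) P ι π) (hp : 0 < p) (hB1 : P * B = B) (hB2 : B * P = B)
    (hB : ‖B‖ ≤ 1) {w : ℕ → ℂ} (hw : ∀ a, ‖w a‖ ≤ 1) {ε : ℝ} {y : StrongDual ℂ E}
    (hy : ∀ a ≤ m + 1, a ≠ 0 → ‖y.comp (ι a)‖ ≤ ε) :
    ‖y.comp (amp (m + 1) B w ι π) - y.comp B‖ ≤ 2 * (m + 1) * ε := by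
  have hε : 0 ≤ ε := (norm_nonneg _).trans (hy 1 (by omega) one_ne_zero)
  have hyz : ∀ a ≤ m + 1, a ≠ 0 → ∀ z, ‖y (ι a z)‖ ≤ ε * ‖z‖ := by
    intro a ha ha0 z
    exact ((y.comp (ι a)).le_opNorm z).trans (mul_le_mul_of_nonneg_right (hy a ha ha0)
      (norm_nonneg _))
  refine ContinuousLinearMap.opNorm_le_bound _ (by positivity) fun x => ?_
  have e : (y.comp (amp (m + 1) B w ι π) - y.comp B) x =
      y ((amp (m + 1) B w ι π - B) x) := by
    rw [_root_.sub_apply, ContinuousLinearMap.comp_apply, ContinuousLinearMap.comp_apply,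
      ← map_sub]
    rfl
  rw [e, amp_sub h hB1 hB2]
  simp only [_root_.add_apply, _root_.sum_apply, _root_.smul_apply, mul_apply_eq_comp, map_add,
    map_sum, map_smul]
  have b1 : ‖∑ a ∈ range (m + 1), y (ι (a + 1) (B (π (a + 1) x)))‖ ≤ (m + 1) * (ε * ‖x‖) := by
    refine (norm_sum_le _ _).trans ((sum_le_sum (g := fun _ => ε * ‖x‖) fun a ha => ?_).trans ?_)
    · have ha' : a + 1 ≤ m + 1 := by have := mem_range.1 ha; omega
      refine (hyz _ ha' (by omega) _).trans (mul_le_mul_of_nonneg_left ?_ hε)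
      refine (B.le_opNorm _).trans ((mul_le_of_le_one_left (norm_nonneg _) hB).trans ?_)
      exact h.norm_πx hp ha' x
    · rw [sum_const, card_range, nsmul_eq_mul]; push_cast; exact le_rfl
  have b2 : ‖∑ a ∈ range m, w (a + 1) • y (ι (a + 1 + 1) (π (a + 1) x))‖ ≤
      m * (ε * ‖x‖) := by
    refine (norm_sum_le _ _).trans ((sum_le_sum (g := fun _ => ε * ‖x‖) fun a ha => ?_).trans ?_)
    · have ha' : a + 1 + 1 ≤ m + 1 := by have := mem_range.1 ha; omega
      rw [norm_smul]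
      refine (mul_le_of_le_one_left (norm_nonneg _) (hw _)).trans ?_
      refine (hyz _ ha' (by omega) _).trans (mul_le_mul_of_nonneg_left ?_ hε)
      exact h.norm_πx hp (by omega) x
    · rw [sum_const, card_range, nsmul_eq_mul]
  have b3 : ‖w 0 • y (ι 1 (π 0 x))‖ ≤ ε * ‖x‖ := by
    rw [norm_smul]
    refine (mul_le_of_le_one_left (norm_nonneg _) (hw _)).trans ?_
    refine (hyz _ (by omega) (by omega) _).trans (mul_le_mul_of_nonneg_left ?_ hε)
    exact h.norm_πx hp (by omega) x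
  refine (norm_add₃_le).trans ?_
  have := norm_nonneg x
  nlinarith [mul_nonneg hε this]

end near

section added

variable {p q : ℝ} {m : ℕ} {P : E →L[ℂ] E} {ι π : ℕ → E →L[ℂ] E}

lemma rpow_le_of {a c p : ℝ} (ha : 0 ≤ a) (hp : 0 < p) (h : a ^ p ≤ c) : a ≤ c ^ (1 / p) := by
  have h1 := Real.rpow_le_rpow (by positivity) h (show 0 ≤ 1 / p by positivity)
  rwa [← Real.rpow_mul ha, mul_one_div_cancel hp.ne', Real.rpow_one] at h1

lemma add_x (h : Copies p (m + 1) P ι π) (hp : 0 < p) (xs : ℕ → E) {ρ : ℝ}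
    (hρ : ∑ a ∈ range m, ‖xs (a + 1)‖ ^ p ≤ ρ) :
    ‖∑ a ∈ range m, ι (a + 1) (xs (a + 1))‖ ≤ ρ ^ (1 / p) := by
  have h1 := h.nι (fun a => if a ≠ 0 ∧ a ≤ m then xs a else 0)
  have e1 : ∑ a ∈ range (m + 1 + 1), ι a (if a ≠ 0 ∧ a ≤ m then xs a else 0) =
      ∑ a ∈ range m, ι (a + 1) (xs (a + 1)) := by
    rw [sum_range_succ, sum_range_succ', if_neg (by omega), if_neg (by omega), map_zero, map_zero,
      add_zero, add_zero]
    refine sum_congr rfl fun a ha => ?_
    rw [if_pos (by have := mem_range.1 ha; omega)]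
  have e2 : ∑ a ∈ range (m + 1 + 1), ‖(if a ≠ 0 ∧ a ≤ m then xs a else 0 : E)‖ ^ p =
      ∑ a ∈ range m, ‖xs (a + 1)‖ ^ p := by
    rw [sum_range_succ, sum_range_succ', if_neg (by omega), if_neg (by omega), norm_zero,
      Real.zero_rpow hp.ne', add_zero, add_zero]
    refine sum_congr rfl fun a ha => ?_
    rw [if_pos (by have := mem_range.1 ha; omega)]
  rw [e1, e2] at h1
  exact rpow_le_of (norm_nonneg _) hp (h1.trans hρ)

lemma add_y (h : Copies p (m + 1) P ι π) (hpq : p.HolderConjugate q)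
    (ys : ℕ → StrongDual ℂ E) {ρ : ℝ} (hρ : ∑ a ∈ range m, ‖ys (a + 1)‖ ^ q ≤ ρ) :
    ‖∑ a ∈ range m, (ys (a + 1)).comp (π (a + 1))‖ ≤ ρ ^ (1 / q) := by
  have hp := hpq.pos
  have hq := hpq.symm.pos
  have hρ0 : 0 ≤ ρ := (sum_nonneg fun _ _ => Real.rpow_nonneg (norm_nonneg _) _).trans hρ
  refine ContinuousLinearMap.opNorm_le_bound _ (by positivity) fun x => ?_
  rw [_root_.sum_apply]
  have h1 : ‖∑ a ∈ range m, ((ys (a + 1)).comp (π (a + 1))) x‖ ≤
      ∑ a ∈ range m, ‖ys (a + 1)‖ * ‖π (a + 1) x‖ :=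
    (norm_sum_le _ _).trans (sum_le_sum fun a _ => (ys (a + 1)).le_opNorm _)
  refine h1.trans ?_
  have h2 := Real.inner_le_Lp_mul_Lq (range m) (fun a => ‖ys (a + 1)‖) (fun a => ‖π (a + 1) x‖)
    hpq.symm
  simp only [abs_norm] at h2
  refine h2.trans (mul_le_mul ?_ ?_ (by positivity) (by positivity))
  · exact Real.rpow_le_rpow (sum_nonneg fun _ _ => Real.rpow_nonneg (norm_nonneg _) _) hρ
      (by positivity)
  · have h3 : ∑ a ∈ range m, ‖π (a + 1) x‖ ^ p ≤ ‖x‖ ^ p := by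
      refine le_trans ?_ (h.nπ x)
      rw [sum_range_succ, sum_range_succ' _ m]
      have := Real.rpow_nonneg (norm_nonneg (π 0 x)) p
      have := Real.rpow_nonneg (norm_nonneg (π (m + 1) x)) p
      linarith
    have h4 := Real.rpow_le_rpow (sum_nonneg fun _ _ => Real.rpow_nonneg (norm_nonneg _) _) h3
      (show 0 ≤ 1 / p by positivity)
    rwa [← Real.rpow_mul (norm_nonneg _), mul_one_div_cancel hp.ne', Real.rpow_one] at h4

end added

end Pool.Agent.K4H63.TY
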