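import Pool.Agent.K4H63.TY.Base

/-!
# Finite rank operators annihilated by a separable polynomial
-/

set_option autoImplicit false
open Finset Filter Topology Polynomial

namespace Pool.Agent.K4H63.TY

lemma sep_comp_affine {f : ℂ[X]} (hf : f.Separable) {s : ℂ} (hs : s ≠ 0) (c : ℂ) :
    (f.comp (C s * (X - C c))).Separable := by
  obtain ⟨a, b, hab⟩ := hf
  refine ⟨a.comp (C s * (X - C c)), C s⁻¹ * b.comp (C s * (X - C c)), ?_⟩
  have h1 := congrArg (fun g : ℂ[X] => g.comp (C s * (X - C c))) hab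
  simp only [add_comp, mul_comp, one_comp] at h1
  rw [← h1, derivative_comp]
  congr 1
  have e : derivative (C s * (X - C c)) = C s := by simp
  have e2 : C s⁻¹ * C s = 1 := by rw [← C_mul, inv_mul_cancel₀ hs, C_1]
  rw [e]
  linear_combination (comp b (C s * (X - C c)) * comp (derivative f) (C s * (X - C c))) * e2

variable {E : Type*} [NormedAddCommGroup E] [NormedSpace ℂ E]

/-- **Small perturbations with a separable annihilating polynomial.** -/
theorem exists_sep_pert {N : ℕ} (b : Fin N → E) (k : Fin N → StrongDual ℂ E)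
    (hkb : ∀ i j, k i (b j) = if i = j then 1 else 0) (B0 : E →L[ℂ] E)
    (hB0 : ∀ x, B0 x = ∑ i, k i (B0 x) • b i) {η : ℝ} (hη : 0 < η) :
    ∃ (t : Fin N → ℝ) (χ : ℂ[X]), (∀ i, 0 ≤ t i) ∧
      ‖∑ i, ((t i : ℝ) : ℂ) • (k i).smulRight (b i)‖ ≤ η ∧
      aeval (B0 + ∑ i, ((t i : ℝ) : ℂ) • (k i).smulRight (b i)) χ = 0 ∧ χ.Separable := by
  classical
  set M0 : ℝ := ∑ i : Fin N, ‖(k i).smulRight (b i)‖ with hM0
  have hM00 : 0 ≤ M0 := sum_nonneg fun _ _ => norm_nonneg _
  set A : Matrix (Fin N) (Fin N) ℂ := fun i j => k i (B0 (b j)) with hA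
  obtain ⟨s, hs, hsep⟩ := exists_large_sep A ((N : ℝ) * (M0 + 1) * (2 / η))
  have hs0 : 0 < s := lt_of_le_of_lt (by positivity) hs
  have hsC : (s : ℂ) ≠ 0 := by exact_mod_cast hs0.ne'
  set D0 : Matrix (Fin N) (Fin N) ℂ := Matrix.diagonal fun i : Fin N => ((i : ℕ) : ℂ) with hD0
  set f : ℂ[X] := (D0 + (s : ℂ) • A).charpoly with hf
  have hf0 : f ≠ 0 := (Matrix.charpoly_monic _).ne_zero
  -- the scalar
  obtain ⟨c, hc0, hcη, hcr⟩ : ∃ c : ℝ, 0 < c ∧ c * (M0 + 1) ≤ η / 2 ∧
      f.eval ((s : ℂ) * (0 - (c : ℂ))) ≠ 0 := by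
    by_contra hcon
    push Not at hcon
    apply hf0
    apply Polynomial.eq_zero_of_infinite_isRoot
    set c1 : ℝ := η / 2 / (M0 + 1) with hc1
    have hc10 : 0 < c1 := by positivity
    refine Set.infinite_of_injective_forall_mem
      (f := fun n : ℕ => (s : ℂ) * (0 - ((c1 / (n + 1) : ℝ) : ℂ))) ?_ ?_
    · intro a b' hab
      have h1 : (0 : ℂ) - ((c1 / (a + 1) : ℝ) : ℂ) = 0 - ((c1 / (b' + 1) : ℝ) : ℂ) :=
        mul_left_cancel₀ hsC hab
      have h2 : ((c1 / (a + 1) : ℝ) : ℂ) = ((c1 / (b' + 1) : ℝ) : ℂ) := by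
        have := sub_right_inj.1 h1
        exact this
      have h3 : c1 / ((a : ℝ) + 1) = c1 / (b' + 1) := Complex.ofReal_injective h2
      have ha : (0 : ℝ) < (a : ℝ) + 1 := by positivity
      have hb : (0 : ℝ) < (b' : ℝ) + 1 := by positivity
      rw [div_eq_div_iff ha.ne' hb.ne'] at h3
      have h4 := mul_left_cancel₀ hc10.ne' h3
      have h5 : (b' : ℝ) = a := by linarith
      exact_mod_cast h5.symm
    · intro n
      refine hcon _ (by positivity) ?_
      have h1 : c1 / ((n : ℝ) + 1) ≤ c1 :=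
        div_le_self hc10.le (by have : (0 : ℝ) ≤ n := Nat.cast_nonneg n; linarith)
      have h2 : c1 * (M0 + 1) = η / 2 := by rw [hc1]; field_simp
      calc c1 / ((n : ℝ) + 1) * (M0 + 1) ≤ c1 * (M0 + 1) :=
            mul_le_mul_of_nonneg_right h1 (by positivity)
        _ = η / 2 := h2
  set t : Fin N → ℝ := fun i => s⁻¹ * (i : ℕ) + c with ht
  set D : E →L[ℂ] E := ∑ i, ((t i : ℝ) : ℂ) • (k i).smulRight (b i) with hD
  set B : E →L[ℂ] E := B0 + D with hB
  set M : Matrix (Fin N) (Fin N) ℂ := ((s⁻¹ : ℝ) : ℂ) • D0 + A + (c : ℂ) • 1 with hM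
  set g : ℂ[X] := f.comp (C (s : ℂ) * (X - C (c : ℂ))) with hg
  have hgM : aeval M g = 0 := by
    rw [hg, aeval_comp]
    have e : aeval M (C (s : ℂ) * (X - C (c : ℂ))) = D0 + (s : ℂ) • A := by
      rw [map_mul, map_sub, aeval_X, aeval_C, aeval_C, Algebra.algebraMap_eq_smul_one,
        Algebra.algebraMap_eq_smul_one, smul_mul_assoc, one_mul, hM, add_sub_cancel_right,
        smul_add, smul_smul]
      rw [Complex.ofReal_inv, mul_inv_cancel₀ hsC, one_smul]
    rw [e]
    exact Matrix.aeval_self_charpoly _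
  have hgs : g.Separable := sep_comp_affine hsep hsC _
  have hg0 : g.eval 0 ≠ 0 := by
    rw [hg, eval_comp]
    simpa using hcr
  -- the action on the span
  set vec : (Fin N → ℂ) → E := fun u => ∑ i, u i • b i with hvec
  have hvadd : ∀ u u', vec (u + u') = vec u + vec u' := by
    intro u u'
    simp only [hvec, Pi.add_apply, add_smul, sum_add_distrib]
  have hvsmul : ∀ (a : ℂ) u, vec (a • u) = a • vec u := by
    intro a u
    simp only [hvec, Pi.smul_apply, smul_eq_mul, mul_smul, smul_sum]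
  have hkv : ∀ u i, k i (vec u) = u i := by
    intro u i
    simp only [hvec, map_sum, map_smul, hkb, smul_eq_mul, mul_ite, mul_one, mul_zero]
    rw [sum_ite_eq]
    simp
  have hB0v : ∀ u, B0 (vec u) = vec (A.mulVec u) := by
    intro u
    rw [hB0]
    simp only [hvec]
    refine sum_congr rfl fun i _ => ?_
    congr 1
    rw [map_sum, map_sum]
    simp only [Matrix.mulVec, dotProduct, hA]
    refine sum_congr rfl fun j _ => ?_
    rw [map_smul, map_smul, smul_eq_mul, mul_comm]
  have hDv : ∀ x, D x = vec (fun i => (t i : ℂ) * k i x) := by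
    intro x
    simp only [hD, hvec, _root_.sum_apply, _root_.smul_apply,
      ContinuousLinearMap.smulRight_apply, smul_smul]
  have hBv : ∀ u, B (vec u) = vec (M.mulVec u) := by
    intro u
    rw [hB, _root_.add_apply, hB0v, hDv, ← hvadd]
    congr 1
    rw [hM, Matrix.add_mulVec, Matrix.add_mulVec, Matrix.smul_mulVec, Matrix.smul_mulVec,
      Matrix.one_mulVec]
    funext i
    simp only [Pi.add_apply, Pi.smul_apply, hkv, hD0, Matrix.mulVec_diagonal, smul_eq_mul, ht]
    push_cast
    ring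
  have hpow : ∀ (n : ℕ) u, (B ^ n) (vec u) = vec ((M ^ n).mulVec u) := by
    intro n
    induction n with
    | zero => intro u; simp
    | succ n ih =>
      intro u
      rw [pow_succ, mul_apply_eq_comp, hBv, ih, pow_succ, Matrix.mulVec_mulVec]
  have hpoly : ∀ (h : ℂ[X]) u, (aeval B h) (vec u) = vec ((aeval M h).mulVec u) := by
    intro h u
    induction h using Polynomial.induction_on' with
    | add h h' ih ih' =>
      rw [map_add, map_add, _root_.add_apply, ih, ih', Matrix.add_mulVec, hvadd]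
    | monomial n a =>
      rw [aeval_monomial, aeval_monomial, Algebra.algebraMap_eq_smul_one,
        Algebra.algebraMap_eq_smul_one, smul_mul_assoc, smul_mul_assoc, one_mul, one_mul,
        _root_.smul_apply, hpow, Matrix.smul_mulVec, hvsmul]
  refine ⟨t, X * g, fun i => by simp only [ht]; positivity, ?_, ?_, ?_⟩
  · refine (norm_sum_le _ _).trans ?_
    have h1 : ∀ i : Fin N, t i ≤ η / (M0 + 1) := by
      intro i
      have hi : ((i : ℕ) : ℝ) ≤ N := by exact_mod_cast i.2.le
      have h2 : s⁻¹ * (i : ℕ) ≤ η / 2 / (M0 + 1) := by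
        rw [inv_mul_le_iff₀ hs0]
        have h3 : (N : ℝ) ≤ s * (η / 2 / (M0 + 1)) := by
          have h4 : (N : ℝ) * (M0 + 1) * (2 / η) * (η / 2 / (M0 + 1)) = N := by
            field_simp
          rw [← h4]
          exact mul_le_mul_of_nonneg_right hs.le (by positivity)
        linarith
      have h3 : c ≤ η / 2 / (M0 + 1) := by
        rw [le_div_iff₀ (by positivity)]
        exact hcη
      have h4 : η / (M0 + 1) = η / 2 / (M0 + 1) + η / 2 / (M0 + 1) := by ring
      simp only [ht]
      linarith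
    calc ∑ i, ‖((t i : ℝ) : ℂ) • (k i).smulRight (b i)‖
        ≤ ∑ i, η / (M0 + 1) * ‖(k i).smulRight (b i)‖ := by
          refine sum_le_sum fun i _ => ?_
          rw [norm_smul, Complex.norm_real, Real.norm_of_nonneg (by simp only [ht]; positivity)]
          exact mul_le_mul_of_nonneg_right (h1 i) (norm_nonneg _)
      _ = η / (M0 + 1) * M0 := by rw [← mul_sum]
      _ ≤ η := by
          rw [div_mul_eq_mul_div, div_le_iff₀ (by positivity)]
          nlinarith
  · have hBx : ∀ x, B x = vec (fun i => k i (B x)) := by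
      intro x
      have h1 : B x = vec ((fun i => k i (B0 x)) + fun i => (t i : ℂ) * k i x) := by
        rw [hvadd, ← hDv, hB, _root_.add_apply]
        congr 1
        exact hB0 x
      have h2 : (fun i => k i (B x)) = (fun i => k i (B0 x)) + fun i => (t i : ℂ) * k i x := by
        funext i
        rw [h1, hkv]
      rw [h2]
      exact h1
    ext x
    rw [_root_.zero_apply, mul_comm, map_mul, aeval_X, mul_apply_eq_comp, hBx, hpoly, hgM,
      Matrix.zero_mulVec]
    simp [hvec]
  · refine Polynomial.Separable.mul separable_X hgs ?_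
    rw [irreducible_X.coprime_iff_not_dvd, X_dvd_iff, coeff_zero_eq_eval_zero]
    exact hg0

end Pool.Agent.K4H63.TY
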