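import Pool.Agent.K4H63.TY.Cop

/-!
# The density step
-/

set_option autoImplicit false
open Filter Topology Finset Polynomial

namespace Pool.Agent.K4H63.TY

variable {E : Type*} [NormedAddCommGroup E] [NormedSpace ℂ E]

/-- The class `C` of contractions is approximated by block operators which can be amplified within
the class. -/
def Amp (p : ℝ) (C : Set (E →L[ℂ] E)) : Prop :=
  ∀ T ∈ C, ∀ (X : Finset E) (Y : Finset (StrongDual ℂ E)) (ε : ℝ), 0 < ε →
    ∃ (P B : E →L[ℂ] E) (r : ℝ) (χ : ℂ[X]), B ∈ C ∧ ‖P‖ ≤ 1 ∧ P * P = P ∧ P * B = B ∧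
      B * P = B ∧ r < 1 ∧ ‖B‖ ≤ r ∧ aeval B χ = 0 ∧ χ.Separable ∧
      (∀ x ∈ X, ‖P x - x‖ ≤ ε ∧ ‖B x - T x‖ ≤ ε) ∧
      (∀ y ∈ Y, ‖y.comp P - y‖ ≤ ε ∧ ‖y.comp B - y.comp T‖ ≤ ε) ∧
      ∀ (n : ℕ) (X' : Finset E) (Y' : Finset (StrongDual ℂ E)) (ε' : ℝ), 0 < ε' →
        ∃ ι π : ℕ → E →L[ℂ] E, Copies p n P ι π ∧
          (∀ a ≤ n, a ≠ 0 → (∀ x ∈ X', ‖π a x‖ ≤ ε') ∧ ∀ y ∈ Y', ‖y.comp (ι a)‖ ≤ ε') ∧
          ∀ w : ℕ → ℝ, (∀ a, 0 ≤ w a ∧ w a ≤ 1 - r) → amp n B (fun a => (w a : ℂ)) ι π ∈ C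

variable {W : Type*} [TopologicalSpace W] {Φ : W → E →L[ℂ] E}

theorem step (hE : Refl E) {p q : ℝ} (hpq : p.HolderConjugate q) (h : TopS Φ)
    (hA : Amp p (Set.range Φ)) {x : E} {y : StrongDual ℂ E}
    {ρ : ℝ} (hρ : 0 < ρ) {w0 : W} (hw0 : w0 ∈ interior (HS Φ x y ρ)) {V : Set W} (hV : IsOpen V)
    (hwV : w0 ∈ V) {d : ℕ → E} (hd : DenseRange d) {d' : ℕ → StrongDual ℂ E}
    (hd' : DenseRange d') {ε : ℝ} (hε : 0 < ε) (x0 : E) :
    ∃ w2 ∈ V, ∃ i j : ℕ, w2 ∈ interior (HS Φ (d i) (d' j) ε) ∧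
      ‖d i - x‖ ≤ (2 * ρ) ^ (1 / p) + ε ∧ ‖d' j - y‖ ≤ (2 * ρ) ^ (1 / q) + ε ∧
      ‖d' j x0 - y x0‖ ≤ ε := by
  classical
  have hp := hpq.pos
  have hq := hpq.symm.pos
  have hVo : IsOpen (V ∩ interior (HS Φ x y ρ)) := hV.inter isOpen_interior
  obtain ⟨X0, Y0, ε0, hε0, hnear⟩ := h.nhd w0 _ hVo ⟨hwV, hw0⟩
  obtain ⟨ε1, hε10, hε1a, hε1b⟩ := exists_small (a := ‖x‖ + ‖y‖ + ‖x0‖ + 1)
    (b := min (min (ε / 8) ρ) (ε0 / 2)) (by positivity) (by positivity)
  have hb1 : min (min (ε / 8) ρ) (ε0 / 2) ≤ ε / 8 := (min_le_left _ _).trans (min_le_left _ _)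
  have hb2 : min (min (ε / 8) ρ) (ε0 / 2) ≤ ρ := (min_le_left _ _).trans (min_le_right _ _)
  have hb3 : min (min (ε / 8) ρ) (ε0 / 2) ≤ ε0 / 2 := min_le_right _ _
  obtain ⟨P, B, r, χ, hBC, hPn, hPP, hPB, hBP, hr1, hBr, hχ, hs, hX, hY, hcop⟩ :=
    hA (Φ w0) ⟨w0, rfl⟩ (insert x X0) (insert y Y0) ε1 hε10
  have hr0 : 0 ≤ r := (norm_nonneg _).trans hBr
  have hB1 : ‖B‖ ≤ 1 := hBr.trans hr1.le
  obtain ⟨w1, hw1⟩ := hBC
  have hPx : ‖P x - x‖ ≤ ε1 := (hX x (mem_insert_self _ _)).1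
  have hPy : ‖y.comp P - y‖ ≤ ε1 := (hY y (mem_insert_self _ _)).1
  have hw1V : w1 ∈ V ∩ interior (HS Φ x y ρ) := by
    apply hnear
    · intro z hz
      rw [hw1]
      have := (hX z (mem_insert_of_mem hz)).2
      linarith
    · intro z hz
      rw [hw1]
      have := (hY z (mem_insert_of_mem hz)).2
      linarith
  have hHC0 : HC B x y ρ := by
    have := interior_subset hw1V.2
    rw [← hw1]
    exact this
  have hPxn : ‖P x‖ ≤ ‖x‖ := (P.le_opNorm x).trans (mul_le_of_le_one_left (norm_nonneg _) hPn)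
  have hHC1 : HC B (P x) (y.comp P) (2 * ρ) := by
    refine (hHC0.lip (x' := P x) (y' := y.comp P)).mono ?_
    have h3 : ‖y.comp P - y‖ * ‖P x‖ ≤ ε1 * ‖x‖ := mul_le_mul hPy hPxn (norm_nonneg _) hε10.le
    have h4 : ‖y‖ * ‖P x - x‖ ≤ ‖y‖ * ε1 := mul_le_mul_of_nonneg_left hPx (norm_nonneg _)
    have h5 : ε1 * (‖x‖ + ‖y‖) ≤ ε1 * (‖x‖ + ‖y‖ + ‖x0‖ + 1) :=
      mul_le_mul_of_nonneg_left (by linarith [norm_nonneg x0]) hε10.le
    have h6 : ε1 * (‖x‖ + ‖y‖) = ε1 * ‖x‖ + ‖y‖ * ε1 := by ring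
    linarith
  obtain ⟨m, u, v, hm, hu, hv, huv⟩ := exists_nuc' hE hpq B (show 0 < 2 * ρ by positivity) hHC1
    (show 0 < ε / 8 by positivity)
  -- the sequences
  set xs : ℕ → E := fun a => if a = 0 then P x else if h : a - 1 < m then P (u ⟨a - 1, h⟩) else 0
    with hxs
  set ys : ℕ → StrongDual ℂ E := fun a => if a = 0 then y.comp P else
    if h : a - 1 < m then -((v ⟨a - 1, h⟩).comp P) else 0 with hys
  have hxs0 : xs 0 = P x := by simp [hxs]
  have hys0 : ys 0 = y.comp P := by simp [hys]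
  have hxsi : ∀ i : Fin m, xs (i + 1) = P (u i) := by
    intro i
    simp only [hxs]
    rw [if_neg (by omega), dif_pos (by have := i.2; omega)]
    rfl
  have hysi : ∀ i : Fin m, ys (i + 1) = -((v i).comp P) := by
    intro i
    simp only [hys]
    rw [if_neg (by omega), dif_pos (by have := i.2; omega)]
    rfl
  have hsumx : ∑ a ∈ range m, ‖xs (a + 1)‖ ^ p ≤ 2 * ρ := by
    rw [← Fin.sum_univ_eq_sum_range (fun a => ‖xs (a + 1)‖ ^ p) m]
    refine (sum_le_sum fun i _ => ?_).trans hu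
    rw [hxsi]
    refine Real.rpow_le_rpow (norm_nonneg _) ?_ hp.le
    exact (P.le_opNorm _).trans (mul_le_of_le_one_left (norm_nonneg _) hPn)
  have hsumy : ∑ a ∈ range m, ‖ys (a + 1)‖ ^ q ≤ 2 * ρ := by
    rw [← Fin.sum_univ_eq_sum_range (fun a => ‖ys (a + 1)‖ ^ q) m]
    refine (sum_le_sum fun i _ => ?_).trans hv
    rw [hysi, norm_neg]
    refine Real.rpow_le_rpow (norm_nonneg _) ?_ hq.le
    exact (ContinuousLinearMap.opNorm_comp_le _ _).trans
      (mul_le_of_le_one_right (norm_nonneg _) hPn)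
  have hdiag : ∀ S : E →L[ℂ] E, S * B = B * S → ‖S‖ ≤ 1 →
      ‖∑ a ∈ range (m + 1), ys a (S (xs a))‖ ≤ ε / 8 := by
    intro S hS hS1
    have hS' : (P * S * P) * B = B * (P * S * P) := by
      calc (P * S * P) * B = P * (S * B) := by rw [mul_assoc, mul_assoc, hPB]
        _ = P * B * S := by rw [hS, mul_assoc]
        _ = B * S := by rw [hPB]
        _ = S * B * P := by rw [mul_assoc, hBP, hS]
        _ = B * S * P := by rw [hS]
        _ = B * (P * S * P) := by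
            rw [← mul_assoc B (P * S) P, ← mul_assoc B P S, hBP]
    have hS'1 : ‖P * S * P‖ ≤ 1 := by
      calc ‖P * S * P‖ ≤ ‖P * S‖ * ‖P‖ := norm_mul_le _ _
        _ ≤ (‖P‖ * ‖S‖) * ‖P‖ := mul_le_mul_of_nonneg_right (norm_mul_le _ _) (norm_nonneg _)
        _ ≤ (1 * 1) * 1 := mul_le_mul (mul_le_mul hPn hS1 (norm_nonneg _) zero_le_one) hPn
            (norm_nonneg _) (by norm_num)
        _ = 1 := by norm_num
    have h1 := huv (P * S * P) hS' hS'1
    have hPPx : ∀ z, P (P z) = P z := fun z => by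
      have := congrArg (fun Q : E →L[ℂ] E => Q z) hPP
      simpa only [mul_apply_eq_comp] using this
    rw [sum_range_succ', ← Fin.sum_univ_eq_sum_range (fun a => ys (a + 1) (S (xs (a + 1)))) m,
      hxs0, hys0]
    have e1 : ∑ i : Fin m, ys (i + 1) (S (xs (i + 1))) =
        -∑ i, v i ((P * S * P) (u i)) := by
      rw [← sum_neg_distrib]
      refine sum_congr rfl fun i _ => ?_
      rw [hysi, hxsi]
      rfl
    have e2 : (y.comp P) (S (P x)) = (y.comp P) ((P * S * P) (P x)) := by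
      simp only [ContinuousLinearMap.comp_apply, mul_apply_eq_comp, hPPx]
    rw [e1, e2]
    have e3 : -∑ i, v i ((P * S * P) (u i)) + (y.comp P) ((P * S * P) (P x)) =
        (y.comp P) ((P * S * P) (P x)) - ∑ i, v i ((P * S * P) (u i)) := by ring
    rw [e3]
    exact h1
  set Mx : ℝ := ∑ b ∈ range (m + 1), ‖xs b‖ with hMx
  set My : ℝ := ∑ a ∈ range (m + 1), ‖ys a‖ with hMy
  have hMx0 : 0 ≤ Mx := sum_nonneg fun _ _ => norm_nonneg _
  have hMy0 : 0 ≤ My := sum_nonneg fun _ _ => norm_nonneg _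
  set MX : ℝ := ∑ z ∈ X0, ‖z‖ with hMX
  have hMX0 : 0 ≤ MX := sum_nonneg fun _ _ => norm_nonneg _
  -- the weights
  set w : ℝ := 1 - r with hw
  have hw0' : 0 < w := by rw [hw]; linarith
  have hw1' : w ≤ 1 := by rw [hw]; linarith
  obtain ⟨δ, hδ0, hδa, hδb⟩ := exists_small (a := My * Mx + MX + 1)
    (b := min (min (ε / 8 * w) (ε0 / 8)) w) (by positivity) (by positivity)
  have hδw : δ ≤ w := hδb.trans (min_le_right _ _)
  have hδ1 : δ * (My * Mx + MX + 1) ≤ ε / 8 * w :=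
    hδa.trans ((min_le_left _ _).trans (min_le_left _ _))
  have hδ2 : δ * (My * Mx + MX + 1) ≤ ε0 / 8 :=
    hδa.trans ((min_le_left _ _).trans (min_le_right _ _))
  have hMM := mul_nonneg hMy0 hMx0
  have hδ3 : δ / w * (My * Mx) ≤ ε / 8 := by
    rw [div_mul_eq_mul_div, div_le_iff₀ hw0']
    exact (mul_le_mul_of_nonneg_left (by linarith) hδ0.le).trans hδ1
  obtain ⟨ε2, hε20, hε2a, hε2b⟩ := exists_small (a := 2 * (m + 1) + My)
    (b := min (ε / 8) (ε0 / 8)) (by positivity) (by positivity)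
  have hm0 : (0 : ℝ) ≤ m := Nat.cast_nonneg m
  have hm2 : 2 * (m + 1) * ε2 ≤ min (ε / 8) (ε0 / 8) := by
    rw [mul_comm]
    exact (mul_le_mul_of_nonneg_left (by linarith) hε20.le).trans hε2a
  have hm3 : My * ε2 ≤ min (ε / 8) (ε0 / 8) := by
    rw [mul_comm]
    exact (mul_le_mul_of_nonneg_left (by linarith) hε20.le).trans hε2a
  have hb4 : min (ε / 8) (ε0 / 8) ≤ ε / 8 := min_le_left _ _
  have hb5 : min (ε / 8) (ε0 / 8) ≤ ε0 / 8 := min_le_right _ _
  obtain ⟨ι, π, hc, hfar, hamp⟩ := hcop (m + 1) (insert x0 X0) Y0 ε2 hε20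
  have hwr : (fun a : ℕ => (((if a < m then δ else w : ℝ)) : ℂ)) = wt m δ w := by
    funext a
    unfold wt
    split_ifs <;> rfl
  have hamp' := hamp (fun a => if a < m then δ else w) (fun a => by
    split_ifs
    · exact ⟨hδ0.le, hδw⟩
    · exact ⟨hw0'.le, le_rfl⟩)
  rw [hwr] at hamp'
  obtain ⟨w2, hw2⟩ := hamp'
  have hwtn : ∀ a, ‖wt m δ w a‖ ≤ 1 := by
    intro a
    unfold wt
    split_ifs
    · rw [Complex.norm_real, Real.norm_of_nonneg hδ0.le]; linarith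
    · rw [Complex.norm_real, Real.norm_of_nonneg hw0'.le]; linarith
  have hwt0 : ‖wt m δ w 0‖ ≤ δ := by
    unfold wt
    rw [if_pos hm, Complex.norm_real, Real.norm_of_nonneg hδ0.le]
  have hw2V : w2 ∈ V ∩ interior (HS Φ x y ρ) := by
    apply hnear
    · intro z hz
      have h1 := near_x hc hp hPB hBP hB1 hwtn hwt0 (x := z) (ε := ε2)
        (fun a ha ha0 => (hfar a ha ha0).1 z (mem_insert_of_mem hz))
      have h2 := (hX z (mem_insert_of_mem hz)).2
      have h3 : ‖z‖ ≤ MX := single_le_sum (f := fun z : E => ‖z‖) (fun _ _ => norm_nonneg _) hz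
      have e : Φ w2 z - Φ w0 z = (amp (m + 1) B (wt m δ w) ι π z - B z) + (B z - Φ w0 z) := by
        rw [hw2]; abel
      rw [e]
      refine (norm_add_le _ _).trans_lt ?_
      have h4 : δ * ‖z‖ ≤ δ * MX := mul_le_mul_of_nonneg_left h3 hδ0.le
      have h7 := mul_nonneg hMy0 hMx0
      have h5 : δ * MX ≤ ε0 / 8 :=
        (mul_le_mul_of_nonneg_left (by linarith) hδ0.le).trans hδ2
      have h6 : 2 * (m + 1) * ε2 ≤ ε0 / 8 := hm2.trans hb5
      linarith
    · intro z hz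
      have h1 := near_y hc hp hPB hBP hB1 hwtn (y := z) (ε := ε2)
        (fun a ha ha0 => (hfar a ha ha0).2 z hz)
      have h2 := (hY z (mem_insert_of_mem hz)).2
      have e : z.comp (Φ w2) - z.comp (Φ w0) = (z.comp (amp (m + 1) B (wt m δ w) ι π) -
          z.comp B) + (z.comp B - z.comp (Φ w0)) := by
        rw [hw2]; abel
      rw [e]
      refine (norm_add_le _ _).trans_lt ?_
      have h6 : 2 * (m + 1) * ε2 ≤ ε0 / 8 := hm2.trans hb5
      linarith
  -- the new pair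
  set x2 : E := ∑ b ∈ range (m + 1), ι b (xs b) with hx2
  set y2 : StrongDual ℂ E := ∑ a ∈ range (m + 1), (ys a).comp (π a) with hy2
  have hHC2 : HC (Φ w2) x2 y2 (ε / 4) := by
    intro S hS hS1
    rw [hw2] at hS
    have h1 := hc.pairing hp hPB hBP hχ hs hδ0 hw0' xs ys hdiag hS hS1
    refine h1.trans ?_
    linarith
  have hx2d : ‖x2 - x‖ ≤ (2 * ρ) ^ (1 / p) + ε1 := by
    have e : x2 - x = (∑ a ∈ range m, ι (a + 1) (xs (a + 1))) + (P x - x) := by
      rw [hx2, sum_range_succ', hxs0, hc.ι0]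
      have : P (P x) = P x := by
        have := congrArg (fun Q : E →L[ℂ] E => Q x) hPP
        simpa only [mul_apply_eq_comp] using this
      rw [this]
      abel
    rw [e]
    exact (norm_add_le _ _).trans (add_le_add (add_x hc hp xs hsumx) hPx)
  have e2 : y2 - y = (∑ a ∈ range m, (ys (a + 1)).comp (π (a + 1))) + (y.comp P - y) := by
    rw [hy2, sum_range_succ', hys0, hc.π0]
    have : (y.comp P).comp P = y.comp P := by
      rw [ContinuousLinearMap.comp_assoc]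
      have hPP' : P.comp P = P := hPP
      rw [hPP']
    rw [this]
    abel
  have hy2d : ‖y2 - y‖ ≤ (2 * ρ) ^ (1 / q) + ε1 := by
    rw [e2]
    exact (norm_add_le _ _).trans (add_le_add (add_y hc hpq ys hsumy) hPy)
  have hy2x : ‖y2 x0 - y x0‖ ≤ ε / 4 := by
    have e3 : y2 x0 - y x0 = ∑ a ∈ range m, ys (a + 1) (π (a + 1) x0) + (y.comp P - y) x0 := by
      have : y2 x0 - y x0 = (y2 - y) x0 := rfl
      rw [this, e2, _root_.add_apply, _root_.sum_apply]
      rfl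
    rw [e3]
    have b1 : ‖∑ a ∈ range m, ys (a + 1) (π (a + 1) x0)‖ ≤ My * ε2 := by
      refine (norm_sum_le _ _).trans ?_
      have b2 : ∀ a ∈ range m, ‖ys (a + 1) (π (a + 1) x0)‖ ≤ ‖ys (a + 1)‖ * ε2 := by
        intro a ha
        refine ((ys (a + 1)).le_opNorm _).trans (mul_le_mul_of_nonneg_left ?_ (norm_nonneg _))
        exact (hfar (a + 1) (by have := mem_range.1 ha; omega) (by omega)).1 x0
          (mem_insert_self _ _)
      refine (sum_le_sum b2).trans ?_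
      rw [← sum_mul]
      refine mul_le_mul_of_nonneg_right ?_ hε20.le
      rw [hMy, sum_range_succ']
      linarith [norm_nonneg (ys 0)]
    have b3 : ‖(y.comp P - y) x0‖ ≤ ε1 * ‖x0‖ :=
      ((y.comp P - y).le_opNorm x0).trans (mul_le_mul_of_nonneg_right hPy (norm_nonneg _))
    have b4 : My * ε2 ≤ ε / 8 := hm3.trans hb4
    have b5 : ε1 * ‖x0‖ ≤ ε / 8 :=
      ((mul_le_mul_of_nonneg_left (by linarith [norm_nonneg x, norm_nonneg y]) hε10.le).trans
        hε1a).trans hb1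
    refine (norm_add_le _ _).trans ?_
    linarith
  -- approximation by the dense sequences
  obtain ⟨ε3, hε30, hε3a, hε3b⟩ := exists_small (a := ‖x2‖ + ‖y2‖ + 1 + ‖x0‖)
    (b := min (ε / 8) 1) (by positivity) (by positivity)
  have hb6 : min (ε / 8) 1 ≤ ε / 8 := min_le_left _ _
  have hb7 : min (ε / 8) 1 ≤ 1 := min_le_right _ _
  obtain ⟨i, hi⟩ := hd.exists_dist_lt x2 hε30
  obtain ⟨j, hj⟩ := hd'.exists_dist_lt y2 hε30
  rw [dist_comm, dist_eq_norm] at hi hj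
  refine ⟨w2, hw2V.1, i, j, ?_, ?_, ?_, ?_⟩
  · have h1 : HC (Φ w2) (d i) (d' j) (ε / 2) := by
      refine (hHC2.lip (x' := d i) (y' := d' j)).mono ?_
      have h2 : ‖d i‖ ≤ ‖x2‖ + 1 := by
        have e : d i = x2 + (d i - x2) := by abel
        rw [e]
        refine (norm_add_le _ _).trans ?_
        linarith
      have h3 : ‖d' j - y2‖ * ‖d i‖ ≤ ε3 * (‖x2‖ + 1) :=
        mul_le_mul hj.le h2 (norm_nonneg _) hε30.le
      have h4 : ‖y2‖ * ‖d i - x2‖ ≤ ‖y2‖ * ε3 := mul_le_mul_of_nonneg_left hi.le (norm_nonneg _)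
      have h5 : ε3 * (‖x2‖ + 1 + ‖y2‖) ≤ ε3 * (‖x2‖ + ‖y2‖ + 1 + ‖x0‖) :=
        mul_le_mul_of_nonneg_left (by linarith [norm_nonneg x0]) hε30.le
      have h6 : ε3 * (‖x2‖ + 1 + ‖y2‖) = ε3 * (‖x2‖ + 1) + ‖y2‖ * ε3 := by ring
      linarith
    exact mem_interior_HS hE h (show ε / 2 < ε by linarith) h1
  · have e : d i - x = (d i - x2) + (x2 - x) := by abel
    rw [e]
    refine (norm_add_le _ _).trans ?_
    linarith
  · have e : d' j - y = (d' j - y2) + (y2 - y) := by abel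
    rw [e]
    refine (norm_add_le _ _).trans ?_
    linarith
  · have e : d' j x0 - y x0 = (d' j - y2) x0 + (y2 x0 - y x0) := by
      rw [_root_.sub_apply]; ring
    rw [e]
    have h1 : ‖(d' j - y2) x0‖ ≤ ε3 * ‖x0‖ :=
      ((d' j - y2).le_opNorm x0).trans (mul_le_mul_of_nonneg_right hj.le (norm_nonneg _))
    have h2 : ε3 * ‖x0‖ ≤ ε / 8 :=
      ((mul_le_mul_of_nonneg_left (by linarith [norm_nonneg x2, norm_nonneg y2])
        hε30.le).trans hε3a).trans hb6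
    refine (norm_add_le _ _).trans ?_
    linarith

end Pool.Agent.K4H63.TY
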