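import Pool.Agent.K4H63.TY.Map2
import Pool.Agent.K4H63.TY.Sep
import Pool.Agent.K4H63.TY.Step
import Pool.Agent.Y280.Dis

/-!
# `ℓ_p`-sums of copies of a Banach space
-/

set_option autoImplicit false
open Finset Filter Topology
open scoped ENNReal

namespace Pool.Agent.K4H63.TY

variable {P : ℝ≥0∞} [hP : Fact (1 ≤ P)] {X : Type*} [NormedAddCommGroup X] [NormedSpace ℂ X]

/-- The embedding of the `i`-th summand. -/
noncomputable def sg (P : ℝ≥0∞) [Fact (1 ≤ P)] {X : Type*} [NormedAddCommGroup X]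
    [NormedSpace ℂ X] (i : ℕ) : X →L[ℂ] lp (fun _ : ℕ => X) P :=
  lp.singleContinuousLinearMap ℂ (fun _ : ℕ => X) P i

/-- The `i`-th coordinate. -/
noncomputable def ev (P : ℝ≥0∞) [Fact (1 ≤ P)] {X : Type*} [NormedAddCommGroup X]
    [NormedSpace ℂ X] (i : ℕ) : lp (fun _ : ℕ => X) P →L[ℂ] X :=
  lp.evalCLM ℂ (fun _ : ℕ => X) P i

lemma ev_apply (i : ℕ) (x : lp (fun _ : ℕ => X) P) : ev P i x = x i := rfl

lemma sg_apply (i : ℕ) (x : X) : sg P i x = lp.single P i x := rfl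

lemma ev_sg (i j : ℕ) (x : X) : ev P i (sg P j x) = if i = j then x else 0 := by
  rw [ev_apply, sg_apply, lp.coeFn_single, Pi.single_apply]

lemma norm_sum_sg (hp : 0 < P.toReal) {α : Type*} (A : Finset α) (κ : α → ℕ)
    (hκ : Set.InjOn κ A) (F : α → X) :
    ‖∑ a ∈ A, sg P (κ a) (F a)‖ ^ P.toReal = ∑ a ∈ A, ‖F a‖ ^ P.toReal := by
  classical
  set F' : ℕ → X := fun i => if h : ∃ a ∈ A, κ a = i then F h.choose else 0 with hF'
  have hFF : ∀ a ∈ A, F' (κ a) = F a := by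
    intro a ha
    have h : ∃ b ∈ A, κ b = κ a := ⟨a, ha, rfl⟩
    simp only [hF']
    rw [dif_pos h]
    congr 1
    exact hκ h.choose_spec.1 ha h.choose_spec.2
  have e1 : ∑ a ∈ A, sg P (κ a) (F a) = ∑ i ∈ A.image κ, lp.single P i (F' i) := by
    rw [sum_image hκ]
    refine sum_congr rfl fun a ha => ?_
    rw [hFF a ha, sg_apply]
  have e2 : ∑ a ∈ A, ‖F a‖ ^ P.toReal = ∑ i ∈ A.image κ, ‖F' i‖ ^ P.toReal := by
    rw [sum_image hκ]
    refine sum_congr rfl fun a ha => ?_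
    rw [hFF a ha]
  rw [e1, e2]
  exact lp.norm_sum_single (E := fun _ : ℕ => X) hp F' _

lemma sum_ev_le (hp : 0 < P.toReal) {α : Type*} (A : Finset α) (κ : α → ℕ)
    (hκ : Set.InjOn κ A) (x : lp (fun _ : ℕ => X) P) :
    ∑ a ∈ A, ‖ev P (κ a) x‖ ^ P.toReal ≤ ‖x‖ ^ P.toReal := by
  classical
  have e : ∑ a ∈ A, ‖ev P (κ a) x‖ ^ P.toReal = ∑ i ∈ A.image κ, ‖x i‖ ^ P.toReal := by
    rw [sum_image hκ]
    rfl
  rw [e]
  exact lp.sum_rpow_le_norm_rpow hp x _

/-- The first `N` coordinates. -/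
noncomputable def tr (P : ℝ≥0∞) [Fact (1 ≤ P)] (X : Type*) [NormedAddCommGroup X]
    [NormedSpace ℂ X] (N : ℕ) : lp (fun _ : ℕ => X) P →L[ℂ] lp (fun _ : ℕ => X) P :=
  ∑ i ∈ range N, (sg P i).comp (ev P i)

lemma tr_apply (N : ℕ) (x : lp (fun _ : ℕ => X) P) :
    tr P X N x = ∑ i ∈ range N, sg P i (ev P i x) := by
  unfold tr
  rw [_root_.sum_apply]
  rfl

lemma ev_tr (N i : ℕ) (x : lp (fun _ : ℕ => X) P) :
    ev P i (tr P X N x) = if i < N then ev P i x else 0 := by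
  rw [tr_apply, map_sum]
  simp only [ev_sg]
  rw [sum_ite_eq]
  simp only [mem_range]

lemma tr_tendsto (hPt : P ≠ ∞) (x : lp (fun _ : ℕ => X) P) :
    Tendsto (fun N => tr P X N x) atTop (𝓝 x) := by
  have h := (lp.hasSum_single hPt x).tendsto_sum_nat
  refine h.congr fun N => ?_
  rw [tr_apply]
  rfl

lemma norm_tr (hp : 0 < P.toReal) (N : ℕ) : ‖tr P X N‖ ≤ 1 := by
  refine ContinuousLinearMap.opNorm_le_bound _ zero_le_one fun x => ?_
  rw [one_mul, tr_apply]
  have h1 := norm_sum_sg (P := P) hp (range N) (fun i => i) (fun _ _ _ _ h => h)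
    (fun i => ev P i x)
  have h2 := sum_ev_le (P := P) hp (range N) (fun i => i) (fun _ _ _ _ h => h) x
  rw [← h1] at h2
  exact (Real.rpow_le_rpow_iff (norm_nonneg _) (norm_nonneg _) hp).1 h2

lemma tr_sub (hp : 0 < P.toReal) (K : ℕ → ℕ) (hK : StrictMono K)
    (f : ℕ → lp (fun _ : ℕ => X) P) (J : ℕ) :
    ‖∑ j ∈ range J, ((1 - tr P X (K j)) - (1 - tr P X (K (j + 1)))) (f j)‖ ^ P.toReal ≤
      ∑ j ∈ range J, ‖f j‖ ^ P.toReal := by
  have e1 : ∀ j, ((1 - tr P X (K j)) - (1 - tr P X (K (j + 1)))) (f j) =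
      ∑ i ∈ Ico (K j) (K (j + 1)), sg P i (ev P i (f j)) := by
    intro j
    have e : ((1 - tr P X (K j)) - (1 - tr P X (K (j + 1)))) (f j) =
        tr P X (K (j + 1)) (f j) - tr P X (K j) (f j) := by
      simp only [_root_.sub_apply, one_apply_eq_self]
      abel
    rw [e, tr_apply, tr_apply, ← sum_range_add_sum_Ico _ (hK.monotone (Nat.le_succ j))]
    simp
  have hinj : Set.InjOn (fun z : (_ : ℕ) × ℕ => z.2)
      ((range J).sigma fun j => Ico (K j) (K (j + 1))) := by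
    rintro ⟨j, i⟩ h ⟨j', i'⟩ h' hii
    simp only [coe_sigma, Set.mem_sigma_iff, coe_Ico, Set.mem_Ico] at h h'
    simp only at hii
    subst hii
    have : j = j' := by
      by_contra hne
      rcases Nat.lt_or_gt_of_ne hne with hlt | hlt
      · have := hK.monotone (show j + 1 ≤ j' by omega)
        omega
      · have := hK.monotone (show j' + 1 ≤ j by omega)
        omega
    rw [this]
  have h1 := norm_sum_sg (P := P) hp ((range J).sigma fun j => Ico (K j) (K (j + 1)))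
    (fun z => z.2) hinj (fun z => ev P z.2 (f z.1))
  rw [sum_sigma, sum_sigma] at h1
  simp only [e1]
  rw [h1]
  refine sum_le_sum fun j _ => ?_
  exact sum_ev_le hp _ (fun i => i) (fun _ _ _ _ h => h) (f j)

lemma tr_dual_tendsto (hP1 : 1 < P.toReal) (hPt : P ≠ ∞)
    (y : StrongDual ℂ (lp (fun _ : ℕ => X) P)) :
    Tendsto (fun N => ‖y.comp (1 - tr P X N)‖) atTop (𝓝 0) := by
  have h := Pool.Agent.Y280.comp_tendsto_of_disjoint hP1 (fun N => 1 - tr P X N) ?_ ?_ y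
  · simpa using h.norm
  · intro x
    have := (tr_tendsto hPt x).const_sub x
    rw [sub_self] at this
    exact this
  · intro K hK f J
    exact tr_sub (by linarith) K hK f J

end Pool.Agent.K4H63.TY
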