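import Pool.Agent.K4H63.TY.Ell

/-!
# Copies of the first coordinates of an `ℓ_p`-sum
-/

set_option autoImplicit false
open Finset Filter Topology
open scoped ENNReal

namespace Pool.Agent.K4H63.TY

section norm

variable {E : Type*} [NormedAddCommGroup E] [NormedSpace ℂ E] {p : ℝ} {n : ℕ}
  {Q B : E →L[ℂ] E} {ι π : ℕ → E →L[ℂ] E}

lemma rpow_le_imp {a b p : ℝ} (ha : 0 ≤ a) (hb : 0 ≤ b) (hp : 0 < p) (h : a ^ p ≤ b ^ p) :
    a ≤ b := (Real.rpow_le_rpow_iff ha hb hp).1 h

/-- The norm of the amplified operator. -/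
lemma Copies.norm_amp (h : Copies p n Q ι π) (hp : 0 < p) {r s : ℝ} (hB : ‖B‖ ≤ r)
    {w : ℕ → ℂ} (hw : ∀ a, ‖w a‖ ≤ s) : ‖amp n B w ι π‖ ≤ r + s := by
  have hr : 0 ≤ r := (norm_nonneg _).trans hB
  have hs : 0 ≤ s := (norm_nonneg _).trans (hw 0)
  refine ContinuousLinearMap.opNorm_le_bound _ (by positivity) fun x => ?_
  have e : amp n B w ι π x = ∑ a ∈ range (n + 1), ι a (B (π a x)) +
      ∑ a ∈ range n, ι (a + 1) (w a • π a x) := by
    unfold amp
    simp only [_root_.add_apply, _root_.sum_apply, _root_.smul_apply, mul_apply_eq_comp, map_smul]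
  rw [e, add_mul]
  refine (norm_add_le _ _).trans (add_le_add ?_ ?_)
  · apply rpow_le_imp (norm_nonneg _) (by positivity) hp
    refine (h.nι _).trans ?_
    calc ∑ a ∈ range (n + 1), ‖B (π a x)‖ ^ p ≤ ∑ a ∈ range (n + 1), r ^ p * ‖π a x‖ ^ p := by
          refine sum_le_sum fun a _ => ?_
          rw [← Real.mul_rpow hr (norm_nonneg _)]
          exact Real.rpow_le_rpow (norm_nonneg _) ((B.le_opNorm _).trans
            (mul_le_mul_of_nonneg_right hB (norm_nonneg _))) hp.le
      _ = r ^ p * ∑ a ∈ range (n + 1), ‖π a x‖ ^ p := by rw [mul_sum]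
      _ ≤ r ^ p * ‖x‖ ^ p := mul_le_mul_of_nonneg_left (h.nπ x) (by positivity)
      _ = (r * ‖x‖) ^ p := by rw [Real.mul_rpow hr (norm_nonneg _)]
  · apply rpow_le_imp (norm_nonneg _) (by positivity) hp
    have h1 := h.nι (fun a => if a = 0 then 0 else w (a - 1) • π (a - 1) x)
    have e1 : ∑ a ∈ range (n + 1), ι a (if a = 0 then 0 else w (a - 1) • π (a - 1) x) =
        ∑ a ∈ range n, ι (a + 1) (w a • π a x) := by
      rw [sum_range_succ']
      simp
    have e2 : ∑ a ∈ range (n + 1), ‖(if a = 0 then 0 else w (a - 1) • π (a - 1) x : E)‖ ^ p =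
        ∑ a ∈ range n, ‖w a • π a x‖ ^ p := by
      rw [sum_range_succ']
      simp [Real.zero_rpow hp.ne']
    rw [e1, e2] at h1
    refine h1.trans ?_
    calc ∑ a ∈ range n, ‖w a • π a x‖ ^ p ≤ ∑ a ∈ range n, s ^ p * ‖π a x‖ ^ p := by
          refine sum_le_sum fun a _ => ?_
          rw [← Real.mul_rpow hs (norm_nonneg _), norm_smul]
          exact Real.rpow_le_rpow (by positivity)
            (mul_le_mul_of_nonneg_right (hw a) (norm_nonneg _)) hp.le
      _ ≤ ∑ a ∈ range (n + 1), s ^ p * ‖π a x‖ ^ p :=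
          sum_le_sum_of_subset_of_nonneg (range_subset_range.2 (by omega)) fun a _ _ => by
            positivity
      _ = s ^ p * ∑ a ∈ range (n + 1), ‖π a x‖ ^ p := by rw [mul_sum]
      _ ≤ s ^ p * ‖x‖ ^ p := mul_le_mul_of_nonneg_left (h.nπ x) (by positivity)
      _ = (s * ‖x‖) ^ p := by rw [Real.mul_rpow hs (norm_nonneg _)]

end norm

variable {P : ℝ≥0∞} [hP : Fact (1 ≤ P)] {X : Type*} [NormedAddCommGroup X] [NormedSpace ℂ X]

/-- The place of the `i`-th coordinate of the `a`-th copy. -/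
def kap (N K a i : ℕ) : ℕ := if a = 0 then i else K + a * N + i

lemma kap_inj {N K : ℕ} (hNK : N ≤ K) {a b i j : ℕ} (hi : i < N) (hj : j < N)
    (h : kap N K a i = kap N K b j) : a = b ∧ i = j := by
  unfold kap at h
  by_cases ha : a = 0
  · by_cases hb : b = 0
    · rw [if_pos ha, if_pos hb] at h
      exact ⟨by rw [ha, hb], h⟩
    · rw [if_pos ha, if_neg hb] at h
      omega
  · by_cases hb : b = 0
    · rw [if_neg ha, if_pos hb] at h
      omega
    · rw [if_neg ha, if_neg hb] at h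
      have h1 : a * N + i = b * N + j := by omega
      have hN : 0 < N := by omega
      have h2 : a = b := by
        have e1 : (a * N + i) / N = a := by
          rw [mul_comm, Nat.mul_add_div hN, Nat.div_eq_of_lt hi, add_zero]
        have e2 : (b * N + j) / N = b := by
          rw [mul_comm, Nat.mul_add_div hN, Nat.div_eq_of_lt hj, add_zero]
        rw [← e1, ← e2, h1]
      refine ⟨h2, ?_⟩
      rw [h2] at h1
      omega

/-- The embedding of the first `N` coordinates as the `a`-th copy. -/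
noncomputable def iot (P : ℝ≥0∞) [Fact (1 ≤ P)] (X : Type*) [NormedAddCommGroup X]
    [NormedSpace ℂ X] (N K a : ℕ) : lp (fun _ : ℕ => X) P →L[ℂ] lp (fun _ : ℕ => X) P :=
  ∑ i ∈ range N, (sg P (kap N K a i)).comp (ev P i)

/-- The coordinates of the `a`-th copy. -/
noncomputable def pii (P : ℝ≥0∞) [Fact (1 ≤ P)] (X : Type*) [NormedAddCommGroup X]
    [NormedSpace ℂ X] (N K a : ℕ) : lp (fun _ : ℕ => X) P →L[ℂ] lp (fun _ : ℕ => X) P :=
  ∑ i ∈ range N, (sg P i).comp (ev P (kap N K a i))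

lemma iot_apply (N K a : ℕ) (x : lp (fun _ : ℕ => X) P) :
    iot P X N K a x = ∑ i ∈ range N, sg P (kap N K a i) (ev P i x) := by
  unfold iot
  rw [_root_.sum_apply]
  rfl

lemma pii_apply (N K a : ℕ) (x : lp (fun _ : ℕ => X) P) :
    pii P X N K a x = ∑ i ∈ range N, sg P i (ev P (kap N K a i) x) := by
  unfold pii
  rw [_root_.sum_apply]
  rfl

lemma ev_iot {N K : ℕ} (hNK : N ≤ K) (a b : ℕ) {j : ℕ} (hj : j < N)
    (x : lp (fun _ : ℕ => X) P) :
    ev P (kap N K a j) (iot P X N K b x) = if a = b then ev P j x else 0 := by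
  rw [iot_apply, map_sum]
  simp only [ev_sg]
  split_ifs with hab
  · subst hab
    rw [sum_eq_single j]
    · rw [if_pos rfl]
    · intro i hi hij
      rw [if_neg]
      intro h
      exact hij (kap_inj hNK hj (mem_range.1 hi) h).2.symm
    · intro h
      exact absurd (mem_range.2 hj) h
  · refine sum_eq_zero fun i hi => ?_
    rw [if_neg]
    intro h
    exact hab (kap_inj hNK hj (mem_range.1 hi) h).1

lemma ev_ext {x y : lp (fun _ : ℕ => X) P} (h : ∀ i, ev P i x = ev P i y) : x = y :=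
  lp.ext (funext h)

lemma ev_pii (N K a j : ℕ) (x : lp (fun _ : ℕ => X) P) :
    ev P j (pii P X N K a x) = if j < N then ev P (kap N K a j) x else 0 := by
  rw [pii_apply, map_sum]
  simp only [ev_sg]
  rw [sum_ite_eq]
  simp only [mem_range]

lemma kap_far {N K a i : ℕ} (ha : a ≠ 0) : K ≤ kap N K a i := by
  unfold kap
  rw [if_neg ha]
  exact (Nat.le_add_right _ _).trans (Nat.le_add_right _ _)

lemma copies_ell (hp : 0 < P.toReal) {N K : ℕ} (hNK : N ≤ K) (n : ℕ) :
    Copies P.toReal n (tr P X N) (iot P X N K) (pii P X N K) := by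
  refine ⟨?_, ?_, ?_, ?_, ?_, ?_, ?_, ?_⟩
  · unfold iot tr kap
    simp
  · unfold pii tr kap
    simp
  · ext1 x
    rw [mul_apply_eq_comp]
    refine ev_ext fun i => ?_
    rw [ev_tr, ev_tr]
    split_ifs <;> rfl
  · intro a _ b _
    ext1 x
    rw [mul_apply_eq_comp]
    refine ev_ext fun j => ?_
    rw [ev_pii]
    split_ifs with h1 h2 h2
    · rw [ev_iot hNK a b h1, if_pos h2, ev_tr, if_pos h1]
    · rw [ev_iot hNK a b h1, if_neg h2, _root_.zero_apply, map_zero]
    · rw [ev_tr, if_neg h1]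
    · rw [_root_.zero_apply, map_zero]
  · intro a _
    ext1 x
    rw [mul_apply_eq_comp]
    refine ev_ext fun j => ?_
    rw [ev_tr, ev_pii]
    split_ifs <;> rfl
  · intro a _
    ext1 x
    rw [mul_apply_eq_comp, iot_apply, iot_apply]
    refine sum_congr rfl fun i hi => ?_
    rw [ev_tr, if_pos (mem_range.1 hi)]
  · intro z
    have hinj : Set.InjOn (fun w : (_ : ℕ) × ℕ => kap N K w.1 w.2)
        ((range (n + 1)).sigma fun _ => range N) := by
      rintro ⟨a, i⟩ h ⟨b, j⟩ h' hij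
      simp only [coe_sigma, Set.mem_sigma_iff, coe_range, Set.mem_Iio] at h h'
      obtain ⟨h1, h2⟩ := kap_inj hNK h.2 h'.2 hij
      change a = b at h1
      subst h1 h2
      rfl
    have h1 := norm_sum_sg (P := P) hp ((range (n + 1)).sigma fun _ => range N)
      (fun w => kap N K w.1 w.2) hinj (fun w => ev P w.2 (z w.1))
    rw [sum_sigma, sum_sigma] at h1
    simp only [iot_apply]
    rw [h1]
    exact sum_le_sum fun a _ => sum_ev_le hp _ (fun i => i) (fun _ _ _ _ h => h) (z a)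
  · intro x
    have hinj : Set.InjOn (fun w : (_ : ℕ) × ℕ => kap N K w.1 w.2)
        ((range (n + 1)).sigma fun _ => range N) := by
      rintro ⟨a, i⟩ h ⟨b, j⟩ h' hij
      simp only [coe_sigma, Set.mem_sigma_iff, coe_range, Set.mem_Iio] at h h'
      obtain ⟨h1, h2⟩ := kap_inj hNK h.2 h'.2 hij
      change a = b at h1
      subst h1 h2
      rfl
    have h1 := sum_ev_le (P := P) hp ((range (n + 1)).sigma fun _ => range N)
      (fun w => kap N K w.1 w.2) hinj x
    rw [sum_sigma] at h1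
    refine le_trans (le_of_eq ?_) h1
    refine sum_congr rfl fun a _ => ?_
    rw [pii_apply]
    exact norm_sum_sg hp (range N) (fun i => i) (fun _ _ _ _ h => h)
      (fun i => ev P (kap N K a i) x)

lemma pii_far (hp : 0 < P.toReal) {N K a : ℕ} (hNK : N ≤ K) (ha : a ≠ 0)
    (x : lp (fun _ : ℕ => X) P) : ‖pii P X N K a x‖ ≤ ‖(1 - tr P X K) x‖ := by
  have e : pii P X N K a x = pii P X N K a ((1 - tr P X K) x) := by
    rw [_root_.sub_apply, one_apply_eq_self, map_sub]
    have : pii P X N K a (tr P X K x) = 0 := by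
      rw [pii_apply]
      refine sum_eq_zero fun i _ => ?_
      rw [ev_tr, if_neg (by have := kap_far (N := N) (K := K) (i := i) ha; omega), map_zero]
    rw [this, sub_zero]
  rw [e]
  exact (copies_ell hp hNK a).norm_πx hp le_rfl _

lemma iot_far (hp : 0 < P.toReal) {N K a : ℕ} (hNK : N ≤ K) (ha : a ≠ 0)
    (y : StrongDual ℂ (lp (fun _ : ℕ => X) P)) :
    ‖y.comp (iot P X N K a)‖ ≤ ‖y.comp (1 - tr P X K)‖ := by
  have e : y.comp (iot P X N K a) = (y.comp (1 - tr P X K)).comp (iot P X N K a) := by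
    ext1 x
    simp only [ContinuousLinearMap.comp_apply, _root_.sub_apply, one_apply_eq_self]
    have : tr P X K (iot P X N K a x) = 0 := by
      refine ev_ext fun j => ?_
      rw [ev_tr, map_zero]
      split_ifs with hj
      · rw [iot_apply, map_sum]
        refine sum_eq_zero fun i _ => ?_
        rw [ev_sg, if_neg (by have := kap_far (N := N) (K := K) (i := i) ha; omega)]
      · rfl
    rw [this, sub_zero]
  rw [e]
  exact (ContinuousLinearMap.opNorm_comp_le _ _).trans
    (mul_le_of_le_one_right (norm_nonneg _) ((copies_ell hp hNK a).norm_ι hp le_rfl))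

/-- Copies far away. -/
lemma exists_copies (hP1 : 1 < P.toReal) (hPt : P ≠ ∞) (N n : ℕ)
    (X' : Finset (lp (fun _ : ℕ => X) P)) (Y' : Finset (StrongDual ℂ (lp (fun _ : ℕ => X) P)))
    {ε : ℝ} (hε : 0 < ε) : ∃ K, N ≤ K ∧ Copies P.toReal n (tr P X N) (iot P X N K) (pii P X N K) ∧
      ∀ a ≤ n, a ≠ 0 → (∀ x ∈ X', ‖pii P X N K a x‖ ≤ ε) ∧
        ∀ y ∈ Y', ‖y.comp (iot P X N K a)‖ ≤ ε := by
  have hp : 0 < P.toReal := by linarith
  have h1 : ∀ᶠ K in atTop, ∀ x ∈ X', ‖(1 - tr P X K) x‖ < ε := by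
    rw [eventually_all_finset]
    intro x _
    have h2 := ((tr_tendsto hPt x).const_sub x).norm
    rw [sub_self, norm_zero] at h2
    exact h2.eventually (gt_mem_nhds hε)
  have h2 : ∀ᶠ K in atTop, ∀ y ∈ Y', ‖y.comp (1 - tr P X K)‖ < ε := by
    rw [eventually_all_finset]
    intro y _
    exact (tr_dual_tendsto hP1 hPt y).eventually (gt_mem_nhds hε)
  obtain ⟨K, hK⟩ := ((h1.and h2).and (eventually_ge_atTop N)).exists
  refine ⟨K, hK.2, copies_ell hp hK.2 n, fun a _ ha => ⟨fun x hx => ?_, fun y hy => ?_⟩⟩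
  · exact (pii_far hp hK.2 ha x).trans (hK.1.1 x hx).le
  · exact (iot_far hp hK.2 ha y).trans (hK.1.2 y hy).le

end Pool.Agent.K4H63.TY
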