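import Pool.Agent.K4H63.TY.Lim

/-!
# Separability of the dual of a separable reflexive space; subspaces
-/

set_option autoImplicit false
open Finset Filter Topology TopologicalSpace

namespace Pool.Agent.K4H63.TY

/-- If the dual is separable then so is the space. -/
theorem separable_of_dual (E : Type*) [NormedAddCommGroup E] [NormedSpace ℂ E]
    [SeparableSpace (StrongDual ℂ E)] : SeparableSpace E := by
  classical
  have _ : Nonempty (StrongDual ℂ E) := ⟨0⟩
  let fd : ℕ → StrongDual ℂ E := denseSeq (StrongDual ℂ E)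
  have h1 : ∀ n, ∃ y : E, ‖y‖ ≤ 1 ∧ ‖fd n‖ / 2 ≤ ‖fd n y‖ := by
    intro n
    by_cases h : fd n = 0
    · exact ⟨0, by simp, by simp [h]⟩
    · have hp : 0 < ‖fd n‖ := norm_pos_iff.2 h
      by_contra hcon
      push Not at hcon
      have : ‖fd n‖ ≤ ‖fd n‖ / 2 :=
        ContinuousLinearMap.opNorm_le_of_unit_norm (by positivity) fun x hx => (hcon x hx.le).le
      linarith
  choose x hx1 hx2 using h1
  let W : Submodule ℂ E := Submodule.span ℂ (Set.range x)
  have hsep : IsSeparable (W : Set E) := ((Set.countable_range x).isSeparable).span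
  have htop : closure (W : Set E) = Set.univ := by
    by_contra hne
    obtain ⟨z, hz⟩ := (Set.ne_univ_iff_exists_notMem _).1 hne
    have hcv : Convex ℝ (W : Set E) := (W.restrictScalars ℝ).convex
    obtain ⟨φ, u, hφ1, hφ2⟩ := RCLike.geometric_hahn_banach_closed_point (𝕜 := ℂ) hcv.closure
      isClosed_closure hz
    have h0 : ∀ y ∈ W, φ y = 0 := by
      intro y hy
      by_contra hne
      have h1 := hφ1 _ (subset_closure (W.smul_mem (((u + 1 : ℝ) : ℂ) / φ y) hy))
      rw [map_smul, smul_eq_mul, div_mul_cancel₀ _ hne] at h1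
      have h2 : RCLike.re (((u + 1 : ℝ) : ℂ)) = u + 1 := Complex.ofReal_re _
      rw [h2] at h1
      linarith
    have hu : 0 < u := by
      have h1 := hφ1 0 (subset_closure W.zero_mem)
      rw [map_zero, map_zero] at h1
      exact h1
    have hφ : φ ≠ 0 := by
      intro h
      rw [h] at hφ2
      have : (0 : StrongDual ℂ E) z = 0 := rfl
      rw [this, map_zero] at hφ2
      linarith
    have hp : 0 < ‖φ‖ := norm_pos_iff.2 hφ
    obtain ⟨n, hn⟩ := (denseRange_denseSeq (StrongDual ℂ E)).exists_dist_lt φ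
      (show 0 < ‖φ‖ / 4 by positivity)
    rw [dist_eq_norm] at hn
    have hn' : ‖φ - fd n‖ < ‖φ‖ / 4 := hn
    have h2 : (φ - fd n) (x n) = - fd n (x n) := by
      have : (φ - fd n) (x n) = φ (x n) - fd n (x n) := rfl
      rw [this, h0 _ (Submodule.subset_span ⟨n, rfl⟩), zero_sub]
    have h3 := (φ - fd n).le_opNorm (x n)
    rw [h2, norm_neg] at h3
    have h4 : ‖φ - fd n‖ * ‖x n‖ ≤ ‖φ - fd n‖ * 1 :=
      mul_le_mul_of_nonneg_left (hx1 n) (norm_nonneg _)
    have h6 := hx2 n
    have h7 : ‖φ‖ ≤ ‖φ - fd n‖ + ‖fd n‖ := by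
      have := norm_add_le (φ - fd n) (fd n)
      rwa [sub_add_cancel] at this
    linarith
  have hs : IsSeparable (Set.univ : Set E) := by
    rw [← htop]
    exact hsep.closure
  exact isSeparable_univ_iff.1 hs

/-- The dual of a separable reflexive space is separable. -/
theorem separable_dual {E : Type*} [NormedAddCommGroup E] [NormedSpace ℂ E] [SeparableSpace E]
    (hE : Refl E) : SeparableSpace (StrongDual ℂ E) := by
  have h1 : DenseRange (NormedSpace.inclusionInDoubleDual ℂ E) := hE.denseRange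
  have h2 : SeparableSpace (StrongDual ℂ (StrongDual ℂ E)) :=
    h1.separableSpace (NormedSpace.inclusionInDoubleDual ℂ E).continuous
  exact separable_of_dual (StrongDual ℂ E)

/-- Complemented subspaces of reflexive spaces are reflexive. -/
theorem refl_of_compl {E X : Type*} [NormedAddCommGroup E] [NormedSpace ℂ E]
    [NormedAddCommGroup X] [NormedSpace ℂ X] (hE : Refl E) (s : X →L[ℂ] E) (c : E →L[ℂ] X)
    (hcs : ∀ x, c (s x) = x) : Refl X := by
  intro G
  let G' : StrongDual ℂ (StrongDual ℂ E) := G.comp ((ContinuousLinearMap.compL ℂ X E ℂ).flip s)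
  obtain ⟨z, hz⟩ := hE G'
  refine ⟨c z, ?_⟩
  ext f
  have h1 : NormedSpace.inclusionInDoubleDual ℂ E z (f.comp c) = G' (f.comp c) := by rw [hz]
  have h2 : NormedSpace.inclusionInDoubleDual ℂ X (c z) f = f (c z) := rfl
  have h3 : NormedSpace.inclusionInDoubleDual ℂ E z (f.comp c) = f (c z) := rfl
  have h4 : G' (f.comp c) = G ((f.comp c).comp s) := rfl
  have h5 : (f.comp c).comp s = f := by
    ext x
    show f (c (s x)) = f x
    rw [hcs]
  rw [h2, ← h3, h1, h4, h5]

end Pool.Agent.K4H63.TY
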