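import Pool.Agent.K4H63.TY.Typ
import Pool.Agent.K4H63.TY.Ball
import Pool.Agent.K4H63.TY.Refl
import Pool.Agent.Y280.Transf

/-!
# Typical contractions of `ℓ_p`-sums
-/

set_option autoImplicit false
open Finset Filter Topology TopologicalSpace
open scoped ENNReal
open Pool.Agent.Y280 (SOTStar cj cj_apply cj_symm_cj cj_cj_symm norm_cj continuous_cj_sotStar)

namespace Pool.Agent.K4H63.TY

section general

variable {E : Type} [NormedAddCommGroup E] [NormedSpace ℂ E]

lemma topS_sotStar (C : Set (E →L[ℂ] E)) (hC : ∀ T ∈ C, ‖T‖ ≤ 1) :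
    @TopS E _ _ C (SOTStar C) (fun w => (w : E →L[ℂ] E)) := by
  letI : TopologicalSpace C := SOTStar C
  have hd : Continuous (fun T : C => ((fun x : E => (T : E →L[ℂ] E) x),
    (fun y : StrongDual ℂ E => y.comp (T : E →L[ℂ] E)))) := continuous_induced_dom
  refine ⟨fun w => hC _ w.2, ?_, ?_, ?_⟩
  · intro x
    exact (continuous_apply x).comp (continuous_fst.comp hd)
  · intro y
    exact (continuous_apply y).comp (continuous_snd.comp hd)
  · intro w O hO hw
    obtain ⟨O', hO', rfl⟩ := isOpen_induced_iff.1 hO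
    obtain ⟨U, V, hU, hV, hwU, hwV, hUV⟩ := isOpen_prod_iff.1 hO' _ _ hw
    obtain ⟨X, ε1, hε1, h1⟩ := pi_nhd hU hwU
    obtain ⟨Y, ε2, hε2, h2⟩ := pi_nhd hV hwV
    refine ⟨X, Y, min ε1 ε2, lt_min hε1 hε2, fun w' hX hY => hUV ⟨?_, ?_⟩⟩
    · exact h1 _ fun x hx => (hX x hx).trans_le (min_le_left _ _)
    · exact h2 _ fun y hy => (hY y hy).trans_le (min_le_right _ _)

/-- **Typical elements of an amplifiable class.** -/
theorem typ_class [CompleteSpace E] [Nontrivial E] [SeparableSpace E] (hE : Refl E)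
    {p q : ℝ} (hpq : p.HolderConjugate q) (C : Set (E →L[ℂ] E)) (hC : ∀ T ∈ C, ‖T‖ ≤ 1)
    (hcl : ∀ (w : ℕ → E →L[ℂ] E) (T0 : E →L[ℂ] E), (∀ m, w m ∈ C) →
      (∀ x, Tendsto (fun m => w m x) atTop (𝓝 (T0 x))) → T0 ∈ C) (hne : C.Nonempty)
    (hA : Amp p C) :
    C.Nonempty ∧ @IsCompletelyMetrizableSpace C (SOTStar C) ∧ @BaireSpace C (SOTStar C) ∧
      {T : C | DenselyHyperinvariant (T : E →L[ℂ] E)} ∈ @residual C (SOTStar C) := by
  have hsd := separable_dual hE
  have hcm : @IsCompletelyMetrizableSpace C (SOTStar C) := by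
    refine @cm_abs_star E _ _ C (SOTStar C) _ _ _ (fun T => (T : E →L[ℂ] E)) ?_
      Subtype.val_injective (fun w => hC _ w.2) ?_
    · exact @Topology.IsInducing.mk _ _ (SOTStar C) _ _ rfl
    · intro w T0 h
      exact ⟨⟨T0, hcl (fun m => w m) T0 (fun m => (w m).2) h⟩, rfl⟩
  refine ⟨hne, hcm, ?_, ?_⟩
  · exact @BaireSpace.of_completelyPseudoMetrizable _ (SOTStar C)
      (@IsCompletelyMetrizableSpace.toIsCompletelyPseudoMetrizableSpace _ (SOTStar C) hcm)
  · letI : TopologicalSpace C := SOTStar C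
    have hA' : Amp p (Set.range fun w : C => (w : E →L[ℂ] E)) := by
      rw [Subtype.range_coe]
      exact hA
    have h1 := typ_hyp hE hpq (topS_sotStar C hC) hA'
    exact Filter.mem_of_superset h1 fun T hT => hyp_of_goodH hT

lemma ball_closed (w : ℕ → E →L[ℂ] E) (T0 : E →L[ℂ] E)
    (hw : ∀ m, w m ∈ {T : E →L[ℂ] E | ‖T‖ ≤ 1})
    (h : ∀ x, Tendsto (fun m => w m x) atTop (𝓝 (T0 x))) :
    T0 ∈ {T : E →L[ℂ] E | ‖T‖ ≤ 1} := by
  refine ContinuousLinearMap.opNorm_le_bound _ zero_le_one fun x => ?_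
  refine le_of_tendsto (h x).norm (Eventually.of_forall fun m => ?_)
  exact ((w m).le_opNorm x).trans (mul_le_mul_of_nonneg_right (hw m) (norm_nonneg _))

variable {F : Type} [NormedAddCommGroup F] [NormedSpace ℂ F]

/-- The property to be `DenselyHyperinvariant` is invariant under conjugation. -/
lemma denselyHyperinvariant_cj (e : E ≃ₗᵢ[ℂ] F) (T : E →L[ℂ] E)
    (h : DenselyHyperinvariant (cj e T)) : DenselyHyperinvariant T := by
  intro x₀ ε hε
  obtain ⟨M, hcl, hb, ht, hinv, x, hx, hxe⟩ := h (e x₀) ε hε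
  refine ⟨M.comap (e.toLinearEquiv : E →ₗ[ℂ] F), ?_, ?_, ?_, ?_, e.symm x, ?_, ?_⟩
  · exact hcl.preimage e.continuous
  · intro hbot
    apply hb
    rw [Submodule.eq_bot_iff]
    intro v hv
    have : e.symm v ∈ M.comap (e.toLinearEquiv : E →ₗ[ℂ] F) := by
      show e (e.symm v) ∈ M
      rwa [e.apply_symm_apply]
    rw [hbot, Submodule.mem_bot] at this
    simpa using this
  · intro htop
    apply ht
    rw [Submodule.eq_top_iff']
    intro v
    have : e.symm v ∈ M.comap (e.toLinearEquiv : E →ₗ[ℂ] F) := by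
      rw [htop]
      trivial
    have h2 : e (e.symm v) ∈ M := this
    rwa [e.apply_symm_apply] at h2
  · intro S hS v hv
    have hcomm : cj e S * cj e T = cj e T * cj e S := by
      ext z
      simp only [mul_apply_eq_comp, cj_apply, e.symm_apply_apply]
      have := congrArg (fun R : E →L[ℂ] E => R (e.symm z)) hS
      simp only [mul_apply_eq_comp] at this
      rw [this]
    have h1 := hinv (cj e S) hcomm (e v) hv
    rw [cj_apply, e.symm_apply_apply] at h1
    exact h1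
  · show e (e.symm x) ∈ M
    rwa [e.apply_symm_apply]
  · rw [← e.norm_map, map_sub, e.apply_symm_apply]
    exact hxe

/-- Transfer of the statement through an isometric isomorphism. -/
theorem transfer_star (e : E ≃ₗᵢ[ℂ] F) (C : Set (E →L[ℂ] E)) (C' : Set (F →L[ℂ] F))
    (h : ∀ T, T ∈ C ↔ cj e T ∈ C')
    (hC' : C'.Nonempty ∧ @IsCompletelyMetrizableSpace C' (SOTStar C') ∧
      @BaireSpace C' (SOTStar C') ∧
        {T : C' | DenselyHyperinvariant (T : F →L[ℂ] F)} ∈ @residual C' (SOTStar C')) :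
    C.Nonempty ∧ @IsCompletelyMetrizableSpace C (SOTStar C) ∧ @BaireSpace C (SOTStar C) ∧
      {T : C | DenselyHyperinvariant (T : E →L[ℂ] E)} ∈ @residual C (SOTStar C) := by
  have h' : ∀ T, T ∈ C' ↔ cj e.symm T ∈ C := fun T => by rw [h, cj_cj_symm]
  let f : C ≃ C' :=
    { toFun := fun T => ⟨cj e T, (h T).1 T.2⟩
      invFun := fun T => ⟨cj e.symm T, (h' T).1 T.2⟩
      left_inv := fun T => Subtype.ext (cj_symm_cj e T)
      right_inv := fun T => Subtype.ext (cj_cj_symm e T) }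
  have hc1 : @Continuous C C' (SOTStar C) (SOTStar C') f :=
    continuous_cj_sotStar e C C' f fun _ => rfl
  have hc2 : @Continuous C' C (SOTStar C') (SOTStar C) f.symm :=
    continuous_cj_sotStar e.symm C' C f.symm fun _ => rfl
  obtain ⟨hne, hcm, hb, hr⟩ := hC'
  letI := SOTStar C
  letI := SOTStar C'
  let φ : C ≃ₜ C' := ⟨f, hc1, hc2⟩
  haveI := hcm
  have hcmC : IsCompletelyMetrizableSpace C := φ.isClosedEmbedding.IsCompletelyMetrizableSpace
  refine ⟨?_, hcmC, ?_, ?_⟩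
  · obtain ⟨T, hT⟩ := hne
    exact ⟨cj e.symm T, (h' T).1 hT⟩
  · exact BaireSpace.of_completelyPseudoMetrizable
  · have : φ ⁻¹' {T : C' | DenselyHyperinvariant (T : F →L[ℂ] F)} ∈ residual C := by
      have h1 := φ.symm.residual_map_eq
      rw [← h1, Filter.mem_map, ← Set.preimage_comp]
      simpa using hr
    exact Filter.mem_of_superset this fun T hT => denselyHyperinvariant_cj e T hT

/-- Reflexivity is invariant under isomorphism. -/
lemma refl_equiv (e : E ≃ₗᵢ[ℂ] F) (hE : Refl E) : Refl F :=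
  refl_of_compl hE (e.symm.toContinuousLinearEquiv : F →L[ℂ] E)
    (e.toContinuousLinearEquiv : E →L[ℂ] F) fun x => e.apply_symm_apply x

end general

/-- **Typical contractions of `ℓ_p`-sums.** -/
theorem typ_sum (P : ℝ≥0∞) [Fact (1 ≤ P)] (hP1 : 1 < P) (hPt : P ≠ ∞) (X : Type)
    [NormedAddCommGroup X] [NormedSpace ℂ X] (hX : MAP X) (E : Type) [NormedAddCommGroup E]
    [NormedSpace ℂ E] [CompleteSpace E] [Nontrivial E] [SeparableSpace E] (hE : Refl E)
    (e : E ≃ₗᵢ[ℂ] lp (fun _ : ℕ => X) P) :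
    {T : E →L[ℂ] E | ‖T‖ ≤ 1}.Nonempty ∧
      @IsCompletelyMetrizableSpace {T : E →L[ℂ] E | ‖T‖ ≤ 1} (SOTStar _) ∧
      @BaireSpace {T : E →L[ℂ] E | ‖T‖ ≤ 1} (SOTStar _) ∧
      {T : {T : E →L[ℂ] E | ‖T‖ ≤ 1} | DenselyHyperinvariant (T : E →L[ℂ] E)} ∈
        @residual {T : E →L[ℂ] E | ‖T‖ ≤ 1} (SOTStar _) := by
  have hp1 : 1 < P.toReal := by
    rw [← ENNReal.toReal_one]
    exact (ENNReal.toReal_lt_toReal ENNReal.one_ne_top hPt).2 hP1
  have hZ : Refl (lp (fun _ : ℕ => X) P) := refl_equiv e hE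
  have hXr : Refl X := refl_of_compl hZ (sg P 0) (ev P 0) fun x => by rw [ev_sg, if_pos rfl]
  have hsep : SeparableSpace (lp (fun _ : ℕ => X) P) :=
    e.surjective.denseRange.separableSpace e.continuous
  have hcomp : CompleteSpace (lp (fun _ : ℕ => X) P) :=
    (e.toContinuousLinearEquiv.isUniformEmbedding.isUniformInducing.completeSpace_congr
      e.surjective).1 inferInstance
  have hnt : Nontrivial (lp (fun _ : ℕ => X) P) := e.symm.toEquiv.nontrivial
  refine transfer_star e _ {T : lp (fun _ : ℕ => X) P →L[ℂ] lp (fun _ : ℕ => X) P | ‖T‖ ≤ 1}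
    (fun T => ?_) (typ_class hZ (Real.HolderConjugate.conjExponent hp1) _ (fun T hT => hT)
      ball_closed ⟨0, by simp⟩ (amp_ball hXr hX hp1 hPt))
  show ‖T‖ ≤ 1 ↔ ‖cj e T‖ ≤ 1
  rw [norm_cj]

end Pool.Agent.K4H63.TY
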