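import Pool.Agent.K4H63.TY.Base

/-!
# Weak limits of contractions on reflexive spaces, and semicontinuity
-/

set_option autoImplicit false
open Filter Topology

namespace Pool.Agent.K4H63.TY

variable {E : Type*} [NormedAddCommGroup E] [NormedSpace ℂ E]

/-- `E` is reflexive. -/
def Refl (E : Type*) [NormedAddCommGroup E] [NormedSpace ℂ E] : Prop :=
  Function.Surjective (NormedSpace.inclusionInDoubleDual ℂ E)

/-- A bounded bilinear form on a reflexive space comes from an operator. -/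
lemma exists_op (hE : Refl E) (b : E → StrongDual ℂ E → ℂ) (C : ℝ)
    (h1 : ∀ x x' y, b (x + x') y = b x y + b x' y) (h2 : ∀ (c : ℂ) x y, b (c • x) y = c * b x y)
    (h3 : ∀ x y y', b x (y + y') = b x y + b x y') (h4 : ∀ (c : ℂ) x y, b x (c • y) = c * b x y)
    (hb : ∀ x y, ‖b x y‖ ≤ C * ‖x‖ * ‖y‖) (hC : 0 ≤ C) :
    ∃ S : E →L[ℂ] E, ‖S‖ ≤ C ∧ ∀ x y, y (S x) = b x y := by
  have hx : ∀ x, ∃ z : E, ∀ y : StrongDual ℂ E, y z = b x y := by
    intro x
    let F : StrongDual ℂ E →ₗ[ℂ] ℂ :=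
      { toFun := b x
        map_add' := h3 x
        map_smul' := fun c y => by rw [h4 c x y]; rfl }
    let G : StrongDual ℂ (StrongDual ℂ E) := F.mkContinuous (C * ‖x‖) (hb x)
    obtain ⟨z, hz⟩ := hE G
    refine ⟨z, fun y => ?_⟩
    have : NormedSpace.inclusionInDoubleDual ℂ E z y = G y := by rw [hz]
    exact this
  choose S hS using hx
  have hext : ∀ z z' : E, (∀ y : StrongDual ℂ E, y z = y z') → z = z' := fun z z' h =>
    (SeparatingDual.eq_iff_forall_dual_eq (R := ℂ)).2 h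
  let L : E →ₗ[ℂ] E :=
    { toFun := S
      map_add' := fun x x' => hext _ _ fun y => by rw [map_add, hS, hS, hS, h1]
      map_smul' := fun c x => hext _ _ fun y => by
        rw [RingHom.id_apply, map_smul, hS, hS, h2, smul_eq_mul] }
  have hn : ∀ x, ‖L x‖ ≤ C * ‖x‖ := by
    intro x
    refine NormedSpace.norm_le_dual_bound ℂ _ (by positivity) fun y => ?_
    show ‖y (S x)‖ ≤ _
    rw [hS]
    exact hb x y
  refine ⟨L.mkContinuous C hn, L.mkContinuous_norm_le hC hn, fun x y => hS x y⟩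

/-- Weak limits along ultrafilters. -/
lemma exists_weak_lim (hE : Refl E) {W : Type*} (U : Ultrafilter W) (S : W → E →L[ℂ] E)
    (hS : ∀ w, ‖S w‖ ≤ 1) : ∃ S0 : E →L[ℂ] E, ‖S0‖ ≤ 1 ∧
      ∀ x (y : StrongDual ℂ E), Tendsto (fun w => y (S w x)) U (𝓝 (y (S0 x))) := by
  have hbd : ∀ w x (y : StrongDual ℂ E), ‖y (S w x)‖ ≤ 1 * ‖x‖ * ‖y‖ := by
    intro w x y
    refine (y.le_opNorm _).trans ?_
    rw [one_mul, mul_comm]
    refine mul_le_mul_of_nonneg_right ?_ (norm_nonneg _)
    exact ((S w).le_opNorm x).trans (mul_le_of_le_one_left (norm_nonneg _) (hS w))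
  have hlim : ∀ x (y : StrongDual ℂ E), ∃ c : ℂ, Tendsto (fun w => y (S w x)) U (𝓝 c) := by
    intro x y
    have hK : IsCompact (Metric.closedBall (0:ℂ) (1 * ‖x‖ * ‖y‖)) := isCompact_closedBall _ _
    obtain ⟨c, _, hc⟩ := hK.ultrafilter_le_nhds' (U.map fun w => y (S w x)) (by
      refine Filter.mem_map.2 (Filter.Eventually.of_forall fun w => ?_)
      rw [mem_closedBall_zero_iff]
      exact hbd w x y)
    exact ⟨c, hc⟩
  choose b hb using hlim
  have e1 : ∀ x x' (y : StrongDual ℂ E), b (x + x') y = b x y + b x' y := by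
    intro x x' y
    refine tendsto_nhds_unique (hb (x + x') y) ?_
    refine ((hb x y).add (hb x' y)).congr fun w => ?_
    rw [map_add, map_add]
  have e2 : ∀ (c : ℂ) x (y : StrongDual ℂ E), b (c • x) y = c * b x y := by
    intro c x y
    refine tendsto_nhds_unique (hb (c • x) y) ?_
    refine ((hb x y).const_mul c).congr fun w => ?_
    rw [map_smul, map_smul, smul_eq_mul]
  have e3 : ∀ x (y y' : StrongDual ℂ E), b x (y + y') = b x y + b x y' := by
    intro x y y'
    refine tendsto_nhds_unique (hb x (y + y')) ?_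
    refine ((hb x y).add (hb x y')).congr fun w => ?_
    rw [_root_.add_apply]
  have e4 : ∀ (c : ℂ) x (y : StrongDual ℂ E), b x (c • y) = c * b x y := by
    intro c x y
    refine tendsto_nhds_unique (hb x (c • y)) ?_
    refine ((hb x y).const_mul c).congr fun w => ?_
    rw [_root_.smul_apply, smul_eq_mul]
  have e5 : ∀ x (y : StrongDual ℂ E), ‖b x y‖ ≤ 1 * ‖x‖ * ‖y‖ := by
    intro x y
    exact le_of_tendsto (hb x y).norm (Eventually.of_forall fun w => hbd w x y)
  obtain ⟨S0, h0, h1⟩ := exists_op hE b 1 e1 e2 e3 e4 e5 zero_le_one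
  refine ⟨S0, h0, fun x y => ?_⟩
  rw [h1]
  exact hb x y

/-- The properties of the topology which are used. -/
structure TopS {W : Type*} [TopologicalSpace W] (Φ : W → E →L[ℂ] E) : Prop where
  norm : ∀ w, ‖Φ w‖ ≤ 1
  cx : ∀ x, Continuous fun w => Φ w x
  cy : ∀ y : StrongDual ℂ E, Continuous fun w => y.comp (Φ w)
  nhd : ∀ (w : W) (O : Set W), IsOpen O → w ∈ O → ∃ (X : Finset E) (Y : Finset (StrongDual ℂ E))
    (ε : ℝ), 0 < ε ∧ ∀ w', (∀ x ∈ X, ‖Φ w' x - Φ w x‖ < ε) →
      (∀ y ∈ Y, ‖y.comp (Φ w') - y.comp (Φ w)‖ < ε) → w' ∈ O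

/-- **Semicontinuity** of the norm of the functional `S ↦ y (S x)` on the commutant. -/
theorem mem_interior_HS (hE : Refl E) {W : Type*} [TopologicalSpace W] {Φ : W → E →L[ℂ] E}
    (h : TopS Φ) {x : E} {y : StrongDual ℂ E} {ρ ρ' : ℝ} (hρ : ρ < ρ') {w : W}
    (hw : HC (Φ w) x y ρ) : w ∈ interior (HS Φ x y ρ') := by
  classical
  rw [mem_interior_iff_mem_nhds]
  by_contra hcon
  have h1 : ∃ᶠ v in 𝓝 w, ¬ HC (Φ v) x y ρ' := by
    intro hc
    exact hcon (hc.mono fun v hv => not_not.1 hv)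
  have hne : (𝓝 w ⊓ 𝓟 {v | ¬ HC (Φ v) x y ρ'}).NeBot := by
    rw [Filter.frequently_iff_neBot] at h1
    exact h1
  set U := Ultrafilter.of (𝓝 w ⊓ 𝓟 {v | ¬ HC (Φ v) x y ρ'}) with hU
  have hUle : (U : Filter W) ≤ 𝓝 w ⊓ 𝓟 {v | ¬ HC (Φ v) x y ρ'} := Ultrafilter.of_le _
  have hUw : (U : Filter W) ≤ 𝓝 w := hUle.trans inf_le_left
  have hUb : ∀ᶠ v in (U : Filter W), ¬ HC (Φ v) x y ρ' :=
    (hUle.trans inf_le_right) (Filter.mem_principal_self _)
  have hS : ∀ v, ∃ S : E →L[ℂ] E, ‖S‖ ≤ 1 ∧ (¬ HC (Φ v) x y ρ' → S * Φ v = Φ v * S ∧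
      ρ' < ‖y (S x)‖) := by
    intro v
    by_cases hv : HC (Φ v) x y ρ'
    · exact ⟨0, by simp, fun h' => absurd hv h'⟩
    · have hv' := hv
      unfold HC at hv'
      push Not at hv'
      obtain ⟨S, h1, h2, h3⟩ := hv'
      exact ⟨S, h2, fun _ => ⟨h1, h3⟩⟩
  choose S hS1 hS2 using hS
  obtain ⟨S0, hS0, hlim⟩ := exists_weak_lim hE U S hS1
  have hcomm : S0 * Φ w = Φ w * S0 := by
    ext x'
    refine (SeparatingDual.eq_iff_forall_dual_eq (R := ℂ)).2 fun y' => ?_
    rw [mul_apply_eq_comp, mul_apply_eq_comp]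
    have a1 : Tendsto (fun v => y' (S v (Φ v x'))) U (𝓝 (y' (S0 (Φ w x')))) := by
      have b1 := hlim (Φ w x') y'
      have b2 : Tendsto (fun v => y' (S v (Φ v x' - Φ w x'))) U (𝓝 0) := by
        have b3 : Tendsto (fun v => ‖y'‖ * ‖Φ v x' - Φ w x'‖) (𝓝 w) (𝓝 0) := by
          have b4 : Tendsto (fun v => Φ v x') (𝓝 w) (𝓝 (Φ w x')) := (h.cx x').tendsto w
          have b5 := (b4.sub_const (Φ w x')).norm.const_mul ‖y'‖
          rw [sub_self, norm_zero, mul_zero] at b5
          exact b5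
        refine squeeze_zero_norm (fun v => ?_) (b3.mono_left hUw)
        refine (y'.le_opNorm _).trans (mul_le_mul_of_nonneg_left ?_ (norm_nonneg _))
        exact ((S v).le_opNorm _).trans (mul_le_of_le_one_left (norm_nonneg _) (hS1 v))
      have b6 := b1.add b2
      rw [add_zero] at b6
      refine b6.congr fun v => ?_
      rw [← map_add, ← map_add]
      congr 2
      abel
    have a2 : Tendsto (fun v => y' (Φ v (S v x'))) U (𝓝 (y' (Φ w (S0 x')))) := by
      have b1 := hlim x' (y'.comp (Φ w))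
      have b2 : Tendsto (fun v => (y'.comp (Φ v) - y'.comp (Φ w)) (S v x')) U (𝓝 0) := by
        have b3 : Tendsto (fun v => ‖y'.comp (Φ v) - y'.comp (Φ w)‖ * ‖x'‖) (𝓝 w) (𝓝 0) := by
          have b4 : Tendsto (fun v => y'.comp (Φ v)) (𝓝 w) (𝓝 (y'.comp (Φ w))) :=
            (h.cy y').tendsto w
          have b5 := (b4.sub_const (y'.comp (Φ w))).norm.mul_const ‖x'‖
          rw [sub_self, norm_zero, zero_mul] at b5
          exact b5
        refine squeeze_zero_norm (fun v => ?_) (b3.mono_left hUw)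
        refine (ContinuousLinearMap.le_opNorm _ _).trans
          (mul_le_mul_of_nonneg_left ?_ (norm_nonneg _))
        exact ((S v).le_opNorm _).trans (mul_le_of_le_one_left (norm_nonneg _) (hS1 v))
      have b6 := b1.add b2
      rw [add_zero] at b6
      refine b6.congr fun v => ?_
      rw [_root_.sub_apply, ContinuousLinearMap.comp_apply, ContinuousLinearMap.comp_apply]
      abel
    refine tendsto_nhds_unique a1 (a2.congr' ?_)
    filter_upwards [hUb] with v hv
    have := (hS2 v hv).1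
    have e := congrArg (fun R : E →L[ℂ] E => y' (R x')) this
    simp only [mul_apply_eq_comp] at e
    exact e.symm
  have h2 := hw S0 hcomm hS0
  have h3 : ρ' ≤ ‖y (S0 x)‖ := by
    refine ge_of_tendsto (hlim x y).norm ?_
    filter_upwards [hUb] with v hv
    exact (hS2 v hv).2.le
  linarith

end Pool.Agent.K4H63.TY
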