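import Pool.Agent.K4H63.TY.Lim

/-!
# The metric approximation property on reflexive spaces, for vectors and functionals
-/

set_option autoImplicit false
open Finset Filter Topology

namespace Pool.Agent.K4H63.TY

/-- Metric approximation property: the identity is a pointwise limit of contractions of finite
rank. -/
def MAP (X : Type*) [NormedAddCommGroup X] [NormedSpace ℂ X] : Prop :=
  ∀ (A : Finset X) (ε : ℝ), 0 < ε → ∃ R : X →L[ℂ] X,
    FiniteDimensional ℂ (LinearMap.range (R : X →ₗ[ℂ] X)) ∧ ‖R‖ ≤ 1 ∧ ∀ x ∈ A, ‖R x - x‖ ≤ ε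

variable {X : Type*} [NormedAddCommGroup X] [NormedSpace ℂ X]

lemma finrank_comb {R R' : X →L[ℂ] X} (h : FiniteDimensional ℂ (LinearMap.range (R : X →ₗ[ℂ] X)))
    (h' : FiniteDimensional ℂ (LinearMap.range (R' : X →ₗ[ℂ] X))) (a b : ℂ) :
    FiniteDimensional ℂ (LinearMap.range ((a • R + b • R' : X →L[ℂ] X) : X →ₗ[ℂ] X)) := by
  have hle : LinearMap.range ((a • R + b • R' : X →L[ℂ] X) : X →ₗ[ℂ] X) ≤
      LinearMap.range (R : X →ₗ[ℂ] X) ⊔ LinearMap.range (R' : X →ₗ[ℂ] X) := by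
    rintro _ ⟨x, rfl⟩
    have : ((a • R + b • R' : X →L[ℂ] X) : X →ₗ[ℂ] X) x = a • R x + b • R' x := rfl
    rw [this]
    exact Submodule.add_mem_sup (Submodule.smul_mem _ _ ⟨x, rfl⟩)
      (Submodule.smul_mem _ _ ⟨x, rfl⟩)
  exact Submodule.finiteDimensional_of_le hle

/-- **The property for vectors and functionals.** -/
theorem map2 (hX : Refl X) (hM : MAP X) (A : Finset X) (A' : Finset (StrongDual ℂ X)) {ε : ℝ}
    (hε : 0 < ε) : ∃ R : X →L[ℂ] X,
      FiniteDimensional ℂ (LinearMap.range (R : X →ₗ[ℂ] X)) ∧ ‖R‖ ≤ 1 ∧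
        (∀ x ∈ A, ‖R x - x‖ ≤ ε) ∧ ∀ y ∈ A', ‖y.comp R - y‖ ≤ ε := by
  classical
  let V := (A → X) × (A' → StrongDual ℂ X)
  let kR : (X →L[ℂ] X) → V := fun R => (fun a => R a, fun f => (f : StrongDual ℂ X).comp R)
  set K : Set V := {v | ∃ R : X →L[ℂ] X, FiniteDimensional ℂ (LinearMap.range (R : X →ₗ[ℂ] X)) ∧
    ‖R‖ ≤ 1 ∧ v = kR R} with hK
  have hconv : Convex ℝ K := by
    rintro _ ⟨R, h1, h2, rfl⟩ _ ⟨R', h1', h2', rfl⟩ a b ha hb hab
    refine ⟨(a : ℂ) • R + (b : ℂ) • R', finrank_comb h1 h1' _ _, ?_, ?_⟩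
    · refine (norm_add_le _ _).trans ?_
      rw [norm_smul, norm_smul, Complex.norm_real, Complex.norm_real, Real.norm_of_nonneg ha,
        Real.norm_of_nonneg hb]
      nlinarith
    · refine Prod.ext ?_ ?_
      · funext z
        rfl
      · funext f
        ext z
        simp only [kR, Prod.smul_mk, Prod.mk_add_mk, Pi.add_apply, Pi.smul_apply,
          _root_.add_apply, ContinuousLinearMap.comp_apply, map_add, _root_.smul_apply, map_smul]
        rfl
  have hmem : kR 1 ∈ closure K := by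
    by_contra hcon
    obtain ⟨Ψ, c, h1, h2⟩ := RCLike.geometric_hahn_banach_closed_point (𝕜 := ℂ)
      hconv.closure isClosed_closure hcon
    have hz : ∀ f : A', ∃ z : X, ∀ g : StrongDual ℂ X,
        g z = Ψ ((0 : A → X), Pi.single f g) := by
      intro f
      let G : StrongDual ℂ (StrongDual ℂ X) :=
        Ψ.comp ((ContinuousLinearMap.inr ℂ (A → X) (A' → StrongDual ℂ X)).comp
          (ContinuousLinearMap.single ℂ (fun _ : A' => StrongDual ℂ X) f))
      obtain ⟨z, hz⟩ := hX G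
      refine ⟨z, fun g => ?_⟩
      have : NormedSpace.inclusionInDoubleDual ℂ X z g = G g := by rw [hz]
      exact this
    choose z hz using hz
    have hdec : ∀ v : V, Ψ v = Ψ (v.1, 0) + ∑ f, (v.2 f) (z f) := by
      intro v
      have e1 : v = (v.1, 0) + ∑ f, ((0 : A → X), Pi.single f (v.2 f)) := by
        refine Prod.ext ?_ ?_
        · rw [Prod.fst_add, Prod.fst_sum]
          simp
        · rw [Prod.snd_add, Prod.snd_sum]
          simp only [zero_add]
          exact (Finset.univ_sum_single v.2).symm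
      conv_lhs => rw [e1]
      rw [map_add, map_sum]
      congr 1
      exact sum_congr rfl fun f _ => (hz f (v.2 f)).symm
    set δ : ℝ := (Ψ (kR 1)).re - c with hδ
    have hδ0 : 0 < δ := by
      have h3 : c < (Ψ (kR 1)).re := h2
      rw [hδ]; linarith
    set M : ℝ := ‖Ψ‖ + ∑ f : A', ‖(f : StrongDual ℂ X)‖ + 1 with hM1
    have hΨ0 : 0 ≤ ‖Ψ‖ := ContinuousLinearMap.opNorm_nonneg Ψ
    have hM0 : 0 < M := by positivity
    obtain ⟨R, hR1, hR2, hR3⟩ := hM (A ∪ Finset.univ.image z) (δ / M) (by positivity)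
    have h3 : (Ψ (kR R)).re < c := h1 _ (subset_closure ⟨R, hR1, hR2, rfl⟩)
    have h4 : ‖Ψ (kR R) - Ψ (kR 1)‖ ≤ δ := by
      rw [hdec (kR R), hdec (kR 1)]
      have e2 : Ψ ((kR R).1, 0) + ∑ f, ((kR R).2 f) (z f) -
          (Ψ ((kR 1).1, 0) + ∑ f, ((kR 1).2 f) (z f)) =
          Ψ ((kR R).1 - (kR 1).1, 0) + ∑ f : A', (f : StrongDual ℂ X) (R (z f) - z f) := by
        have e3 : (((kR R).1 - (kR 1).1, 0) : V) = ((kR R).1, 0) - ((kR 1).1, 0) := by
          rw [Prod.mk_sub_mk, sub_zero]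
        rw [e3, map_sub]
        have e4 : ∑ f : A', (f : StrongDual ℂ X) (R (z f) - z f) =
            ∑ f, ((kR R).2 f) (z f) - ∑ f, ((kR 1).2 f) (z f) := by
          rw [← sum_sub_distrib]
          refine sum_congr rfl fun f _ => ?_
          rw [map_sub]
          rfl
        rw [e4]
        ring
      rw [e2]
      have b1 : ‖Ψ ((kR R).1 - (kR 1).1, 0)‖ ≤ ‖Ψ‖ * (δ / M) := by
        refine (Ψ.le_opNorm _).trans (mul_le_mul_of_nonneg_left ?_ hΨ0)
        rw [Prod.norm_def]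
        refine max_le ?_ (by rw [norm_zero]; positivity)
        refine (pi_norm_le_iff_of_nonneg (by positivity)).2 fun a => ?_
        exact hR3 a (mem_union_left _ a.2)
      have b2 : ‖∑ f : A', (f : StrongDual ℂ X) (R (z f) - z f)‖ ≤
          (∑ f : A', ‖(f : StrongDual ℂ X)‖) * (δ / M) := by
        rw [sum_mul]
        refine (norm_sum_le _ _).trans (sum_le_sum fun f _ => ?_)
        refine ((f : StrongDual ℂ X).le_opNorm _).trans
          (mul_le_mul_of_nonneg_left ?_ (norm_nonneg _))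
        exact hR3 _ (mem_union_right _ (mem_image_of_mem _ (mem_univ _)))
      refine (norm_add_le _ _).trans ((add_le_add b1 b2).trans ?_)
      rw [← add_mul]
      have b3 : (‖Ψ‖ + ∑ f : A', ‖(f : StrongDual ℂ X)‖) * (δ / M) ≤ M * (δ / M) :=
        mul_le_mul_of_nonneg_right (by rw [hM1]; linarith) (by positivity)
      refine b3.trans (le_of_eq ?_)
      field_simp
    have h5 := Complex.abs_re_le_norm (Ψ (kR R) - Ψ (kR 1))
    rw [Complex.sub_re] at h5
    have h6 := neg_abs_le ((Ψ (kR R)).re - (Ψ (kR 1)).re)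
    have h7 : (Ψ (kR 1)).re = δ + c := by rw [hδ]; ring
    linarith
  obtain ⟨v, ⟨R, hR1, hR2, rfl⟩, hd⟩ := Metric.mem_closure_iff.1 hmem ε hε
  rw [dist_comm, dist_eq_norm, Prod.norm_def] at hd
  have hd1 := (lt_of_le_of_lt (le_max_left _ _) hd).le
  have hd2 := (lt_of_le_of_lt (le_max_right _ _) hd).le
  refine ⟨R, hR1, hR2, fun x hx => ?_, fun y hy => ?_⟩
  · exact (pi_norm_le_iff_of_nonneg hε.le).1 hd1 ⟨x, hx⟩
  · have := (pi_norm_le_iff_of_nonneg hε.le).1 hd2 ⟨y, hy⟩
    exact this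

end Pool.Agent.K4H63.TY
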