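import Pool.Agent.K4H63.TY.Lim

/-!
# Nuclear representation of functionals on the commutant, on reflexive spaces
-/

set_option autoImplicit false
open Filter Topology Finset

namespace Pool.Agent.K4H63.TY

variable {E : Type*} [NormedAddCommGroup E] [NormedSpace ℂ E]

/-- The commutant as a subspace. -/
def Cm (B : E →L[ℂ] E) : Submodule ℂ (E →L[ℂ] E) where
  carrier := {S | S * B = B * S}
  add_mem' := by
    intro S S' h h'
    simp only [Set.mem_setOf_eq] at h h' ⊢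
    rw [add_mul, mul_add, h, h']
  zero_mem' := by simp
  smul_mem' := by
    intro c S h
    simp only [Set.mem_setOf_eq] at h ⊢
    rw [smul_mul_assoc, mul_smul_comm, h]

section abstract

variable {F : Type*} [NormedAddCommGroup F] [NormedSpace ℂ F] (A : F →ₗ[ℂ] (E →L[ℂ] E))
  (hA : ∀ f, ‖A f‖ = ‖f‖)

include hA in
lemma fn_bound (u : E) (v : StrongDual ℂ E) (f : F) : ‖v (A f u)‖ ≤ ‖u‖ * ‖v‖ * ‖f‖ := by
  calc ‖v (A f u)‖ ≤ ‖v‖ * (‖A f‖ * ‖u‖) :=
        (v.le_opNorm _).trans (mul_le_mul_of_nonneg_left ((A f).le_opNorm u) (norm_nonneg _))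
    _ = ‖u‖ * ‖v‖ * ‖f‖ := by rw [hA]; ring

/-- The functional `f ↦ v (A f u)`. -/
noncomputable def fn (u : E) (v : StrongDual ℂ E) : StrongDual ℂ F :=
  LinearMap.mkContinuous
    { toFun := fun f => v (A f u)
      map_add' := fun f g => by rw [map_add, _root_.add_apply, map_add]
      map_smul' := fun c f => by rw [map_smul, _root_.smul_apply, map_smul]; rfl }
    (‖u‖ * ‖v‖) (fn_bound A hA u v)

lemma fn_apply (u : E) (v : StrongDual ℂ E) (f : F) : fn A hA u v f = v (A f u) := rfl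

lemma fn_norm (u : E) (v : StrongDual ℂ E) : ‖fn A hA u v‖ ≤ ‖u‖ * ‖v‖ :=
  LinearMap.mkContinuous_norm_le _ (by positivity) _

/-- The operator of a functional on the dual of `F`. -/
lemma exists_op_of_bidual (hE : Refl E) (Ψ : StrongDual ℂ (StrongDual ℂ F)) :
    ∃ S : E →L[ℂ] E, ∀ u v, v (S u) = Ψ (fn A hA u v) := by
  have e1 : ∀ x x' (y : StrongDual ℂ E), Ψ (fn A hA (x + x') y) =
      Ψ (fn A hA x y) + Ψ (fn A hA x' y) := by
    intro x x' y
    have : fn A hA (x + x') y = fn A hA x y + fn A hA x' y := by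
      ext S
      simp only [fn_apply, _root_.add_apply, map_add]
    rw [this, map_add]
  have e2 : ∀ (c : ℂ) x (y : StrongDual ℂ E), Ψ (fn A hA (c • x) y) = c * Ψ (fn A hA x y) := by
    intro c x y
    have : fn A hA (c • x) y = c • fn A hA x y := by
      ext S
      simp only [fn_apply, _root_.smul_apply, map_smul]
    rw [this, map_smul, smul_eq_mul]
  have e3 : ∀ x (y y' : StrongDual ℂ E), Ψ (fn A hA x (y + y')) =
      Ψ (fn A hA x y) + Ψ (fn A hA x y') := by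
    intro x y y'
    have : fn A hA x (y + y') = fn A hA x y + fn A hA x y' := by
      ext S
      simp only [fn_apply, _root_.add_apply]
    rw [this, map_add]
  have e4 : ∀ (c : ℂ) x (y : StrongDual ℂ E), Ψ (fn A hA x (c • y)) = c * Ψ (fn A hA x y) := by
    intro c x y
    have : fn A hA x (c • y) = c • fn A hA x y := by
      ext S
      simp only [fn_apply, _root_.smul_apply]
    rw [this, map_smul, smul_eq_mul]
  have e5 : ∀ x (y : StrongDual ℂ E), ‖Ψ (fn A hA x y)‖ ≤ ‖Ψ‖ * ‖x‖ * ‖y‖ := by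
    intro x y
    refine (Ψ.le_opNorm _).trans ?_
    rw [mul_assoc]
    exact mul_le_mul_of_nonneg_left (fn_norm A hA x y) (norm_nonneg _)
  obtain ⟨S, -, hS⟩ := exists_op hE (fun u v => Ψ (fn A hA u v)) ‖Ψ‖ e1 e2 e3 e4 e5
    (ContinuousLinearMap.opNorm_nonneg Ψ)
  exact ⟨S, hS⟩

/-- **Nuclear representation**, abstract form. -/
theorem exists_nuc_abs (hE : Refl E)
    (hcl : ∀ (S : E →L[ℂ] E) (Ψ : StrongDual ℂ (StrongDual ℂ F)),
      (∀ u v, v (S u) = Ψ (fn A hA u v)) → ∃ f, A f = S)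
    {x : E} {y : StrongDual ℂ E} {ρ : ℝ} (hρ : 0 < ρ) (h : ∀ f, ‖f‖ ≤ 1 → ‖y (A f x)‖ ≤ ρ)
    {ε : ℝ} (hε : 0 < ε) :
    ∃ (m : ℕ) (u : Fin m → E) (v : Fin m → StrongDual ℂ E), 0 < m ∧
      ∑ i, ‖u i‖ * ‖v i‖ ≤ ρ ∧ ∀ f, ‖f‖ ≤ 1 → ‖y (A f x) - ∑ i, v i (A f (u i))‖ ≤ ε := by
  classical
  set K : Set (StrongDual ℂ F) := {k | ∃ u v, ‖u‖ * ‖v‖ ≤ ρ ∧ k = fn A hA u v} with hK
  have hmem : fn A hA x y ∈ closure (convexHull ℝ K) := by
    by_contra hcon
    obtain ⟨Ψ, c, h1, h2⟩ := RCLike.geometric_hahn_banach_closed_point (𝕜 := ℂ)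
      (convex_convexHull ℝ K).closure isClosed_closure hcon
    obtain ⟨S, hSΨ⟩ := exists_op_of_bidual A hA hE Ψ
    obtain ⟨f0, hf0⟩ := hcl S Ψ hSΨ
    have hc : ∀ (u : E) (v : StrongDual ℂ E), ‖u‖ * ‖v‖ ≤ ρ → ‖v (S u)‖ ≤ c := by
      intro u v huv
      have h3 : ∀ θ : ℂ, ‖θ‖ = 1 → (θ * v (S u)).re < c := by
        intro θ hθ
        have h4 : fn A hA (θ • u) v ∈ closure (convexHull ℝ K) := by
          apply subset_closure
          apply subset_convexHull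
          exact ⟨θ • u, v, by rw [norm_smul, hθ, one_mul]; exact huv, rfl⟩
        have h5 := h1 _ h4
        rw [← hSΨ, map_smul, map_smul, smul_eq_mul] at h5
        exact h5
      by_cases h0 : v (S u) = 0
      · have h4 := h3 1 (by simp)
        rw [h0, mul_zero, Complex.zero_re] at h4
        rw [h0, norm_zero]
        exact h4.le
      · have hn : ‖v (S u)‖ ≠ 0 := norm_ne_zero_iff.2 h0
        have h4 := h3 (starRingEnd ℂ (v (S u)) / ‖v (S u)‖) (by
          rw [norm_div, RCLike.norm_conj, Complex.norm_real, norm_norm, div_self hn])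
        rw [div_mul_eq_mul_div, mul_comm, Complex.mul_conj, Complex.normSq_eq_norm_sq] at h4
        have e : (((‖v (S u)‖ ^ 2 : ℝ) : ℂ) / (‖v (S u)‖ : ℂ)) = ((‖v (S u)‖ : ℝ) : ℂ) := by
          have hn' : ((‖v (S u)‖ : ℝ) : ℂ) ≠ 0 := by exact_mod_cast hn
          rw [div_eq_iff hn']
          push_cast
          ring
        rw [e, Complex.ofReal_re] at h4
        exact h4.le
    have hc0 : 0 ≤ c := (norm_nonneg _).trans (hc 0 0 (by simp [hρ.le]))
    have hSn : ‖S‖ ≤ c / ρ := by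
      refine ContinuousLinearMap.opNorm_le_bound _ (by positivity) fun u => ?_
      refine NormedSpace.norm_le_dual_bound ℂ _ (by positivity) fun v => ?_
      by_cases hu : u = 0
      · subst hu; simp
      by_cases hv : v = 0
      · subst hv; simp
      have hu0 : 0 < ‖u‖ := norm_pos_iff.2 hu
      have hv0 : 0 < ‖v‖ := norm_pos_iff.2 hv
      set s : ℝ := ρ / (‖u‖ * ‖v‖) with hs
      have hs0 : 0 < s := by positivity
      have h3 := hc ((s : ℂ) • u) v (by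
        rw [norm_smul, Complex.norm_real, Real.norm_of_nonneg hs0.le, hs]
        have : ρ / (‖u‖ * ‖v‖) * ‖u‖ * ‖v‖ = ρ := by field_simp
        rw [this])
      rw [map_smul, map_smul, norm_smul, Complex.norm_real, Real.norm_of_nonneg hs0.le, hs,
        div_mul_eq_mul_div, div_le_iff₀ (by positivity)] at h3
      rw [div_mul_eq_mul_div, div_mul_eq_mul_div, le_div_iff₀ hρ]
      linarith
    have h5 : ‖y (S x)‖ ≤ c := by
      by_cases hS0 : S = 0
      · rw [hS0]; simpa using hc0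
      have hSp : 0 < ‖S‖ := norm_pos_iff.2 hS0
      have hfp : ‖f0‖ = ‖S‖ := by rw [← hA, hf0]
      have h6 := h (((‖S‖⁻¹ : ℝ) : ℂ) • f0) (by
        rw [norm_smul, Complex.norm_real, Real.norm_of_nonneg (by positivity), hfp,
          inv_mul_cancel₀ hSp.ne'])
      rw [map_smul, hf0, _root_.smul_apply, map_smul, norm_smul, Complex.norm_real,
        Real.norm_of_nonneg (by positivity), inv_mul_le_iff₀ hSp] at h6
      have h7 : ‖S‖ * ρ ≤ c := by
        rw [le_div_iff₀ hρ] at hSn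
        exact hSn
      linarith
    have h8 : c < (Ψ (fn A hA x y)).re := h2
    rw [← hSΨ] at h8
    have h9 := Complex.re_le_norm (y (S x))
    linarith
  obtain ⟨k, hk, hkd⟩ := Metric.mem_closure_iff.1 hmem ε hε
  rw [_root_.convexHull_eq] at hk
  obtain ⟨ι, t, w, z, hw0, hw1, hz, hcm⟩ := hk
  have htne : t.Nonempty := by
    by_contra hne
    rw [Finset.not_nonempty_iff_eq_empty] at hne
    rw [hne, Finset.sum_empty] at hw1
    exact zero_ne_one hw1
  have hz' : ∀ i : ι, ∃ (u : E) (v : StrongDual ℂ E), i ∈ t → ‖u‖ * ‖v‖ ≤ ρ ∧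
      z i = fn A hA u v := by
    intro i
    by_cases hi : i ∈ t
    · obtain ⟨u, v, h1, h2⟩ := hz i hi
      exact ⟨u, v, fun _ => ⟨h1, h2⟩⟩
    · exact ⟨0, 0, fun h' => absurd h' hi⟩
  choose u v huv using hz'
  rw [Finset.centerMass_eq_of_sum_1 _ _ hw1] at hcm
  set e := t.equivFin with he
  refine ⟨t.card, fun i => ((w (e.symm i) : ℝ) : ℂ) • u (e.symm i), fun i => v (e.symm i),
    Finset.card_pos.2 htne, ?_, ?_⟩
  · have h1 : ∑ i : Fin t.card, ‖((w (e.symm i) : ℝ) : ℂ) • u (e.symm i)‖ * ‖v (e.symm i)‖ =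
        ∑ i ∈ t, w i * (‖u i‖ * ‖v i‖) := by
      rw [← Finset.sum_coe_sort t, ← e.symm.sum_comp]
      refine sum_congr rfl fun i _ => ?_
      rw [norm_smul, Complex.norm_real, Real.norm_of_nonneg (hw0 _ (e.symm i).2), mul_assoc]
    rw [h1]
    calc ∑ i ∈ t, w i * (‖u i‖ * ‖v i‖) ≤ ∑ i ∈ t, w i * ρ :=
          sum_le_sum fun i hi => mul_le_mul_of_nonneg_left (huv i hi).1 (hw0 i hi)
      _ = ρ := by rw [← Finset.sum_mul, hw1, one_mul]
  · intro f hf
    have h1 : ∑ i : Fin t.card, v (e.symm i) (A f (((w (e.symm i) : ℝ) : ℂ) • u (e.symm i))) =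
        k f := by
      rw [← hcm, _root_.sum_apply, ← Finset.sum_coe_sort t, ← e.symm.sum_comp]
      refine sum_congr rfl fun i _ => ?_
      rw [map_smul, map_smul, _root_.smul_apply, (huv _ (e.symm i).2).2, fn_apply]
      rfl
    rw [h1]
    have h2 : y (A f x) - k f = (fn A hA x y - k) f := rfl
    rw [h2]
    refine (ContinuousLinearMap.le_opNorm _ _).trans ?_
    rw [dist_eq_norm] at hkd
    calc ‖fn A hA x y - k‖ * ‖f‖ ≤ ε * 1 := mul_le_mul hkd.le hf (norm_nonneg _) hε.le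
      _ = ε := mul_one _

end abstract

/-- **Nuclear representation.** -/
theorem exists_nuc (hE : Refl E) (B : E →L[ℂ] E) {x : E} {y : StrongDual ℂ E} {ρ : ℝ}
    (hρ : 0 < ρ) (h : HC B x y ρ) {ε : ℝ} (hε : 0 < ε) :
    ∃ (m : ℕ) (u : Fin m → E) (v : Fin m → StrongDual ℂ E), 0 < m ∧
      ∑ i, ‖u i‖ * ‖v i‖ ≤ ρ ∧ ∀ S : E →L[ℂ] E, S * B = B * S → ‖S‖ ≤ 1 →
        ‖y (S x) - ∑ i, v i (S (u i))‖ ≤ ε := by
  have hA : ∀ f : Cm B, ‖(Cm B).subtype f‖ = ‖f‖ := fun f => rfl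
  have hcl : ∀ (S : E →L[ℂ] E) (Ψ : StrongDual ℂ (StrongDual ℂ (Cm B))),
      (∀ u v, v (S u) = Ψ (fn (F := Cm B) (Cm B).subtype hA u v)) →
        ∃ f, (Cm B).subtype f = S := by
    intro S Ψ hS
    refine ⟨⟨S, ?_⟩, rfl⟩
    show S * B = B * S
    ext x
    refine (SeparatingDual.eq_iff_forall_dual_eq (R := ℂ)).2 fun y => ?_
    rw [mul_apply_eq_comp, mul_apply_eq_comp, hS]
    have e1 : y (B (S x)) = (y.comp B) (S x) := rfl
    rw [e1, hS]
    congr 1
    ext R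
    rw [fn_apply, fn_apply, ContinuousLinearMap.comp_apply]
    have h1 : (R : E →L[ℂ] E) * B = B * (R : E →L[ℂ] E) := R.2
    have h2 := congrArg (fun Q : E →L[ℂ] E => y (Q x)) h1
    simp only [mul_apply_eq_comp] at h2
    exact h2
  obtain ⟨m, u, v, h1, h2, h3⟩ := exists_nuc_abs (F := Cm B) (Cm B).subtype hA hE hcl hρ
    (fun f hf => h f f.2 hf) hε
  exact ⟨m, u, v, h1, h2, fun S hS hS1 => h3 ⟨S, hS⟩ hS1⟩

/-- Scaling of the pairs. -/
lemma exists_scale {p q : ℝ} (hpq : p.HolderConjugate q) (u : E) (v : StrongDual ℂ E) :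
    ∃ (u' : E) (v' : StrongDual ℂ E), (∀ S : E →L[ℂ] E, v' (S u') = v (S u)) ∧
      ‖u'‖ ^ p ≤ ‖u‖ * ‖v‖ ∧ ‖v'‖ ^ q ≤ ‖u‖ * ‖v‖ := by
  have hp := hpq.pos
  have hq := hpq.symm.pos
  by_cases hu : u = 0
  · refine ⟨0, 0, fun S => by rw [hu]; simp, ?_, ?_⟩
    · rw [norm_zero, Real.zero_rpow hp.ne']; positivity
    · rw [norm_zero, Real.zero_rpow hq.ne']; positivity
  by_cases hv : v = 0
  · refine ⟨0, 0, fun S => by rw [hv]; simp, ?_, ?_⟩
    · rw [norm_zero, Real.zero_rpow hp.ne']; positivity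
    · rw [norm_zero, Real.zero_rpow hq.ne']; positivity
  have hu0 : 0 < ‖u‖ := norm_pos_iff.2 hu
  have hv0 : 0 < ‖v‖ := norm_pos_iff.2 hv
  set t : ℝ := ‖v‖ ^ (1 / p) * ‖u‖ ^ (-(1 / q)) with ht
  have ht0 : 0 < t := by positivity
  have h1q : 1 - 1 / q = 1 / p := by
    have := hpq.inv_add_inv_eq_one
    rw [one_div, one_div]
    linarith
  have h1p : 1 - 1 / p = 1 / q := by
    have := hpq.inv_add_inv_eq_one
    rw [one_div, one_div]
    linarith
  have htu : t * ‖u‖ = (‖u‖ * ‖v‖) ^ (1 / p) := by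
    rw [ht, mul_assoc]
    have : ‖u‖ ^ (-(1 / q)) * ‖u‖ = ‖u‖ ^ (1 / p) := by
      conv_lhs => rw [← Real.rpow_one ‖u‖, ← Real.rpow_mul hu0.le, ← Real.rpow_add hu0]
      congr 1
      linarith
    rw [this, Real.mul_rpow hu0.le hv0.le, mul_comm]
  have htv : t⁻¹ * ‖v‖ = (‖u‖ * ‖v‖) ^ (1 / q) := by
    rw [ht, mul_inv, ← Real.rpow_neg hv0.le, ← Real.rpow_neg hu0.le, neg_neg]
    have : ‖v‖ ^ (-(1 / p)) * ‖v‖ = ‖v‖ ^ (1 / q) := by
      conv_lhs => rw [← Real.rpow_one ‖v‖, ← Real.rpow_mul hv0.le, ← Real.rpow_add hv0]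
      congr 1
      linarith
    rw [mul_right_comm, this, Real.mul_rpow hu0.le hv0.le, mul_comm]
  have htC : (t : ℂ) ≠ 0 := by exact_mod_cast ht0.ne'
  refine ⟨(t : ℂ) • u, ((t⁻¹ : ℝ) : ℂ) • v, fun S => ?_, ?_, ?_⟩
  · rw [map_smul, _root_.smul_apply, map_smul, smul_eq_mul, smul_eq_mul, ← mul_assoc,
      Complex.ofReal_inv, inv_mul_cancel₀ htC, one_mul]
  · rw [norm_smul, Complex.norm_real, Real.norm_of_nonneg ht0.le, htu, ← Real.rpow_mul
      (by positivity), one_div_mul_cancel hp.ne', Real.rpow_one]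
  · rw [norm_smul, Complex.norm_real, Real.norm_of_nonneg (by positivity), htv, ← Real.rpow_mul
      (by positivity), one_div_mul_cancel hq.ne', Real.rpow_one]

/-- The representation used in the step. -/
theorem exists_nuc' (hE : Refl E) {p q : ℝ} (hpq : p.HolderConjugate q) (B : E →L[ℂ] E) {x : E}
    {y : StrongDual ℂ E} {ρ : ℝ} (hρ : 0 < ρ) (h : HC B x y ρ) {ε : ℝ} (hε : 0 < ε) :
    ∃ (m : ℕ) (u : Fin m → E) (v : Fin m → StrongDual ℂ E), 0 < m ∧
      ∑ i, ‖u i‖ ^ p ≤ ρ ∧ ∑ i, ‖v i‖ ^ q ≤ ρ ∧ ∀ S : E →L[ℂ] E, S * B = B * S → ‖S‖ ≤ 1 →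
        ‖y (S x) - ∑ i, v i (S (u i))‖ ≤ ε := by
  obtain ⟨m, u, v, hm, h1, h2⟩ := exists_nuc hE B hρ h hε
  choose u' v' h3 h4 h5 using fun i => exists_scale hpq (u i) (v i)
  refine ⟨m, u', v', hm, (sum_le_sum fun i _ => h4 i).trans h1,
    (sum_le_sum fun i _ => h5 i).trans h1, fun S hS hS1 => ?_⟩
  have e : ∑ i, v' i (S (u' i)) = ∑ i, v i (S (u i)) := sum_congr rfl fun i _ => h3 i S
  rw [e]
  exact h2 S hS hS1

end Pool.Agent.K4H63.TY
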