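import Pool.Agent.K4H63.TY.Fin

/-!
# Contractions of `ℓ_p`-sums which preserve a cone
-/

set_option autoImplicit false
open Finset Filter Topology Polynomial TopologicalSpace
open scoped ENNReal
open Pool.Agent.Y280 (SOTStar)

namespace Pool.Agent.K4H63.TY

variable {X : Type*} [NormedAddCommGroup X] [NormedSpace ℂ X]

/-- `K` is a closed convex cone. -/
structure IsCone (K : Set X) : Prop where
  zero : (0 : X) ∈ K
  add : ∀ x ∈ K, ∀ y ∈ K, x + y ∈ K
  smul : ∀ t : ℝ, 0 ≤ t → ∀ x ∈ K, (t : ℂ) • x ∈ K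
  closed : IsClosed K

/-- Approximation of the identity by contractive projections with positive biorthogonal systems. -/
def PosApp (K : Set X) : Prop :=
  ∀ (A : Finset X) (A' : Finset (StrongDual ℂ X)) (ε : ℝ), 0 < ε →
    ∃ (n : ℕ) (b : Fin n → X) (k : Fin n → StrongDual ℂ X), (∀ i, b i ∈ K) ∧
      (∀ i, ∀ x ∈ K, ∃ t : ℝ, 0 ≤ t ∧ k i x = t) ∧
      (∀ i j, k i (b j) = if i = j then 1 else 0) ∧
      ‖∑ i, (k i).smulRight (b i)‖ ≤ 1 ∧
      (∀ x ∈ A, ‖∑ i, k i x • b i - x‖ ≤ ε) ∧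
      ∀ y ∈ A', ‖∑ i, y (b i) • k i - y‖ ≤ ε

variable {P : ℝ≥0∞} [hP : Fact (1 ≤ P)]

/-- The vectors of the sum with all coordinates in `K`. -/
def KK (P : ℝ≥0∞) [Fact (1 ≤ P)] (K : Set X) : Set (lp (fun _ : ℕ => X) P) :=
  {x | ∀ i, ev P i x ∈ K}

/-- The operator preserves the cone. -/
def PosOp (K : Set X) (T : lp (fun _ : ℕ => X) P →L[ℂ] lp (fun _ : ℕ => X) P) : Prop :=
  ∀ x ∈ KK P K, T x ∈ KK P K

section closure

variable {K : Set X} (hK : IsCone K)
include hK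

lemma IsCone.sum {α : Type*} (A : Finset α) (f : α → X) (h : ∀ a ∈ A, f a ∈ K) :
    ∑ a ∈ A, f a ∈ K := by
  classical
  induction A using Finset.induction_on with
  | empty => rw [sum_empty]; exact hK.zero
  | insert a s ha ih =>
    rw [sum_insert ha]
    exact hK.add _ (h a (mem_insert_self _ _)) _ (ih fun b hb => h b (mem_insert_of_mem hb))

lemma KK_zero : (0 : lp (fun _ : ℕ => X) P) ∈ KK P K := fun i => by
  rw [map_zero]; exact hK.zero

lemma KK_add {x y : lp (fun _ : ℕ => X) P} (hx : x ∈ KK P K) (hy : y ∈ KK P K) :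
    x + y ∈ KK P K := fun i => by
  rw [map_add]; exact hK.add _ (hx i) _ (hy i)

lemma KK_smul {t : ℝ} (ht : 0 ≤ t) {x : lp (fun _ : ℕ => X) P} (hx : x ∈ KK P K) :
    (t : ℂ) • x ∈ KK P K := fun i => by
  rw [map_smul]; exact hK.smul t ht _ (hx i)

lemma KK_sum {α : Type*} (A : Finset α) (f : α → lp (fun _ : ℕ => X) P)
    (h : ∀ a ∈ A, f a ∈ KK P K) : ∑ a ∈ A, f a ∈ KK P K := fun i => by
  rw [map_sum]; exact hK.sum A _ fun a ha => h a ha i

lemma KK_sg (i : ℕ) {x : X} (hx : x ∈ K) : sg P i x ∈ KK P K := fun j => by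
  rw [ev_sg]
  split_ifs
  · exact hx
  · exact hK.zero

lemma pos_iot (N L a : ℕ) : PosOp K (iot P X N L a) := fun x hx => by
  rw [iot_apply]
  exact KK_sum hK _ _ fun i _ => KK_sg hK _ (hx i)

lemma pos_pii (N L a : ℕ) : PosOp K (pii P X N L a) := fun x hx => by
  rw [pii_apply]
  exact KK_sum hK _ _ fun i _ => KK_sg hK _ (hx _)

lemma pos_add {S T : lp (fun _ : ℕ => X) P →L[ℂ] lp (fun _ : ℕ => X) P} (hS : PosOp K S)
    (hT : PosOp K T) : PosOp K (S + T) := fun x hx => by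
  rw [_root_.add_apply]
  exact KK_add hK (hS x hx) (hT x hx)

lemma pos_smul {S : lp (fun _ : ℕ => X) P →L[ℂ] lp (fun _ : ℕ => X) P} (hS : PosOp K S)
    {t : ℝ} (ht : 0 ≤ t) : PosOp K ((t : ℂ) • S) := fun x hx => by
  rw [_root_.smul_apply]
  exact KK_smul hK ht (hS x hx)

lemma pos_sum {α : Type*} (A : Finset α)
    (f : α → lp (fun _ : ℕ => X) P →L[ℂ] lp (fun _ : ℕ => X) P) (h : ∀ a ∈ A, PosOp K (f a)) :
    PosOp K (∑ a ∈ A, f a) := fun x hx => by
  rw [_root_.sum_apply]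
  exact KK_sum hK _ _ fun a ha => h a ha x hx

lemma pos_dg (N : ℕ) {R : X →L[ℂ] X} (hR : ∀ x ∈ K, R x ∈ K) : PosOp K (dg P N R) :=
  fun x hx => by
    rw [dg_apply]
    exact KK_sum hK _ _ fun i _ => KK_sg hK _ (hR _ (hx i))

end closure

lemma pos_mul {K : Set X} {S T : lp (fun _ : ℕ => X) P →L[ℂ] lp (fun _ : ℕ => X) P}
    (hS : PosOp K S) (hT : PosOp K T) : PosOp K (S * T) := fun x hx => hS _ (hT x hx)

lemma pos_amp {K : Set X} (hK : IsCone K) {m N L : ℕ}
    {B : lp (fun _ : ℕ => X) P →L[ℂ] lp (fun _ : ℕ => X) P} (hB : PosOp K B) {w : ℕ → ℝ}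
    (hw : ∀ a, 0 ≤ w a) :
    PosOp K (amp m B (fun a => (w a : ℂ)) (iot P X N L) (pii P X N L)) := by
  unfold amp
  refine pos_add hK (pos_sum hK _ _ fun a _ => ?_) (pos_sum hK _ _ fun a _ => ?_)
  · exact pos_mul (pos_mul (pos_iot hK _ _ _) hB) (pos_pii hK _ _ _)
  · exact pos_smul hK (pos_mul (pos_iot hK _ _ _) (pos_pii hK _ _ _)) (hw a)

/-- Diagonal operators close to the identity, from a class of operators on `X`. -/
lemma exists_dg_gen (Q : (X →L[ℂ] X) → Prop)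
    (hQ : ∀ (A : Finset X) (A' : Finset (StrongDual ℂ X)) (ε : ℝ), 0 < ε →
      ∃ R : X →L[ℂ] X, Q R ∧ ‖R‖ ≤ 1 ∧ (∀ x ∈ A, ‖R x - x‖ ≤ ε) ∧
        ∀ y ∈ A', ‖y.comp R - y‖ ≤ ε) (hP1 : 1 < P.toReal) (hPt : P ≠ ∞)
    (A : Finset (lp (fun _ : ℕ => X) P)) (A' : Finset (StrongDual ℂ (lp (fun _ : ℕ => X) P)))
    {ε : ℝ} (hε : 0 < ε) : ∃ (N : ℕ) (R : X →L[ℂ] X), Q R ∧ ‖R‖ ≤ 1 ∧
      (∀ x ∈ A, ‖tr P X N x - x‖ ≤ ε ∧ ‖dg P N R x - x‖ ≤ ε) ∧
      ∀ y ∈ A', ‖y.comp (tr P X N) - y‖ ≤ ε ∧ ‖y.comp (dg P N R) - y‖ ≤ ε := by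
  classical
  have h1 : ∀ᶠ N in atTop, ∀ x ∈ A, ‖(1 - tr P X N) x‖ < ε / 2 := by
    rw [eventually_all_finset]
    intro x _
    have h2 := ((tr_tendsto hPt x).const_sub x).norm
    rw [sub_self, norm_zero] at h2
    exact h2.eventually (gt_mem_nhds (by positivity))
  have h2 : ∀ᶠ N in atTop, ∀ y ∈ A', ‖y.comp (1 - tr P X N)‖ < ε / 2 := by
    rw [eventually_all_finset]
    intro y _
    exact (tr_dual_tendsto hP1 hPt y).eventually (gt_mem_nhds (by positivity))
  obtain ⟨N, hN1, hN2⟩ := (h1.and h2).exists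
  obtain ⟨R, hR1, hR2, hR3, hR4⟩ := hQ
    (A.biUnion fun x => (range N).image fun i => ev P i x)
    (A'.biUnion fun y => (range N).image fun i => y.comp (sg P i))
    (ε / 2 / (N + 1)) (by positivity)
  have hNε : N * (ε / 2 / (N + 1)) ≤ ε / 2 := by
    rw [mul_div_assoc', div_le_iff₀ (by positivity)]
    nlinarith
  refine ⟨N, R, hR1, hR2, fun x hx => ?_, fun y hy => ?_⟩
  · have b1 : ‖tr P X N x - x‖ ≤ ε / 2 := by
      have e : tr P X N x - x = -((1 - tr P X N) x) := by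
        rw [_root_.sub_apply, one_apply_eq_self]; abel
      rw [e, norm_neg]
      exact (hN1 x hx).le
    refine ⟨by linarith, ?_⟩
    have e : dg P N R x - x = ∑ i ∈ range N, sg P i (R (ev P i x) - ev P i x) +
        (tr P X N x - x) := by
      rw [dg_apply, tr_apply]
      simp only [map_sub, sum_sub_distrib]
      abel
    rw [e]
    have b2 : ‖∑ i ∈ range N, sg P i (R (ev P i x) - ev P i x)‖ ≤ N * (ε / 2 / (N + 1)) := by
      refine (norm_sum_le _ _).trans
        ((sum_le_sum (g := fun _ => ε / 2 / ((N : ℝ) + 1)) fun i hi => ?_).trans ?_)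
      · rw [sg_apply, lp.norm_single (zero_lt_one.trans_le hP.out)]
        exact hR3 _ (mem_biUnion.2 ⟨x, hx, mem_image_of_mem _ hi⟩)
      · rw [sum_const, card_range, nsmul_eq_mul]
    refine (norm_add_le _ _).trans ?_
    linarith
  · have b1 : ‖y.comp (tr P X N) - y‖ ≤ ε / 2 := by
      have e : y.comp (tr P X N) - y = -(y.comp (1 - tr P X N)) := by
        ext z
        simp only [_root_.sub_apply, ContinuousLinearMap.comp_apply, _root_.neg_apply,
          one_apply_eq_self, map_sub]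
        ring
      rw [e, norm_neg]
      exact (hN2 y hy).le
    refine ⟨by linarith, ?_⟩
    have e : y.comp (dg P N R) - y = ∑ i ∈ range N,
        ((y.comp (sg P i)).comp R - y.comp (sg P i)).comp (ev P i) +
        (y.comp (tr P X N) - y) := by
      ext z
      simp only [_root_.sub_apply, ContinuousLinearMap.comp_apply, _root_.add_apply,
        _root_.sum_apply, dg_apply, tr_apply, map_sum, sum_sub_distrib]
      ring
    rw [e]
    have hev : ∀ i, ‖(ev P i : lp (fun _ : ℕ => X) P →L[ℂ] X)‖ ≤ 1 := by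
      intro i
      refine ContinuousLinearMap.opNorm_le_bound _ zero_le_one fun z => ?_
      rw [one_mul, ev_apply]
      exact lp.norm_apply_le_norm (zero_lt_one.trans_le hP.out).ne' z i
    have b2 : ‖∑ i ∈ range N,
        ((y.comp (sg P i)).comp R - y.comp (sg P i)).comp (ev P i)‖ ≤
          N * (ε / 2 / (N + 1)) := by
      refine (norm_sum_le _ _).trans
        ((sum_le_sum (g := fun _ => ε / 2 / ((N : ℝ) + 1)) fun i hi => ?_).trans ?_)
      · refine (ContinuousLinearMap.opNorm_comp_le _ _).trans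
          ((mul_le_of_le_one_right (norm_nonneg _) (hev i)).trans ?_)
        exact hR4 _ (mem_biUnion.2 ⟨y, hy, mem_image_of_mem _ hi⟩)
      · rw [sum_const, card_range, nsmul_eq_mul]
    refine (norm_add_le _ _).trans ?_
    linarith

/-- The operators `∑ k i ⊗ b i` with positive biorthogonal systems. -/
def QQ (K : Set X) (R : X →L[ℂ] X) : Prop :=
  ∃ (n : ℕ) (b : Fin n → X) (k : Fin n → StrongDual ℂ X), (∀ i, b i ∈ K) ∧
    (∀ i, ∀ x ∈ K, ∃ t : ℝ, 0 ≤ t ∧ k i x = t) ∧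
    (∀ i j, k i (b j) = if i = j then 1 else 0) ∧ R = ∑ i, (k i).smulRight (b i)

/-- **The cone preserving contractions of an `ℓ_p`-sum are amplifiable.** -/
theorem amp_cone {K : Set X} (hK : IsCone K) (hA : PosApp K) (hP1 : 1 < P.toReal)
    (hPt : P ≠ ∞) :
    Amp P.toReal {T : lp (fun _ : ℕ => X) P →L[ℂ] lp (fun _ : ℕ => X) P |
      ‖T‖ ≤ 1 ∧ PosOp K T} := by
  classical
  have hp : 0 < P.toReal := by linarith
  intro T hTC A A' ε hε
  obtain ⟨hT, hTp⟩ := hTC
  set M : ℝ := ∑ x ∈ A, ‖x‖ + ∑ y ∈ A', ‖y‖ + 1 with hMd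
  have hM1 : 0 ≤ ∑ x ∈ A, ‖x‖ := sum_nonneg fun _ _ => norm_nonneg _
  have hM2 : 0 ≤ ∑ y ∈ A', ‖y‖ := sum_nonneg fun _ _ => norm_nonneg _
  have hM0 : 0 < M := by rw [hMd]; linarith
  have hMA : ∀ x ∈ A, ‖x‖ ≤ M := by
    intro x hx
    have h1 := single_le_sum (f := fun x : lp (fun _ : ℕ => X) P => ‖x‖)
      (fun _ _ => norm_nonneg _) hx
    rw [hMd]
    linarith
  have hMA' : ∀ y ∈ A', ‖y‖ ≤ M := by
    intro y hy
    have h1 := single_le_sum (f := fun y : StrongDual ℂ (lp (fun _ : ℕ => X) P) => ‖y‖)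
      (fun _ _ => norm_nonneg _) hy
    rw [hMd]
    linarith
  set τ : ℝ := min (1 / 2) (ε / (4 * M)) with hτ
  have hτ0 : 0 < τ := lt_min (by norm_num) (by positivity)
  have hτ1 : τ ≤ 1 / 2 := min_le_left _ _
  have hτM : τ * M ≤ ε / 4 := by
    have : τ ≤ ε / (4 * M) := min_le_right _ _
    rw [le_div_iff₀ (by positivity)] at this
    linarith
  obtain ⟨N, R, ⟨n, b0, k0, hb0, hk0, hkb0, hRe⟩, hR2, hR3, hR4⟩ := exists_dg_gen (P := P) (QQ K)
    (fun A A' ε hε => by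
      obtain ⟨n, b, k, h1, h2, h3, h4, h5, h6⟩ := hA A A' ε hε
      refine ⟨∑ i, (k i).smulRight (b i), ⟨n, b, k, h1, h2, h3, rfl⟩, h4, fun x hx => ?_,
        fun y hy => ?_⟩
      · have := h5 x hx
        rw [_root_.sum_apply]
        simpa only [ContinuousLinearMap.smulRight_apply] using this
      · have e : y.comp (∑ i, (k i).smulRight (b i)) = ∑ i, y (b i) • k i := by
          ext z
          simp only [ContinuousLinearMap.comp_apply, _root_.sum_apply, map_sum,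
            ContinuousLinearMap.smulRight_apply, map_smul, _root_.smul_apply, smul_eq_mul]
          exact sum_congr rfl fun i _ => mul_comm _ _
        rw [e]
        exact h6 y hy) hP1 hPt
    (A ∪ A.image fun x => T x) (A' ∪ A'.image fun y => y.comp T)
    (show 0 < ε / 4 by positivity)
  have hRx : ∀ x, R x = ∑ i, k0 i x • b0 i := by
    intro x
    rw [hRe, _root_.sum_apply]
    rfl
  have hRpos : ∀ x ∈ K, R x ∈ K := by
    intro x hx
    rw [hRx]
    refine hK.sum _ _ fun i _ => ?_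
    obtain ⟨t, ht, hkt⟩ := hk0 i x hx
    rw [hkt]
    exact hK.smul t ht _ (hb0 i)
  have hkR : ∀ i x, k0 i (R x) = k0 i x := by
    intro i x
    rw [hRx, map_sum]
    simp only [map_smul, hkb0, smul_eq_mul, mul_ite, mul_one, mul_zero]
    rw [sum_ite_eq]
    simp
  set Q := tr P X N with hQ
  set D := dg P N R with hD
  have hD1 : ‖D‖ ≤ 1 := norm_dg hp N hR2
  have hQD : Q * D = D := tr_dg N R
  have hDQ : D * Q = D := dg_tr N R
  have hQQ : Q * Q = Q := (copies_ell (P := P) (X := X) hp (le_refl N) 0).PP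
  have hDpos : PosOp K D := pos_dg hK N hRpos
  -- the biorthogonal system of the range
  set E := finProdFinEquiv (m := N) (n := n) with hE
  set b : Fin (N * n) → lp (fun _ : ℕ => X) P := fun z =>
    sg P ((E.symm z).1 : ℕ) (b0 (E.symm z).2) with hb
  set k : Fin (N * n) → StrongDual ℂ (lp (fun _ : ℕ => X) P) := fun z =>
    (k0 (E.symm z).2).comp (ev P ((E.symm z).1 : ℕ)) with hk
  have hkb : ∀ i j, k i (b j) = if i = j then 1 else 0 := by
    intro i j
    simp only [hk, hb, ContinuousLinearMap.comp_apply, ev_sg]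
    by_cases hij : i = j
    · subst hij
      rw [if_pos rfl, if_pos rfl, hkb0, if_pos rfl]
    · rw [if_neg hij]
      by_cases h1 : ((E.symm i).1 : ℕ) = (E.symm j).1
      · rw [if_pos h1, hkb0, if_neg]
        intro h2
        apply hij
        apply E.symm.injective
        exact Prod.ext (Fin.ext h1) h2
      · rw [if_neg h1, map_zero]
  have hbK : ∀ i, b i ∈ KK P K := fun i => KK_sg hK _ (hb0 _)
  have hkK : ∀ i, ∀ x ∈ KK P K, ∃ t : ℝ, 0 ≤ t ∧ k i x = t := fun i x hx => hk0 _ _ (hx _)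
  have hDe : ∀ x, D x = ∑ i, k i (D x) • b i := by
    intro x
    have h1 : ∑ i, k i (D x) • b i = ∑ z : Fin N × Fin n,
        k0 z.2 (ev P (z.1 : ℕ) (D x)) • sg P (z.1 : ℕ) (b0 z.2) := by
      rw [← E.sum_comp]
      refine sum_congr rfl fun z _ => ?_
      simp only [hk, hb, Equiv.symm_apply_apply, ContinuousLinearMap.comp_apply]
    rw [h1, Fintype.sum_prod_type]
    have h2 : D x = ∑ j : Fin N, sg P (j : ℕ) (R (ev P (j : ℕ) x)) := by
      rw [hD, dg_apply, ← Fin.sum_univ_eq_sum_range (fun j => sg P j (R (ev P j x))) N]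
    conv_lhs => rw [h2]
    refine sum_congr rfl fun j _ => ?_
    have h3 : ev P (j : ℕ) (D x) = R (ev P (j : ℕ) x) := by
      rw [hD, ev_dg, if_pos j.2]
    simp only [h3, hkR]
    rw [hRx, map_sum]
    simp only [map_smul]
  set B0 : lp (fun _ : ℕ => X) P →L[ℂ] lp (fun _ : ℕ => X) P :=
    (((1 - τ : ℝ)) : ℂ) • (D * T * D) with hB0
  have hB0n : ‖B0‖ ≤ 1 - τ := by
    rw [hB0, norm_smul, Complex.norm_real, Real.norm_of_nonneg (by linarith)]
    refine mul_le_of_le_one_right (by linarith) ?_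
    calc ‖D * T * D‖ ≤ ‖D * T‖ * ‖D‖ := norm_mul_le _ _
      _ ≤ (‖D‖ * ‖T‖) * ‖D‖ := mul_le_mul_of_nonneg_right (norm_mul_le _ _) (norm_nonneg _)
      _ ≤ (1 * 1) * 1 := mul_le_mul (mul_le_mul hD1 hT (norm_nonneg _) zero_le_one) hD1
          (norm_nonneg _) (by norm_num)
      _ = 1 := by norm_num
  have hB0x : ∀ x, B0 x = D ((((1 - τ : ℝ)) : ℂ) • T (D x)) := by
    intro x
    rw [hB0, _root_.smul_apply, mul_apply_eq_comp, mul_apply_eq_comp, map_smul]
  have hB0e : ∀ x, B0 x = ∑ i, k i (B0 x) • b i := by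
    intro x
    rw [hB0x]
    exact hDe _
  obtain ⟨t, χ, ht0, htn, hχ, hs⟩ := exists_sep_pert b k hkb B0 hB0e
    (show 0 < τ / 2 by positivity)
  set D1 : lp (fun _ : ℕ => X) P →L[ℂ] lp (fun _ : ℕ => X) P :=
    ∑ i, ((t i : ℝ) : ℂ) • (k i).smulRight (b i) with hD1'
  have hD1pos : PosOp K D1 := by
    intro x hx
    rw [hD1', _root_.sum_apply]
    refine KK_sum hK _ _ fun i _ => ?_
    rw [_root_.smul_apply, ContinuousLinearMap.smulRight_apply]
    obtain ⟨s, hs, hks⟩ := hkK i x hx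
    rw [hks]
    exact KK_smul hK (ht0 i) (KK_smul hK hs (hbK i))
  have hQbi : ∀ i, Q (b i) = b i := by
    intro i
    simp only [hb]
    refine ev_ext fun j => ?_
    rw [hQ, ev_tr, ev_sg]
    have := (E.symm i).1.2
    split_ifs with h1 h2 h3
    · rfl
    · rfl
    · omega
    · rfl
  have hQD1 : Q * D1 = D1 := by
    ext1 x
    rw [mul_apply_eq_comp, hD1']
    simp only [_root_.sum_apply, _root_.smul_apply, ContinuousLinearMap.smulRight_apply, map_sum,
      map_smul, hQbi]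
  have hD1Q : D1 * Q = D1 := by
    ext1 x
    rw [mul_apply_eq_comp, hD1']
    simp only [_root_.sum_apply, _root_.smul_apply, ContinuousLinearMap.smulRight_apply]
    refine sum_congr rfl fun i _ => ?_
    congr 2
    simp only [hk, ContinuousLinearMap.comp_apply]
    rw [hQ, ev_tr, if_pos (E.symm i).1.2]
  have hQB0 : Q * B0 = B0 := by
    rw [hB0, mul_smul_comm, ← mul_assoc, ← mul_assoc, hQD]
  have hB0Q : B0 * Q = B0 := by
    rw [hB0, smul_mul_assoc, mul_assoc, hDQ]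
  have hBn : ‖B0 + D1‖ ≤ 1 - τ / 2 := by
    refine (norm_add_le _ _).trans ?_
    linarith
  have hBpos : PosOp K (B0 + D1) :=
    pos_add hK (pos_smul hK (pos_mul (pos_mul hDpos hTp) hDpos) (by linarith)) hD1pos
  have hτn : ‖((((1 - τ : ℝ)) : ℂ) - 1)‖ = τ := by
    have e1 : (((1 - τ : ℝ)) : ℂ) - 1 = ((-τ : ℝ) : ℂ) := by push_cast; ring
    rw [e1, Complex.norm_real, norm_neg, Real.norm_of_nonneg hτ0.le]
  have hcn : ‖D * T * D‖ ≤ 1 := by
    calc ‖D * T * D‖ ≤ ‖D * T‖ * ‖D‖ := norm_mul_le _ _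
      _ ≤ (‖D‖ * ‖T‖) * ‖D‖ := mul_le_mul_of_nonneg_right (norm_mul_le _ _) (norm_nonneg _)
      _ ≤ (1 * 1) * 1 := mul_le_mul (mul_le_mul hD1 hT (norm_nonneg _) zero_le_one) hD1
          (norm_nonneg _) (by norm_num)
      _ = 1 := by norm_num
  refine ⟨Q, B0 + D1, 1 - τ / 2, χ, ?_, norm_tr hp N, hQQ, ?_, ?_, by linarith, hBn, hχ, hs,
    ?_, ?_, ?_⟩
  · exact ⟨by linarith, hBpos⟩
  · rw [mul_add, hQB0, hQD1]
  · rw [add_mul, hB0Q, hD1Q]
  · intro x hx
    refine ⟨(hR3 x (mem_union_left _ hx)).1.trans (by linarith), ?_⟩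
    have h1 := compr hT hD1 (hR3 x (mem_union_left _ hx)).2
      (hR3 (T x) (mem_union_right _ (mem_image_of_mem _ hx))).2
    have e : (B0 + D1) x - T x = ((((1 - τ : ℝ)) : ℂ) - 1) • (D * T * D) x + D1 x +
        ((D * T * D) x - T x) := by
      rw [_root_.add_apply, hB0, _root_.smul_apply, sub_smul, one_smul]
      abel
    rw [e]
    refine (norm_add₃_le).trans ?_
    rw [norm_smul, hτn]
    have b1 : ‖(D * T * D) x‖ ≤ M := ((D * T * D).le_opNorm x).trans
      ((mul_le_of_le_one_left (norm_nonneg _) hcn).trans (hMA x hx))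
    have b2 : ‖D1 x‖ ≤ τ / 2 * M := (D1.le_opNorm x).trans
      (mul_le_mul htn (hMA x hx) (norm_nonneg _) (by positivity))
    have b3 : τ * ‖(D * T * D) x‖ ≤ τ * M := mul_le_mul_of_nonneg_left b1 hτ0.le
    linarith
  · intro y hy
    refine ⟨(hR4 y (mem_union_left _ hy)).1.trans (by linarith), ?_⟩
    have h1 := compr' hT hD1 (by positivity) (hR4 y (mem_union_left _ hy)).2
      (hR4 (y.comp T) (mem_union_right _ (mem_image_of_mem _ hy))).2
    have e : y.comp (B0 + D1) - y.comp T = ((((1 - τ : ℝ)) : ℂ) - 1) • y.comp (D * T * D) +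
        y.comp D1 + (y.comp (D * T * D) - y.comp T) := by
      ext z
      simp only [hB0, ContinuousLinearMap.comp_apply, _root_.add_apply, _root_.sub_apply,
        _root_.smul_apply, map_add, map_smul, smul_eq_mul]
      ring
    rw [e]
    refine (norm_add₃_le).trans ?_
    rw [norm_smul, hτn]
    have b1 : ‖y.comp (D * T * D)‖ ≤ M := (ContinuousLinearMap.opNorm_comp_le _ _).trans
      ((mul_le_of_le_one_right (norm_nonneg _) hcn).trans (hMA' y hy))
    have b2 : ‖y.comp D1‖ ≤ M * (τ / 2) := (ContinuousLinearMap.opNorm_comp_le _ _).trans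
      (mul_le_mul (hMA' y hy) htn (norm_nonneg _) hM0.le)
    have b3 : τ * ‖y.comp (D * T * D)‖ ≤ τ * M := mul_le_mul_of_nonneg_left b1 hτ0.le
    linarith
  · intro m X' Y' ε' hε'
    obtain ⟨L, hNL, hcop, hfar⟩ := exists_copies (P := P) (X := X) hP1 hPt N m X' Y' hε'
    refine ⟨_, _, hcop, hfar, fun w hw => ⟨?_, pos_amp hK hBpos fun a => (hw a).1⟩⟩
    have h1 := hcop.norm_amp hp hBn (w := fun a => (w a : ℂ)) (s := 1 - (1 - τ / 2)) (fun a => by
      rw [Complex.norm_real, Real.norm_of_nonneg (hw a).1]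
      exact (hw a).2)
    linarith

end Pool.Agent.K4H63.TY
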