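import Pool.Agent.K4H63.TY.Ell
import Pool.Agent.K4H63.TY.Refl

/-!
# `ℓ_p`-sums of separable reflexive spaces are separable and reflexive
-/

set_option autoImplicit false
open Finset Filter Topology TopologicalSpace
open scoped ENNReal

namespace Pool.Agent.K4H63.TY

variable {P : ℝ≥0∞} [hP : Fact (1 ≤ P)] {X : Type*} [NormedAddCommGroup X] [NormedSpace ℂ X]

/-- `ℓ_p`-sums of separable spaces are separable. -/
theorem separable_sum (hPt : P ≠ ∞) [SeparableSpace X] :
    SeparableSpace (lp (fun _ : ℕ => X) P) := by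
  rw [← isSeparable_univ_iff]
  have h1 : ∀ N : ℕ, IsSeparable (Set.range fun u : Fin N → X => ∑ i : Fin N, sg P (i : ℕ) (u i)) := by
    intro N
    apply isSeparable_range
    exact continuous_finsetSum _ fun i _ => (sg P (i : ℕ)).continuous.comp (continuous_apply i)
  have h2 := (IsSeparable.iUnion h1).closure
  refine h2.mono fun x _ => ?_
  refine mem_closure_of_tendsto (tr_tendsto hPt x) (Eventually.of_forall fun N => ?_)
  refine Set.mem_iUnion.2 ⟨N, ⟨fun i => ev P (i : ℕ) x, ?_⟩⟩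
  rw [tr_apply, ← Fin.sum_univ_eq_sum_range (fun i => sg P i (ev P i x)) N]

/-- The norm of a functional with finitely many coordinates. -/
lemma norm_fnl (hp : 0 < P.toReal) {q : ℝ} (hpq : P.toReal.HolderConjugate q) (N : ℕ)
    (f : ℕ → StrongDual ℂ X) :
    ‖∑ i ∈ range N, (f i).comp (ev P i : lp (fun _ : ℕ => X) P →L[ℂ] X)‖ ≤
      (∑ i ∈ range N, ‖f i‖ ^ q) ^ (1 / q) := by
  have hq := hpq.symm.pos
  have h0 : 0 ≤ ∑ i ∈ range N, ‖f i‖ ^ q :=
    sum_nonneg fun _ _ => Real.rpow_nonneg (norm_nonneg _) _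
  refine ContinuousLinearMap.opNorm_le_bound _ (by positivity) fun x => ?_
  rw [_root_.sum_apply]
  have h1 : ‖∑ i ∈ range N, ((f i).comp (ev P i)) x‖ ≤
      ∑ i ∈ range N, ‖f i‖ * ‖ev P i x‖ :=
    (norm_sum_le _ _).trans (sum_le_sum fun i _ => (f i).le_opNorm _)
  refine h1.trans ?_
  have h2 := Real.inner_le_Lp_mul_Lq (range N) (fun i => ‖f i‖) (fun i => ‖ev P i x‖)
    hpq.symm
  simp only [abs_norm] at h2
  refine h2.trans (mul_le_mul_of_nonneg_left ?_ (by positivity))
  have h4 := Real.rpow_le_rpow (sum_nonneg fun _ _ => Real.rpow_nonneg (norm_nonneg _) _)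
    (sum_ev_le (P := P) hp (range N) (fun i => i) (fun _ _ _ _ h => h) x)
    (show 0 ≤ 1 / P.toReal by positivity)
  rwa [← Real.rpow_mul (norm_nonneg _), mul_one_div_cancel hp.ne', Real.rpow_one] at h4

/-- **`ℓ_p`-sums of reflexive spaces are reflexive.** -/
theorem refl_sum (hP1 : 1 < P.toReal) (hPt : P ≠ ∞) (hX : Refl X) :
    Refl (lp (fun _ : ℕ => X) P) := by
  have hp : 0 < P.toReal := by linarith
  set p := P.toReal with hpdef
  have hpq : p.HolderConjugate (p.conjExponent) := Real.HolderConjugate.conjExponent hP1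
  set q := p.conjExponent with hqd
  have hq := hpq.symm.pos
  intro G
  have hx : ∀ i : ℕ, ∃ x : X, ∀ f : StrongDual ℂ X, f x = G (f.comp (ev P i)) := by
    intro i
    let G' : StrongDual ℂ (StrongDual ℂ X) :=
      G.comp ((ContinuousLinearMap.compL ℂ (lp (fun _ : ℕ => X) P) X ℂ).flip (ev P i))
    obtain ⟨x, hx⟩ := hX G'
    refine ⟨x, fun f => ?_⟩
    have h1 : NormedSpace.inclusionInDoubleDual ℂ X x f = G' f := by rw [hx]
    exact h1
  choose x hx using hx
  have hsum : ∀ N (f : ℕ → StrongDual ℂ X),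
      G (∑ i ∈ range N, (f i).comp (ev P i)) = ∑ i ∈ range N, f i (x i) := by
    intro N f
    rw [map_sum]
    exact sum_congr rfl fun i _ => (hx i (f i)).symm
  have hG0 : 0 ≤ ‖G‖ := ContinuousLinearMap.opNorm_nonneg G
  have hbound : ∀ N, ∑ i ∈ range N, ‖x i‖ ^ p ≤ ‖G‖ ^ p := by
    intro N
    have h1 : ∀ i, ∃ g : StrongDual ℂ X, ‖g‖ ≤ 1 ∧ g (x i) = ‖x i‖ := fun i =>
      exists_dual_vector'' ℂ (x i)
    choose g hg hgx using h1
    set f : ℕ → StrongDual ℂ X := fun i => ((‖x i‖ ^ (p - 1) : ℝ) : ℂ) • g i with hf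
    have hfx : ∀ i, f i (x i) = ((‖x i‖ ^ p : ℝ) : ℂ) := by
      intro i
      simp only [hf, _root_.smul_apply, hgx, smul_eq_mul]
      rw [← Complex.ofReal_mul]
      congr 1
      by_cases h0 : ‖x i‖ = 0
      · rw [h0, Real.zero_rpow hp.ne', mul_zero]
      · have h0' : 0 < ‖x i‖ := lt_of_le_of_ne (norm_nonneg _) (Ne.symm h0)
        conv_lhs => rw [← Real.rpow_one ‖x i‖, ← Real.rpow_mul h0'.le, ← Real.rpow_add h0']
        congr 1
        ring
    have hfn : ∀ i, ‖f i‖ ^ q ≤ ‖x i‖ ^ p := by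
      intro i
      have h2 : ‖f i‖ ≤ ‖x i‖ ^ (p - 1) := by
        simp only [hf]
        rw [norm_smul, Complex.norm_real, Real.norm_of_nonneg (by positivity)]
        exact mul_le_of_le_one_right (by positivity) (hg i)
      refine (Real.rpow_le_rpow (norm_nonneg _) h2 hq.le).trans (le_of_eq ?_)
      rw [← Real.rpow_mul (norm_nonneg _)]
      congr 1
      exact hpq.sub_one_mul_conj
    set S : ℝ := ∑ i ∈ range N, ‖x i‖ ^ p with hS
    have hS0 : 0 ≤ S := sum_nonneg fun _ _ => Real.rpow_nonneg (norm_nonneg _) _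
    have h3 : S ≤ ‖G‖ * S ^ (1 / q) := by
      have h4 : ‖G (∑ i ∈ range N, (f i).comp (ev P i))‖ = S := by
        rw [hsum]
        simp only [hfx]
        rw [← Complex.ofReal_sum, Complex.norm_real, Real.norm_of_nonneg hS0]
      have h5 := norm_fnl (P := P) (X := X) hp hpq N f
      have h6 : (∑ i ∈ range N, ‖f i‖ ^ q) ^ (1 / q) ≤ S ^ (1 / q) :=
        Real.rpow_le_rpow (sum_nonneg fun _ _ => Real.rpow_nonneg (norm_nonneg _) _)
          (sum_le_sum fun i _ => hfn i) (by positivity)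
      rw [← h4]
      conv_rhs => rw [h4]
      exact (G.le_opNorm _).trans (mul_le_mul_of_nonneg_left (h5.trans h6) hG0)
    rcases eq_or_lt_of_le hS0 with h0 | h0
    · rw [← h0]; positivity
    · have h7 : S ^ (1 / p) ≤ ‖G‖ := by
        have h8 : S = S ^ (1 / p) * S ^ (1 / q) := by
          rw [← Real.rpow_add h0]
          have := hpq.inv_add_inv_eq_one
          rw [one_div, one_div, this, Real.rpow_one]
        have h9 : 0 < S ^ (1 / q) := by positivity
        rw [h8] at h3
        have h10 : S ^ (1 / p) * S ^ (1 / q) ≤ ‖G‖ * S ^ (1 / q) := by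
          rw [← h8] at h3 ⊢
          exact h3
        exact le_of_mul_le_mul_right h10 h9
      have h11 := Real.rpow_le_rpow (by positivity) h7 hp.le
      rwa [← Real.rpow_mul h0.le, one_div_mul_cancel hp.ne', Real.rpow_one] at h11
  have hmem : Memℓp (fun i => x i) P := by
    apply memℓp_gen' (C := ‖G‖ ^ p)
    intro s
    obtain ⟨N, hN⟩ : ∃ N, s ⊆ range N := ⟨s.sup id + 1, fun i hi => mem_range.2
      (Nat.lt_succ_of_le (le_sup (f := id) hi))⟩
    exact (sum_le_sum_of_subset_of_nonneg hN fun _ _ _ =>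
      Real.rpow_nonneg (norm_nonneg _) _).trans (hbound N)
  set z : lp (fun _ : ℕ => X) P := ⟨fun i => x i, hmem⟩ with hz
  have hzev : ∀ i, ev P i z = x i := fun i => rfl
  refine ⟨z, ?_⟩
  refine ContinuousLinearMap.ext fun y => ?_
  have h1 : NormedSpace.inclusionInDoubleDual ℂ (lp (fun _ : ℕ => X) P) z y = y z := rfl
  rw [h1]
  have h2 : Tendsto (fun N => y (tr P X N z)) atTop (𝓝 (y z)) :=
    (y.continuous.tendsto z).comp (tr_tendsto hPt z)
  have h3 : Tendsto (fun N => G (y.comp (tr P X N))) atTop (𝓝 (G y)) := by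
    refine (G.continuous.tendsto y).comp ?_
    rw [tendsto_iff_norm_sub_tendsto_zero]
    refine (tr_dual_tendsto hP1 hPt y).congr fun N => ?_
    have e : y.comp (tr P X N) - y = -(y.comp (1 - tr P X N)) := by
      ext w
      simp only [_root_.sub_apply, ContinuousLinearMap.comp_apply, _root_.neg_apply,
        one_apply_eq_self, map_sub]
      ring
    rw [e, norm_neg]
  have h4 : ∀ N, G (y.comp (tr P X N)) = y (tr P X N z) := by
    intro N
    have e : y.comp (tr P X N) = ∑ i ∈ range N, (y.comp (sg P i)).comp (ev P i) := by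
      ext w
      simp only [ContinuousLinearMap.comp_apply, _root_.sum_apply, tr_apply, map_sum]
    rw [e, hsum, tr_apply, map_sum]
    exact sum_congr rfl fun i _ => by rw [hzev]; rfl
  exact tendsto_nhds_unique h2 (h3.congr h4)

end Pool.Agent.K4H63.TY
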