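import Pool.Agent.K4H63.TY.Pos
import Pool.Agent.K4H63.TY.Refl2

/-!
# Typical positive contractions of `ℓ_p`-sums
-/

set_option autoImplicit false
open Finset Filter Topology TopologicalSpace
open scoped ENNReal ComplexOrder
open Pool.Agent.Y280 (SOTStar)

namespace Pool.Agent.K4H63.TY

/-- **Typical cone preserving contractions.** -/
theorem typ_cone (P : ℝ≥0∞) [Fact (1 ≤ P)] (hP1 : 1 < P) (hPt : P ≠ ∞) (X : Type)
    [NormedAddCommGroup X] [NormedSpace ℂ X] [CompleteSpace X] [Nontrivial X] [SeparableSpace X]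
    (hX : Refl X) (K : Set X) (hK : IsCone K) (hA : PosApp K) :
    {T : lp (fun _ : ℕ => X) P →L[ℂ] lp (fun _ : ℕ => X) P | ‖T‖ ≤ 1 ∧ PosOp K T}.Nonempty ∧
      @IsCompletelyMetrizableSpace {T : lp (fun _ : ℕ => X) P →L[ℂ] lp (fun _ : ℕ => X) P |
        ‖T‖ ≤ 1 ∧ PosOp K T} (SOTStar _) ∧
      @BaireSpace {T : lp (fun _ : ℕ => X) P →L[ℂ] lp (fun _ : ℕ => X) P |
        ‖T‖ ≤ 1 ∧ PosOp K T} (SOTStar _) ∧
      {T : {T : lp (fun _ : ℕ => X) P →L[ℂ] lp (fun _ : ℕ => X) P | ‖T‖ ≤ 1 ∧ PosOp K T} |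
        DenselyHyperinvariant (T : lp (fun _ : ℕ => X) P →L[ℂ] lp (fun _ : ℕ => X) P)} ∈
        @residual {T : lp (fun _ : ℕ => X) P →L[ℂ] lp (fun _ : ℕ => X) P |
          ‖T‖ ≤ 1 ∧ PosOp K T} (SOTStar _) := by
  have hp1 : 1 < P.toReal := by
    rw [← ENNReal.toReal_one]
    exact (ENNReal.toReal_lt_toReal ENNReal.one_ne_top hPt).2 hP1
  have hZ : Refl (lp (fun _ : ℕ => X) P) := refl_sum hp1 hPt hX
  have hsep : SeparableSpace (lp (fun _ : ℕ => X) P) := separable_sum hPt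
  have hnt : Nontrivial (lp (fun _ : ℕ => X) P) := by
    obtain ⟨x, hx⟩ := exists_ne (0 : X)
    refine ⟨sg P 0 x, 0, fun h => hx ?_⟩
    have h1 := congrArg (ev P 0) h
    rwa [ev_sg, if_pos rfl, map_zero] at h1
  refine typ_class hZ (Real.HolderConjugate.conjExponent hp1) _ (fun T hT => hT.1) ?_
    ⟨0, by simp, fun x _ => by rw [_root_.zero_apply]; exact KK_zero hK⟩ (amp_cone hK hA hp1 hPt)
  intro w T0 hw h
  refine ⟨ball_closed w T0 (fun m => (hw m).1) h, fun x hx i => ?_⟩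
  refine hK.closed.mem_of_tendsto (((ev P i).continuous.tendsto _).comp (h x))
    (Eventually.of_forall fun m => (hw m).2 x hx i)

/-- The cone of the nonnegative numbers. -/
lemma isCone_nonneg : IsCone {z : ℂ | 0 ≤ z} := by
  refine ⟨show (0 : ℂ) ≤ 0 from le_rfl, fun x hx y hy => ?_, fun t ht x hx => ?_, ?_⟩
  · show (0 : ℂ) ≤ x + y
    exact add_nonneg hx hy
  · show 0 ≤ (t : ℂ) • x
    rw [smul_eq_mul]
    exact mul_nonneg (by exact_mod_cast ht) hx
  · exact isClosed_Ici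

lemma posApp_nonneg : PosApp {z : ℂ | 0 ≤ z} := by
  intro A A' ε hε
  refine ⟨1, fun _ => 1, fun _ => ContinuousLinearMap.id ℂ ℂ,
    fun _ => show (0 : ℂ) ≤ 1 from zero_le_one,
    fun _ x hx => ?_, ?_, ?_, ?_, ?_⟩
  · have hx' : 0 ≤ x := hx
    rw [Complex.nonneg_iff] at hx'
    exact ⟨x.re, hx'.1, Complex.ext rfl (by simpa using hx'.2.symm)⟩
  · intro i j
    rw [Subsingleton.elim i j, if_pos rfl]
    rfl
  · refine ContinuousLinearMap.opNorm_le_bound _ zero_le_one fun x => ?_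
    simp
  · intro x _
    simp [hε.le]
  · intro y _
    have e : ∑ i : Fin 1, y 1 • ContinuousLinearMap.id ℂ ℂ - y = 0 := by
      ext
      simp
    rw [e, norm_zero]
    exact hε.le

lemma refl_complex : Refl ℂ := by
  intro G
  refine ⟨G (ContinuousLinearMap.id ℂ ℂ), ?_⟩
  ext f
  have h1 : NormedSpace.inclusionInDoubleDual ℂ ℂ (G (ContinuousLinearMap.id ℂ ℂ)) f =
    f (G (ContinuousLinearMap.id ℂ ℂ)) := rfl
  have h2 : f = f 1 • ContinuousLinearMap.id ℂ ℂ := by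
    ext
    simp
  rw [h1]
  conv_rhs => rw [h2, map_smul, smul_eq_mul]
  have h3 : G (ContinuousLinearMap.id ℂ ℂ) = G (ContinuousLinearMap.id ℂ ℂ) • (1 : ℂ) := by simp
  rw [h3, map_smul, smul_eq_mul]
  simp [mul_comm]

end Pool.Agent.K4H63.TY
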